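import Pool.Agent.FT.Cond

/-! The dimension condition with traces, in small pieces (project FT, helper88). -/

namespace Pool.Agent.FT

open Matrix

/-- The subspace `W` of row vectors is invariant under `A`. -/
def Inv {n : ℕ} (A : Matrix (Fin n) (Fin n) ℕ) (W : Submodule ℚ (Fin n → ℚ)) : Prop :=
  ∀ w ∈ W, w ᵥ* toQ A ∈ W

/-- The trace of `A ^ n` on the invariant subspace `W` is zero. -/
def TraceZero {m : ℕ} (A : Matrix (Fin m) (Fin m) ℕ) (W : Submodule ℚ (Fin m → ℚ)) (n : ℕ) :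
    Prop :=
  ∀ hW : Inv A W, LinearMap.trace ℚ W ((restr A W hW) ^ n) = 0

/-- `U ≤ W` are invariant subspaces of the eventual range of `A`, and `ψ`, with kernel `U` on `W`,
intertwines `A` and `B` on `W` and maps `W ∩ G_A` onto `G_B`. So for the pure subgroups
`M = W ∩ G_A` and `N = U ∩ G_A` of `G_A` the quotient `M / N` is isomorphic to `G_B`, with
`A` acting as `B`. -/
structure IsSubquotient {a b : ℕ} (A : Matrix (Fin a) (Fin a) ℕ) (B : Matrix (Fin b) (Fin b) ℕ)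
    (W U : Submodule ℚ (Fin a → ℚ)) (ψ : (Fin a → ℚ) →ₗ[ℚ] (Fin b → ℚ)) : Prop where
  invW : Inv A W
  invU : Inv A U
  le : U ≤ W
  le_ev : W ≤ evRange A
  comm : ∀ w ∈ W, ψ (w ᵥ* toQ A) = ψ w ᵥ* toQ B
  ker : ∀ w ∈ W, ψ w = 0 ↔ w ∈ U
  onto : ∀ y, y ∈ dimGroup B ↔ ∃ w ∈ W, w ∈ dimGroup A ∧ ψ w = y

/-- Dimension condition with traces: `G_B` is a subquotient of `G_A` as above, and the traces of
`A ^ n` on `U` and on `W` vanish whenever `B ^ n` has trace zero. -/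
def DimTraceCondition {a b : ℕ} (A : Matrix (Fin a) (Fin a) ℕ)
    (B : Matrix (Fin b) (Fin b) ℕ) : Prop :=
  ∃ (W U : Submodule ℚ (Fin a → ℚ)) (ψ : (Fin a → ℚ) →ₗ[ℚ] (Fin b → ℚ)),
    IsSubquotient A B W U ψ ∧
    ∀ n : ℕ, 0 < n → (B ^ n).trace = 0 → TraceZero A W n ∧ TraceZero A U n

theorem dimTrace_iff {a b : ℕ} (A : Matrix (Fin a) (Fin a) ℕ) (B : Matrix (Fin b) (Fin b) ℕ) :
    DimTraceCondition A B ↔ TraceDimCondition A B := by
  constructor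
  · rintro ⟨W, U, ψ, h, ht⟩
    exact ⟨W, U, h.invW, h.invU, ψ, h.le, h.le_ev, h.comm, h.ker, h.onto, fun n hn h0 =>
      ⟨(ht n hn h0).1 h.invW, (ht n hn h0).2 h.invU⟩⟩
  · rintro ⟨W, U, hW, hU, ψ, h1, h2, h3, h4, h5, h6⟩
    exact ⟨W, U, ψ, ⟨hW, hU, h1, h2, h3, h4, h5⟩, fun n hn h0 =>
      ⟨fun _ => (h6 n hn h0).1, fun _ => (h6 n hn h0).2⟩⟩

end Pool.Agent.FT
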