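import Pool.Agent.FT.TraceCond

/-! Entry point: the trace condition for factor codes is `Pool.Agent.FT.trace_condition`. -/
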