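import Pool.Agent.FT.Defs

/-! Necessary conditions for factor codes between mixing shifts of finite type of equal entropy
(project FT): the dimension condition, the periodic point condition, and the dimension condition
with traces. -/

namespace Pool.Agent.FT

open Matrix

/-- Positive cone of the dimension group: the elements that some power of `A` makes
nonnegative. -/
def posCone {n : ℕ} (A : Matrix (Fin n) (Fin n) ℕ) : Set (Fin n → ℚ) :=
  {v | v ∈ dimGroup A ∧ ∃ k : ℕ, ∀ j, 0 ≤ (v ᵥ* (toQ A) ^ k) j}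

/-- Dimension condition: the ordered dimension group `G_B` (with its automorphism `B`) is a
quotient of a closed subgroup of the ordered dimension group `G_A`.  That is, there are an
`A`-invariant subspace `W` of the eventual range of `A` and a linear map `ψ` which on `W`
intertwines `A` and `B`, maps the closed (pure) subgroup `W ∩ G_A` onto `G_B` and maps the positive
elements of `W ∩ G_A` onto the positive elements of `G_B`. -/
def DimCondition {a b : ℕ} (A : Matrix (Fin a) (Fin a) ℕ) (B : Matrix (Fin b) (Fin b) ℕ) :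
    Prop :=
  ∃ (W : Submodule ℚ (Fin a → ℚ)) (ψ : (Fin a → ℚ) →ₗ[ℚ] (Fin b → ℚ)),
    (∀ w ∈ W, w ᵥ* toQ A ∈ W) ∧ W ≤ evRange A ∧
    (∀ w ∈ W, ψ (w ᵥ* toQ A) = ψ w ᵥ* toQ B) ∧
    (∀ y, y ∈ dimGroup B ↔ ∃ w ∈ W, w ∈ dimGroup A ∧ ψ w = y) ∧
    (∀ y, y ∈ posCone B ↔ ∃ w ∈ W, w ∈ posCone A ∧ ψ w = y)

/-- Periodic point condition: if `X` has a point of period `n` then `Y` has a point of period `n`
(equivalently: if `X` has a point of least period `n` then `Y` has a point of least period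
dividing `n`). -/
def PeriodCondition {α β : Type} (X : Set (ℤ → α)) (Y : Set (ℤ → β)) : Prop :=
  ∀ n : ℕ, 0 < n → (∃ x ∈ X, ∀ i : ℤ, x (i + n) = x i) → ∃ y ∈ Y, ∀ i : ℤ, y (i + n) = y i

/-- Dimension condition with traces: there are `A`-invariant subspaces `U ≤ W` of the eventual
range of `A` and a linear map `ψ` which on `W` has kernel `U`, intertwines `A` and `B` and maps
`W ∩ G_A` onto `G_B` (so the pure subgroups `M = W ∩ G_A` and `N = U ∩ G_A` of the dimension group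
`G_A` satisfy `M / N = G_B`), and the trace of `A ^ n` on `U` and on `W` vanishes whenever `B ^ n`
has trace zero. -/
def TraceDimCondition {a b : ℕ} (A : Matrix (Fin a) (Fin a) ℕ) (B : Matrix (Fin b) (Fin b) ℕ) :
    Prop :=
  ∃ (W U : Submodule ℚ (Fin a → ℚ)) (hW : ∀ w ∈ W, w ᵥ* toQ A ∈ W)
    (hU : ∀ w ∈ U, w ᵥ* toQ A ∈ U) (ψ : (Fin a → ℚ) →ₗ[ℚ] (Fin b → ℚ)),
    U ≤ W ∧ W ≤ evRange A ∧
    (∀ w ∈ W, ψ (w ᵥ* toQ A) = ψ w ᵥ* toQ B) ∧
    (∀ w ∈ W, ψ w = 0 ↔ w ∈ U) ∧
    (∀ y, y ∈ dimGroup B ↔ ∃ w ∈ W, w ∈ dimGroup A ∧ ψ w = y) ∧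
    ∀ n : ℕ, 0 < n → (B ^ n).trace = 0 →
      LinearMap.trace ℚ W ((restr A W hW) ^ n) = 0 ∧
      LinearMap.trace ℚ U ((restr A U hU) ^ n) = 0

end Pool.Agent.FT
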