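import Mathlib

/-!
Edge shifts, factor codes, entropy and dimension groups (project FT, MP_59dda0_an).
-/

namespace Pool.Agent.FT

open Filter Topology Matrix

/-- Edges of the directed graph of a nonnegative integer matrix `A`:
`A i j` parallel edges from `i` to `j`. -/
abbrev Edge {n : ℕ} (A : Matrix (Fin n) (Fin n) ℕ) : Type :=
  Σ p : Fin n × Fin n, Fin (A p.1 p.2)

/-- Initial vertex of an edge. -/
def src {n : ℕ} {A : Matrix (Fin n) (Fin n) ℕ} (e : Edge A) : Fin n := e.1.1

/-- Terminal vertex of an edge. -/
def tgt {n : ℕ} {A : Matrix (Fin n) (Fin n) ℕ} (e : Edge A) : Fin n := e.1.2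

/-- The edge shift `X_A`: two-sided infinite paths in the graph of `A`, a subset of the
full shift over the set of edges (with the product of the discrete topologies). -/
def edgeShift {n : ℕ} (A : Matrix (Fin n) (Fin n) ℕ) : Set (ℤ → Edge A) :=
  {x | ∀ i, tgt (x i) = src (x (i + 1))}

/-- A factor code from `X` onto `Y`: a continuous surjection that commutes with the shifts
(if `x'` is the shift of `x`, then `φ x'` is the shift of `φ x`). -/
structure IsFactorCode {α β : Type} [TopologicalSpace α] [TopologicalSpace β]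
    {X : Set (ℤ → α)} {Y : Set (ℤ → β)} (φ : X → Y) : Prop where
  continuous : Continuous φ
  surjective : Function.Surjective φ
  commutes : ∀ x x' : X, (∀ i, x'.1 i = x.1 (i + 1)) → ∀ i, (φ x').1 i = (φ x).1 (i + 1)

/-- Number of words of length `n` that occur in the points of `X`. -/
noncomputable def blockCount {α : Type} (X : Set (ℤ → α)) (n : ℕ) : ℕ :=
  Set.ncard {w : Fin n → α | ∃ x ∈ X, ∀ i : Fin n, w i = x (i : ℕ)}

/-- The entropy of `X` is `h`. -/
def HasEntropy {α : Type} (X : Set (ℤ → α)) (h : ℝ) : Prop :=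
  Tendsto (fun n : ℕ => Real.log (blockCount X n) / n) atTop (𝓝 h)

/-- Primitive matrix: of positive size, and some power is entrywise positive
(so that `edgeShift A` is a mixing shift of finite type; every infinite mixing shift of
finite type is conjugate to one of these). -/
def IsPrimitive {n : ℕ} (A : Matrix (Fin n) (Fin n) ℕ) : Prop :=
  0 < n ∧ ∃ k : ℕ, 0 < k ∧ ∀ i j, 0 < (A ^ k) i j

/-- The matrix `A` with rational entries. -/
def toQ {m n : Type} (A : Matrix m n ℕ) : Matrix m n ℚ := A.map (fun x => (x : ℚ))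

/-- The eventual range of `A` acting on rational row vectors. -/
def evRange {n : ℕ} (A : Matrix (Fin n) (Fin n) ℕ) : Submodule ℚ (Fin n → ℚ) :=
  LinearMap.range ((toQ A) ^ n).vecMulLinear

/-- The dimension group of `A`: rational row vectors of the eventual range that some power
of `A` makes integral. -/
def dimGroup {n : ℕ} (A : Matrix (Fin n) (Fin n) ℕ) : Set (Fin n → ℚ) :=
  {v | v ∈ evRange A ∧ ∃ k : ℕ, ∃ z : Fin n → ℤ, ∀ j, (v ᵥ* (toQ A) ^ k) j = (z j : ℚ)}

/-- The endomorphism `w ↦ w A` of an invariant subspace `W` of row vectors. -/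
def restr {n : ℕ} (A : Matrix (Fin n) (Fin n) ℕ) (W : Submodule ℚ (Fin n → ℚ))
    (hW : ∀ w ∈ W, w ᵥ* toQ A ∈ W) : Module.End ℚ W :=
  ((toQ A).vecMulLinear).restrict hW

/-- Walks from `j` to `j'` with edge word `u` in a directed graph with source and target
maps `s`, `t`. -/
def Walk {E J : Type} (s t : E → J) : J → List E → J → Prop
  | j, [], j' => j = j'
  | j, e :: u, j' => s e = j ∧ Walk s t (t e) u j'

/-- Product of the matrices `L e` along a word. -/
def wordMat {E V : Type} [Fintype V] [DecidableEq V] (L : E → Matrix V V ℕ) (u : List E) :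
    Matrix V V ℕ :=
  (u.map L).prod

/-- Output of the coding part: a labelled presentation without diamonds of a factor code.
`V` is the set of states (`A`-paths of length `p`), `f` the fibre map to the vertices of `B`,
`L e` the transitions labelled `e`; `X` and `Y` record terminal and initial vertices. -/
structure Presentation {a b : ℕ} (A : Matrix (Fin a) (Fin a) ℕ) (B : Matrix (Fin b) (Fin b) ℕ)
    (V : Type) [Fintype V] [DecidableEq V] where
  p : ℕ
  f : V → Fin b
  L : Edge B → Matrix V V ℕ
  X : Matrix V (Fin a) ℕ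
  Y : Matrix (Fin a) V ℕ
  supp : ∀ e v w, L e v w ≠ 0 → f v = src e ∧ f w = tgt e
  nodiamond : ∀ u v w, wordMat L u v w ≤ 1
  onto : ∀ j u j', Walk (src (A := B)) tgt j u j' → wordMat L u ≠ 0
  sumX : (∑ e, L e) * X = X * A
  sumY : Y * (∑ e, L e) = A * Y
  YX : Y * X = A ^ p
  XY : X * Y = (∑ e, L e) ^ p

end Pool.Agent.FT
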