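import Pool.Agent.FT.Defs

/-! Curtis-Hedlund-Lyndon for edge shifts (FT-1, helper7). -/

namespace Pool.Agent.FT

section Shift

variable {a : ℕ} {A : Matrix (Fin a) (Fin a) ℕ}

/-- translates of points -/
def trans (x : edgeShift A) (c : ℤ) : edgeShift A :=
  ⟨fun i => x.1 (i + c), fun i => by
    have h := x.2 (i + c)
    rwa [show i + c + 1 = i + 1 + c by ring] at h⟩

@[simp] theorem trans_apply (x : edgeShift A) (c i : ℤ) : (trans x c).1 i = x.1 (i + c) := rfl

theorem trans_trans (x : edgeShift A) (c d : ℤ) : trans (trans x c) d = trans x (c + d) := by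
  apply Subtype.ext
  funext i
  simp only [trans_apply]
  ring_nf

theorem trans_zero (x : edgeShift A) : trans x 0 = x := by
  apply Subtype.ext
  funext i
  simp

theorem isClosed_edgeShift : IsClosed (edgeShift A) := by
  have h : edgeShift A = ⋂ i : ℤ, {x : ℤ → Edge A | tgt (x i) = src (x (i + 1))} := by
    ext x
    simp only [edgeShift, Set.mem_iInter, Set.mem_ofPred_eq]
  rw [h]
  apply isClosed_iInter
  intro i
  have h1 : Continuous fun x : ℤ → Edge A => ((x i, x (i + 1)) : Edge A × Edge A) := by fun_prop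
  exact (isClosed_discrete {q : Edge A × Edge A | tgt q.1 = src q.2}).preimage h1

instance : CompactSpace (edgeShift A) :=
  isCompact_iff_compactSpace.mp (isClosed_edgeShift.isCompact)

end Shift

theorem commutes_trans {a b : ℕ} {A : Matrix (Fin a) (Fin a) ℕ}
    {B : Matrix (Fin b) (Fin b) ℕ} {φ : edgeShift A → edgeShift B} (hφ : IsFactorCode φ)
    (x : edgeShift A) (c : ℤ) : φ (trans x c) = trans (φ x) c := by
  have h1 : ∀ x : edgeShift A, φ (trans x 1) = trans (φ x) 1 := by
    intro x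
    apply Subtype.ext
    funext i
    exact hφ.commutes x (trans x 1) (fun i => rfl) i
  have h2 : ∀ n : ℕ, ∀ x : edgeShift A, φ (trans x n) = trans (φ x) n := by
    intro n
    induction n with
    | zero =>
      intro x
      simp only [Nat.cast_zero, trans_zero]
    | succ n ih =>
      intro x
      have h3 : trans x ((n + 1 : ℕ) : ℤ) = trans (trans x n) 1 := by
        rw [trans_trans]; push_cast; rfl
      rw [h3, h1, ih, trans_trans]
      push_cast
      rfl
  rcases le_total 0 c with hc | hc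
  · obtain ⟨n, rfl⟩ := Int.eq_ofNat_of_zero_le hc
    exact h2 n x
  · obtain ⟨n, hn⟩ := Int.eq_ofNat_of_zero_le (neg_nonneg.mpr hc)
    have h3 := h2 n (trans x c)
    rw [trans_trans, ← hn, add_neg_cancel, trans_zero] at h3
    rw [h3, trans_trans, neg_add_cancel, trans_zero]

/-- the coordinate zero of the image depends on a finite window -/
theorem exists_window {a b : ℕ} {A : Matrix (Fin a) (Fin a) ℕ}
    {B : Matrix (Fin b) (Fin b) ℕ} {φ : edgeShift A → edgeShift B} (hφ : IsFactorCode φ) :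
    ∃ N : ℕ, ∀ x x' : edgeShift A, (∀ i : ℤ, -(N : ℤ) ≤ i → i ≤ N → x.1 i = x'.1 i) →
      (φ x).1 0 = (φ x').1 0 := by
  classical
  have hg : Continuous fun x : edgeShift A => (φ x).1 0 :=
    (continuous_apply 0).comp (continuous_subtype_val.comp hφ.continuous)
  have h1 : ∀ x : edgeShift A, ∃ N : ℕ, ∀ x' : edgeShift A,
      (∀ i : ℤ, -(N : ℤ) ≤ i → i ≤ N → x.1 i = x'.1 i) → (φ x).1 0 = (φ x').1 0 := by
    intro x
    have h2 : IsOpen ((fun x : edgeShift A => (φ x).1 0) ⁻¹' {(φ x).1 0}) :=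
      (isOpen_discrete _).preimage hg
    obtain ⟨U, hU, hU2⟩ := isOpen_induced_iff.mp h2
    have hxU : x.1 ∈ U := by
      have : x ∈ Subtype.val ⁻¹' U := by
        rw [hU2]; rfl
      exact this
    obtain ⟨I, u, hu, hIu⟩ := isOpen_pi_iff.mp hU x.1 hxU
    refine ⟨I.sup (fun i => i.natAbs), fun x' hx' => ?_⟩
    have h3 : x'.1 ∈ U := by
      apply hIu
      intro i hi
      have h4 : i.natAbs ≤ I.sup (fun i => i.natAbs) := Finset.le_sup (f := fun i : ℤ => i.natAbs) hi
      rw [← hx' i (by omega) (by omega)]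
      exact (hu i hi).2
    have h5 : x' ∈ Subtype.val ⁻¹' U := h3
    rw [hU2] at h5
    exact (Set.mem_singleton_iff.mp h5).symm
  choose N hN using h1
  have hopen : ∀ x : edgeShift A, IsOpen {x' : edgeShift A |
      ∀ i ∈ Finset.Icc (-(N x : ℤ)) (N x), x.1 i = x'.1 i} := by
    intro x
    have h2 : {x' : edgeShift A | ∀ i ∈ Finset.Icc (-(N x : ℤ)) (N x), x.1 i = x'.1 i} =
        ⋂ i ∈ Finset.Icc (-(N x : ℤ)) (N x), (fun x' : edgeShift A => x'.1 i) ⁻¹' {x.1 i} := by
      ext x'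
      simp only [Set.mem_iInter, Set.mem_ofPred_eq, Set.mem_preimage, Set.mem_singleton_iff]
      exact ⟨fun h i hi => (h i hi).symm, fun h i hi => (h i hi).symm⟩
    rw [h2]
    apply isOpen_biInter_finset
    intro i _
    exact (isOpen_discrete _).preimage ((continuous_apply i).comp continuous_subtype_val)
  obtain ⟨t, ht⟩ := (isCompact_univ (X := edgeShift A)).elim_finite_subcover _ hopen
    (fun x _ => Set.mem_iUnion.mpr ⟨x, fun i _ => rfl⟩)
  refine ⟨t.sup N, fun x x' hxx => ?_⟩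
  obtain ⟨z, hz⟩ := Set.mem_iUnion.mp (ht (Set.mem_univ x))
  obtain ⟨hzt, hz2⟩ := Set.mem_iUnion.mp hz
  have hle : N z ≤ t.sup N := Finset.le_sup hzt
  have h3 : (φ z).1 0 = (φ x).1 0 :=
    hN z x (fun i hi hi' => hz2 i (Finset.mem_Icc.mpr ⟨hi, hi'⟩))
  have h4 : (φ z).1 0 = (φ x').1 0 := by
    apply hN z x'
    intro i hi hi'
    rw [hz2 i (Finset.mem_Icc.mpr ⟨hi, hi'⟩)]
    exact hxx i (by omega) (by omega)
  rw [← h3, h4]

/-- Sliding block form, after composing with a power of the shift: there are `p > 0`, a map `Φ`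
on words of length `p` and a factor code `ψ` with `(ψ x)_i = Φ (x_i, ..., x_(i+p-1))`. -/
theorem exists_block_map {a b : ℕ} {A : Matrix (Fin a) (Fin a) ℕ}
    {B : Matrix (Fin b) (Fin b) ℕ} (φ : edgeShift A → edgeShift B) (hφ : IsFactorCode φ)
    (hB : IsPrimitive B) :
    ∃ (p : ℕ) (Φ : (Fin p → Edge A) → Edge B), 0 < p ∧
      (∀ x ∈ edgeShift A, (fun i : ℤ => Φ (fun k : Fin p => x (i + (k : ℕ)))) ∈ edgeShift B) ∧
      (∀ y ∈ edgeShift B, ∃ x ∈ edgeShift A,
        ∀ i : ℤ, y i = Φ (fun k : Fin p => x (i + (k : ℕ)))) := by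
  classical
  obtain ⟨N, hN⟩ := exists_window hφ
  have hne : Nonempty (Edge B) := by
    obtain ⟨hb, k, hk, hpos⟩ := hB
    by_contra hcon
    rw [not_nonempty_iff] at hcon
    have h0 : B = 0 := by
      ext i j
      by_contra h
      exact hcon.false ⟨(i, j), ⟨0, Nat.pos_of_ne_zero h⟩⟩
    have h1 := hpos ⟨0, hb⟩ ⟨0, hb⟩
    rw [h0, zero_pow hk.ne'] at h1
    simp at h1
  obtain ⟨e0⟩ := hne
  let Φ : (Fin (2 * N + 1) → Edge A) → Edge B := fun w =>
    if h : ∃ x : edgeShift A, ∀ k : Fin (2 * N + 1), w k = x.1 ((k : ℕ) - N) then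
      (φ h.choose).1 0 else e0
  have hΦ : ∀ (x : edgeShift A) (i : ℤ),
      Φ (fun k : Fin (2 * N + 1) => x.1 (i + (k : ℕ))) = (φ x).1 (i + N) := by
    intro x i
    have hex : ∃ x' : edgeShift A, ∀ k : Fin (2 * N + 1), (fun k : Fin (2 * N + 1) =>
        x.1 (i + (k : ℕ))) k = x'.1 ((k : ℕ) - N) := by
      refine ⟨trans x (i + N), fun k => ?_⟩
      simp only [trans_apply]
      ring_nf
    have h1 : Φ (fun k : Fin (2 * N + 1) => x.1 (i + (k : ℕ))) = (φ hex.choose).1 0 :=
      dif_pos hex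
    have h2 := hex.choose_spec
    rw [h1]
    have h3 : (φ hex.choose).1 0 = (φ (trans x (i + N))).1 0 := by
      apply hN
      intro j hj hj'
      have h4 := h2 ⟨(j + N).toNat, by omega⟩
      have h5 : (((j + N).toNat : ℕ) : ℤ) = j + N := Int.toNat_of_nonneg (by omega)
      simp only [h5] at h4
      rw [show j + (N : ℤ) - N = j by ring] at h4
      rw [← h4, trans_apply]
      ring_nf
    rw [h3, commutes_trans hφ, trans_apply, zero_add]
  refine ⟨2 * N + 1, Φ, by omega, fun x hx => ?_, fun y hy => ?_⟩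
  · have h1 : (fun i : ℤ => Φ (fun k : Fin (2 * N + 1) => x (i + (k : ℕ)))) =
        (trans (φ ⟨x, hx⟩) N).1 := by
      funext i
      exact hΦ ⟨x, hx⟩ i
    rw [h1]
    exact (trans (φ ⟨x, hx⟩) N).2
  · obtain ⟨x, hx⟩ := hφ.surjective (trans ⟨y, hy⟩ (-N))
    refine ⟨x.1, x.2, fun i => ?_⟩
    rw [hΦ x i, hx, trans_apply]
    simp

end Pool.Agent.FT
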