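import Pool.Agent.FT.Defs

/-! Words of an edge shift are the paths of the graph (FT-1b). -/

namespace Pool.Agent.FT

private theorem Count_out {n : ℕ} {A : Matrix (Fin n) (Fin n) ℕ} (hA : IsPrimitive A)
    (v : Fin n) : ∃ e : Edge A, src e = v := by
  obtain ⟨hn, k, hk, h⟩ := hA
  obtain ⟨k, rfl⟩ : ∃ m, k = m + 1 := ⟨k - 1, by omega⟩
  have h1 := h v v
  rw [pow_succ', Matrix.mul_apply] at h1
  obtain ⟨m, -, hm⟩ := Finset.exists_ne_zero_of_sum_ne_zero h1.ne'
  have h2 : 0 < A v m := Nat.pos_of_ne_zero (left_ne_zero_of_mul hm)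
  exact ⟨⟨(v, m), ⟨0, h2⟩⟩, rfl⟩

private theorem Count_in {n : ℕ} {A : Matrix (Fin n) (Fin n) ℕ} (hA : IsPrimitive A)
    (v : Fin n) : ∃ e : Edge A, tgt e = v := by
  obtain ⟨hn, k, hk, h⟩ := hA
  obtain ⟨k, rfl⟩ : ∃ m, k = m + 1 := ⟨k - 1, by omega⟩
  have h1 := h v v
  rw [pow_succ, Matrix.mul_apply] at h1
  obtain ⟨m, -, hm⟩ := Finset.exists_ne_zero_of_sum_ne_zero h1.ne'
  have h2 : 0 < A m v := Nat.pos_of_ne_zero (right_ne_zero_of_mul hm)
  exact ⟨⟨(m, v), ⟨0, h2⟩⟩, rfl⟩

private theorem Count_right {n : ℕ} {A : Matrix (Fin n) (Fin n) ℕ} (hA : IsPrimitive A) {k : ℕ}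
    (hk : 0 < k) (w : Fin k → Edge A)
    (hw : ∀ (i : ℕ) (h : i + 1 < k), tgt (w ⟨i, by omega⟩) = src (w ⟨i + 1, h⟩)) :
    ∃ z : ℕ → Edge A, (∀ i, tgt (z i) = src (z (i + 1))) ∧ ∀ i : Fin k, z i = w i := by
  choose o ho using Count_out hA
  let r : ℕ → Edge A := fun i => Nat.rec (o (tgt (w ⟨k - 1, by omega⟩))) (fun _ e => o (tgt e)) i
  have hr0 : r 0 = o (tgt (w ⟨k - 1, by omega⟩)) := rfl
  have hrs : ∀ i, r (i + 1) = o (tgt (r i)) := fun i => rfl
  refine ⟨fun i => if h : i < k then w ⟨i, h⟩ else r (i - k), ?_, ?_⟩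
  · intro i
    dsimp only
    by_cases h : i + 1 < k
    · rw [dif_pos h, dif_pos (by omega : i < k)]
      exact hw i h
    · rw [dif_neg h]
      by_cases h2 : i < k
      · rw [dif_pos h2]
        have h3 : i + 1 - k = 0 := by omega
        rw [h3, hr0, ho]
        congr 3
        omega
      · rw [dif_neg h2]
        have h3 : i + 1 - k = (i - k) + 1 := by omega
        rw [h3, hrs, ho]
  · intro i
    dsimp only
    rw [dif_pos i.2]

/-- In a primitive graph every path (a function on `Fin n` with matching ends) occurs in a point of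
the edge shift. -/
theorem exists_extend {n : ℕ} {A : Matrix (Fin n) (Fin n) ℕ} (hA : IsPrimitive A) (k : ℕ)
    (w : Fin k → Edge A)
    (hw : ∀ (i : ℕ) (h : i + 1 < k), tgt (w ⟨i, by omega⟩) = src (w ⟨i + 1, h⟩)) :
    ∃ x ∈ edgeShift A, ∀ i : Fin k, x (i : ℕ) = w i := by
  have key : ∃ z : ℕ → Edge A, (∀ i, tgt (z i) = src (z (i + 1))) ∧ ∀ i : Fin k, z i = w i := by
    rcases Nat.eq_zero_or_pos k with rfl | hk
    · obtain ⟨e, -⟩ := Count_out hA ⟨0, hA.1⟩
      obtain ⟨z, hz, -⟩ := Count_right hA (k := 1) one_pos (fun _ => e)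
        (fun i h => absurd h (by omega))
      exact ⟨z, hz, fun i => i.elim0⟩
    · exact Count_right hA hk w hw
  obtain ⟨z, hz, hzw⟩ := key
  choose o ho using Count_in hA
  let l : ℕ → Edge A := fun i => Nat.rec (o (src (z 0))) (fun _ e => o (src e)) i
  have hl0 : l 0 = o (src (z 0)) := rfl
  have hls : ∀ i, l (i + 1) = o (src (l i)) := fun i => rfl
  let x : ℤ → Edge A := fun i => Int.casesOn i z l
  have hx1 : ∀ m : ℕ, x (m : ℤ) = z m := fun m => rfl
  have hx2 : ∀ m : ℕ, x (Int.negSucc m) = l m := fun m => rfl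
  refine ⟨x, ?_, fun i => (hx1 i).trans (hzw i)⟩
  intro i
  rcases i with m | m
  · have h1 : (Int.ofNat m + 1 : ℤ) = ((m + 1 : ℕ) : ℤ) := by simp
    rw [h1, hx1]
    exact hz m
  · rcases m with _ | m
    · have h2 : tgt (l 0) = src (z 0) := by rw [hl0, ho]
      exact h2
    · have h1 : (Int.negSucc (m + 1) + 1 : ℤ) = Int.negSucc m := by
        rw [Int.negSucc_eq, Int.negSucc_eq]; push_cast; ring
      have h2 : tgt (l (m + 1)) = src (l m) := by rw [hls, ho]
      rw [h1]
      exact h2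

private theorem Count_paths {n : ℕ} (A : Matrix (Fin n) (Fin n) ℕ) (m : ℕ) (i j : Fin n) :
    (∑ w : Fin (m + 1) → Edge A, if (src (w 0) = i ∧ (∀ t : Fin m,
      tgt (w t.castSucc) = src (w t.succ)) ∧ tgt (w (Fin.last m)) = j) then 1 else 0)
      = (A ^ (m + 1)) i j := by
  induction m generalizing i with
  | zero =>
    have h0 : A ^ (0 + 1) = A := by rw [zero_add, pow_one]
    rw [h0]
    rw [← (Equiv.funUnique (Fin 1) (Edge A)).symm.sum_comp]
    rw [Fintype.sum_sigma, Fintype.sum_prod_type]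
    rw [Finset.sum_eq_single i, Finset.sum_eq_single j]
    · simp [src, tgt]
    · intro b _ hb
      simp [src, tgt, hb]
    · simp
    · intro b _ hb
      simp [src, tgt, hb]
    · simp
  | succ m ih =>
    rw [pow_succ' A (m + 1), Matrix.mul_apply]
    rw [← (Fin.consEquiv (fun _ : Fin (m + 2) => Edge A)).sum_comp, Fintype.sum_prod_type]
    have h1 : ∀ e : Edge A, (∑ w : Fin (m + 1) → Edge A,
        if (src ((Fin.consEquiv (fun _ : Fin (m + 2) => Edge A)) (e, w) 0) = i ∧
          (∀ t : Fin (m + 1), tgt ((Fin.consEquiv (fun _ : Fin (m + 2) => Edge A)) (e, w)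
              t.castSucc)
            = src ((Fin.consEquiv (fun _ : Fin (m + 2) => Edge A)) (e, w) t.succ)) ∧
          tgt ((Fin.consEquiv (fun _ : Fin (m + 2) => Edge A)) (e, w) (Fin.last (m + 1))) = j)
          then 1 else 0) = if src e = i then (A ^ (m + 1)) (tgt e) j else 0 := by
      intro e
      rw [← ih (tgt e)]
      by_cases he : src e = i
      · rw [if_pos he]
        refine Finset.sum_congr rfl fun w _ => ?_
        refine if_congr ?_ rfl rfl
        simp only [Fin.consEquiv_apply, Fin.cons_zero, Fin.cons_succ, he, true_and]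
        rw [Fin.forall_fin_succ]
        simp only [Fin.castSucc_zero, Fin.cons_zero, ← Fin.succ_castSucc, Fin.cons_succ]
        have h2 : (Fin.last (m + 1) : Fin (m + 2)) = (Fin.last m).succ := rfl
        rw [h2, Fin.cons_succ]
        constructor
        · rintro ⟨⟨a, b⟩, c⟩
          exact ⟨a.symm, b, c⟩
        · rintro ⟨a, b, c⟩
          exact ⟨⟨a.symm, b⟩, c⟩
      · rw [if_neg he]
        refine Finset.sum_eq_zero fun w _ => if_neg ?_
        rintro ⟨h, -⟩
        exact he h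
    rw [Finset.sum_congr rfl fun e _ => h1 e]
    rw [Fintype.sum_sigma, Fintype.sum_prod_type, Finset.sum_eq_single i]
    · refine Finset.sum_congr rfl fun b _ => ?_
      simp [src, tgt]
    · intro b _ hb
      simp [src, hb]
    · simp

theorem blockCount_edgeShift {n : ℕ} {A : Matrix (Fin n) (Fin n) ℕ} (hA : IsPrimitive A)
    {k : ℕ} (hk : 0 < k) :
    blockCount (edgeShift A) k = ∑ i, ∑ j, (A ^ k) i j := by
  obtain ⟨m, rfl⟩ : ∃ m, k = m + 1 := ⟨k - 1, by omega⟩
  have h1 : {w : Fin (m + 1) → Edge A | ∃ x ∈ edgeShift A, ∀ i : Fin (m + 1), w i = x (i : ℕ)}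
      = ((Finset.univ.filter (fun w : Fin (m + 1) → Edge A =>
        ∀ t : Fin m, tgt (w t.castSucc) = src (w t.succ)) : Finset _) : Set _) := by
    ext w
    simp only [Set.mem_ofPred_eq, Finset.coe_filter, Finset.mem_univ, true_and]
    constructor
    · rintro ⟨x, hx, hw⟩ t
      rw [hw, hw]
      have := hx (t : ℕ)
      simpa using this
    · intro h
      obtain ⟨x, hx, hxw⟩ := exists_extend hA (m + 1) w (fun i hi => h ⟨i, by omega⟩)
      exact ⟨x, hx, fun i => (hxw i).symm⟩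
  unfold blockCount
  rw [h1, Set.ncard_coe_finset, Finset.card_filter]
  have h2 : ∀ i j, (A ^ (m + 1)) i j = ∑ w : Fin (m + 1) → Edge A, if (src (w 0) = i ∧
      (∀ t : Fin m, tgt (w t.castSucc) = src (w t.succ)) ∧ tgt (w (Fin.last m)) = j)
      then 1 else 0 := fun i j => (Count_paths A m i j).symm
  simp_rw [h2]
  have h3 : ∀ i : Fin n, (∑ j : Fin n, ∑ w : Fin (m + 1) → Edge A, if (src (w 0) = i ∧
      (∀ t : Fin m, tgt (w t.castSucc) = src (w t.succ)) ∧ tgt (w (Fin.last m)) = j)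
      then 1 else 0) = ∑ w : Fin (m + 1) → Edge A, if (src (w 0) = i ∧
      (∀ t : Fin m, tgt (w t.castSucc) = src (w t.succ))) then 1 else 0 := by
    intro i
    rw [Finset.sum_comm]
    refine Finset.sum_congr rfl fun w _ => ?_
    rw [Finset.sum_eq_single (tgt (w (Fin.last m)))]
    · simp
    · intro b _ hb
      rw [if_neg]
      rintro ⟨-, -, h⟩
      exact hb h.symm
    · simp
  rw [Finset.sum_congr rfl fun i _ => h3 i, Finset.sum_comm]
  refine Finset.sum_congr rfl fun w _ => ?_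
  rw [Finset.sum_eq_single (src (w 0))]
  · simp
  · intro b _ hb
    rw [if_neg]
    rintro ⟨h, -⟩
    exact hb h.symm
  · simp

end Pool.Agent.FT
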