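import Pool.Agent.FT.Defs

/-! The higher block graph: windows of length `p + 1`. -/

namespace Pool.Agent.FT

open Matrix

section Path

variable {a : ℕ} (A : Matrix (Fin a) (Fin a) ℕ) (p : ℕ)

/-- windows: paths with `p + 1` edges -/
abbrev Win : Type := {w : Fin (p + 1) → Edge A //
  ∀ i j : Fin (p + 1), (i : ℕ) + 1 = j → tgt (w i) = src (w j)}

variable {A p}

/-- the window `w'` is the window `w` moved by `k` steps -/
def Ov (k : ℕ) (w w' : Win A p) : Prop :=
  (∀ i j : Fin (p + 1), (i : ℕ) + k = j → w'.1 i = w.1 j) ∧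
  ∀ i : Fin (p + 1), (i : ℕ) + k = p + 1 → tgt (w.1 (Fin.last p)) = src (w'.1 i)

open Classical in
/-- the transition matrix of the windows -/
noncomputable def winE (A : Matrix (Fin a) (Fin a) ℕ) (p : ℕ) : Matrix (Win A p) (Win A p) ℕ :=
  fun w w' => if Ov 1 w w' then 1 else 0

open Classical in
/-- terminal vertices of windows -/
noncomputable def winX (A : Matrix (Fin a) (Fin a) ℕ) (p : ℕ) : Matrix (Win A p) (Fin a) ℕ :=
  fun w i => if tgt (w.1 (Fin.last p)) = i then 1 else 0

open Classical in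
/-- initial vertices of windows -/
noncomputable def winY (A : Matrix (Fin a) (Fin a) ℕ) (p : ℕ) : Matrix (Fin a) (Win A p) ℕ :=
  fun i w => if src (w.1 0) = i then 1 else 0

/-- number of edges between two vertices -/
theorem sum_edge (g : Fin a → Fin a → ℕ) :
    ∑ e : Edge A, g (src e) (tgt e) = ∑ i, ∑ j, A i j * g i j := by
  rw [Fintype.sum_sigma, Fintype.sum_prod_type]
  refine Finset.sum_congr rfl fun i _ => Finset.sum_congr rfl fun j _ => ?_
  simp [src, tgt]

/-- the middle window -/
theorem exists_mid {k : ℕ} (hk : 1 ≤ k) (hkp : k ≤ p) {w w'' : Win A p} (h : Ov (k + 1) w w'') :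
    ∃ w' : Win A p, Ov k w w' ∧ Ov 1 w' w'' := by
  let f : Fin (p + 1) → Edge A := fun i =>
    if hi : (i : ℕ) = 0 then w.1 ⟨k, by omega⟩ else w''.1 ⟨i - 1, by omega⟩
  have hf0 : ∀ i : Fin (p + 1), (i : ℕ) = 0 → f i = w.1 ⟨k, by omega⟩ := fun i hi => dif_pos hi
  have hf1 : ∀ i : Fin (p + 1), ∀ j : Fin (p + 1), (j : ℕ) + 1 = i → f i = w''.1 j := by
    intro i j hij
    have hi : (i : ℕ) ≠ 0 := by omega
    have h1 : f i = w''.1 ⟨i - 1, by omega⟩ := dif_neg hi
    rw [h1]
    exact congrArg w''.1 (Fin.ext (by simp only; omega))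
  have hf : ∀ i j : Fin (p + 1), (i : ℕ) + 1 = j → tgt (f i) = src (f j) := by
    intro i j hij
    rcases Nat.eq_zero_or_pos (i : ℕ) with hi | hi
    · rw [hf0 i hi, hf1 j ⟨0, by omega⟩ (by simp only; omega)]
      rcases Nat.lt_or_ge k p with hlt | hge
      · rw [h.1 ⟨0, by omega⟩ ⟨k + 1, by omega⟩ (by simp only; omega)]
        exact w.2 _ _ rfl
      · have h2 := h.2 ⟨0, by omega⟩ (by simp only; omega)
        rw [← h2]
        exact congrArg tgt (congrArg w.1 (Fin.ext (by simp only [Fin.val_last]; omega)))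
    · rw [hf1 i ⟨i - 1, by omega⟩ (by simp only; omega), hf1 j ⟨i, by omega⟩ (by simp only; omega)]
      exact w''.2 _ _ (by simp only; omega)
  refine ⟨⟨f, hf⟩, ⟨?_, ?_⟩, ⟨?_, ?_⟩⟩
  · intro i j hij
    show f i = w.1 j
    rcases Nat.eq_zero_or_pos (i : ℕ) with hi | hi
    · rw [hf0 i hi]
      exact congrArg w.1 (Fin.ext (by simp only; omega))
    · rw [hf1 i ⟨i - 1, by omega⟩ (by simp only; omega)]
      exact h.1 _ _ (by simp only; omega)
  · intro i hi
    show tgt (w.1 (Fin.last p)) = src (f i)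
    rw [hf1 i ⟨i - 1, by omega⟩ (by simp only; omega)]
    exact h.2 _ (by simp only; omega)
  · intro i j hij
    show w''.1 i = f j
    exact (hf1 j i hij).symm
  · intro i hi
    show tgt (f (Fin.last p)) = src (w''.1 i)
    rw [hf1 (Fin.last p) ⟨p - 1, by omega⟩ (by simp only [Fin.val_last]; omega)]
    exact w''.2 _ _ (by simp only; omega)

/-- the middle window is unique -/
theorem mid_unique {k : ℕ} (hkp : k ≤ p) {w w'' u v : Win A p}
    (hu : Ov k w u) (hu' : Ov 1 u w'') (hv : Ov k w v) (hv' : Ov 1 v w'') : u = v := by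
  apply Subtype.ext
  funext i
  rcases Nat.eq_zero_or_pos (i : ℕ) with hi | hi
  · rw [hu.1 i ⟨k, by omega⟩ (by simp only; omega), hv.1 i ⟨k, by omega⟩ (by simp only; omega)]
  · rw [← hu'.1 ⟨i - 1, by omega⟩ i (by simp only; omega),
      ← hv'.1 ⟨i - 1, by omega⟩ i (by simp only; omega)]

theorem ov_trans {k : ℕ} (hk : 1 ≤ k) {w w' w'' : Win A p}
    (h1 : Ov k w w') (h2 : Ov 1 w' w'') : Ov (k + 1) w w'' := by
  refine ⟨fun i j hij => ?_, fun i hi => ?_⟩
  · rw [h2.1 i ⟨i + 1, by omega⟩ rfl]
    exact h1.1 _ _ (by simp only; omega)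
  · rw [h2.1 i ⟨i + 1, by omega⟩ rfl]
    exact h1.2 _ (by simp only; omega)

open Classical in
theorem winE_pow (k : ℕ) (hk : 1 ≤ k) (hkp : k ≤ p + 1) (w w'' : Win A p) :
    (winE A p ^ k) w w'' = if Ov k w w'' then 1 else 0 := by
  induction k, hk using Nat.le_induction generalizing w'' with
  | base => rw [pow_one]; rfl
  | succ k hk ih =>
    rw [pow_succ, Matrix.mul_apply]
    have h1 : ∀ w', (winE A p ^ k) w w' * winE A p w' w'' =
        if Ov k w w' ∧ Ov 1 w' w'' then 1 else 0 := by
      intro w'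
      rw [ih (by omega) w', winE]
      by_cases h1 : Ov k w w' <;> by_cases h2 : Ov 1 w' w'' <;> simp [h1, h2]
    rw [Finset.sum_congr rfl fun w' _ => h1 w']
    by_cases h : Ov (k + 1) w w''
    · obtain ⟨u, hu1, hu2⟩ := exists_mid hk (by omega) h
      rw [if_pos h, Finset.sum_eq_single u, if_pos ⟨hu1, hu2⟩]
      · intro v _ hv
        apply if_neg
        rintro ⟨hv1, hv2⟩
        exact hv (mid_unique (by omega) hv1 hv2 hu1 hu2)
      · intro h'
        exact absurd (Finset.mem_univ _) h'
    · rw [if_neg h]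
      apply Finset.sum_eq_zero
      intro w' _
      apply if_neg
      rintro ⟨h1, h2⟩
      exact h (ov_trans hk h1 h2)

/-- sliding through a whole window -/
theorem winXY : winX A p * winY A p = winE A p ^ (p + 1) := by
  classical
  ext w w'
  rw [winE_pow (p + 1) (by omega) le_rfl, Matrix.mul_apply]
  simp only [winX, winY, ite_mul, one_mul, zero_mul]
  rw [Finset.sum_ite_eq Finset.univ, if_pos (Finset.mem_univ _)]
  by_cases h : src (w'.1 0) = tgt (w.1 (Fin.last p))
  · rw [if_pos h, if_pos]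
    refine ⟨fun i j hij => ?_, fun i hi => ?_⟩
    · exact absurd hij (by omega)
    · have hi0 : i = 0 := Fin.ext (by simp only [Fin.val_zero]; omega)
      rw [hi0, h]
  · rw [if_neg h, if_neg]
    rintro ⟨_, h2⟩
    exact h (h2 0 (by simp only [Fin.val_zero]; omega)).symm

/-- append an edge and drop the first edge -/
def wapp (w : Win A p) (e : Edge A) (he : src e = tgt (w.1 (Fin.last p))) : Win A p :=
  ⟨fun k => if hk : (k : ℕ) = p then e else w.1 ⟨k + 1, by omega⟩, by
    intro k l hkl
    have hk : ¬ (k : ℕ) = p := by omega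
    simp only [hk, dite_false]
    split_ifs with hl
    · rw [he]
      exact congrArg tgt (congrArg w.1 (Fin.ext (by simp only [Fin.val_last]; omega)))
    · exact w.2 _ _ (by simp only; omega)⟩

theorem wapp_last (w : Win A p) (e : Edge A) (he : src e = tgt (w.1 (Fin.last p))) :
    (wapp w e he).1 (Fin.last p) = e := by
  simp only [wapp, Fin.val_last, dite_true]

theorem wapp_lt (w : Win A p) (e : Edge A) (he : src e = tgt (w.1 (Fin.last p)))
    (i j : Fin (p + 1)) (hij : (i : ℕ) + 1 = j) : (wapp w e he).1 i = w.1 j := by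
  have hi : ¬ (i : ℕ) = p := by omega
  simp only [wapp, hi, dite_false]
  exact congrArg w.1 (Fin.ext (by simp only; omega))

theorem ov_wapp (w : Win A p) (e : Edge A) (he : src e = tgt (w.1 (Fin.last p))) :
    Ov 1 w (wapp w e he) := by
  refine ⟨fun i j hij => wapp_lt w e he i j hij, fun i hi => ?_⟩
  have hi' : i = Fin.last p := Fin.ext (by simp only [Fin.val_last]; omega)
  rw [hi', wapp_last, he]

/-- extending a window on the right -/
theorem winEX : winE A p * winX A p = winX A p * A := by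
  classical
  ext w i
  rw [Matrix.mul_apply, Matrix.mul_apply]
  have h1 : ∀ w' : Win A p, winE A p w w' * winX A p w' i =
      if Ov 1 w w' ∧ tgt (w'.1 (Fin.last p)) = i then 1 else 0 := by
    intro w'
    rw [winE, winX]
    by_cases h1 : Ov 1 w w' <;> by_cases h2 : tgt (w'.1 (Fin.last p)) = i <;> simp [h1, h2]
  rw [Finset.sum_congr rfl fun w' _ => h1 w', ← Finset.card_filter]
  have h2 : ∑ j, winX A p w j * A j i = ∑ e : Edge A,
      if src e = tgt (w.1 (Fin.last p)) ∧ tgt e = i then 1 else 0 := by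
    rw [sum_edge (A := A) (fun s t => if s = tgt (w.1 (Fin.last p)) ∧ t = i then 1 else 0)]
    refine Finset.sum_congr rfl fun j _ => ?_
    rw [Finset.sum_eq_single i]
    · rw [winX]
      by_cases h3 : tgt (w.1 (Fin.last p)) = j
      · rw [if_pos h3, if_pos ⟨h3.symm, rfl⟩]; ring
      · rw [if_neg h3, if_neg (fun h => h3 h.1.symm)]; ring
    · intro k _ hk
      rw [if_neg (fun h => hk h.2), mul_zero]
    · intro h; exact absurd (Finset.mem_univ _) h
  rw [h2, ← Finset.card_filter]
  symm
  apply Finset.card_bij (fun e he => wapp w e (Finset.mem_filter.mp he).2.1)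
  · intro e he
    rw [Finset.mem_filter]
    refine ⟨Finset.mem_univ _, ov_wapp w e _, ?_⟩
    rw [wapp_last]
    exact (Finset.mem_filter.mp he).2.2
  · intro e he e' he' h
    have h3 := congrFun (congrArg Subtype.val h) (Fin.last p)
    rwa [wapp_last, wapp_last] at h3
  · intro w' hw'
    obtain ⟨_, hov, ht⟩ := Finset.mem_filter.mp hw'
    have hs : src (w'.1 (Fin.last p)) = tgt (w.1 (Fin.last p)) :=
      (hov.2 (Fin.last p) (by simp only [Fin.val_last])).symm
    refine ⟨w'.1 (Fin.last p), Finset.mem_filter.mpr ⟨Finset.mem_univ _, hs, ht⟩, ?_⟩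
    apply Subtype.ext
    funext k
    rcases Nat.lt_or_ge (k : ℕ) p with hk | hk
    · rw [wapp_lt w _ hs k ⟨k + 1, by omega⟩ rfl]
      exact (hov.1 k ⟨k + 1, by omega⟩ rfl).symm
    · have hk' : k = Fin.last p := Fin.ext (by simp only [Fin.val_last]; omega)
      rw [hk', wapp_last]

theorem winX_cancel (hsur : ∀ i : Fin a, ∃ w : Win A p, tgt (w.1 (Fin.last p)) = i)
    {m : Type} {M N : Matrix (Fin a) m ℕ} (h : winX A p * M = winX A p * N) : M = N := by
  classical
  ext i j
  obtain ⟨w, hw⟩ := hsur i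
  have h1 := congrFun (congrFun h w) j
  rw [Matrix.mul_apply, Matrix.mul_apply] at h1
  simp only [winX, ite_mul, one_mul, zero_mul] at h1
  rw [Finset.sum_ite_eq Finset.univ, Finset.sum_ite_eq Finset.univ,
    if_pos (Finset.mem_univ _), if_pos (Finset.mem_univ _), hw] at h1
  exact h1

theorem winYE (hsur : ∀ i : Fin a, ∃ w : Win A p, tgt (w.1 (Fin.last p)) = i) :
    winY A p * winE A p = A * winY A p := by
  apply winX_cancel hsur
  rw [← Matrix.mul_assoc, winXY, ← Matrix.mul_assoc, ← winEX, Matrix.mul_assoc, winXY,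
    ← pow_succ, ← pow_succ']

theorem winX_pow (n : ℕ) : winE A p ^ n * winX A p = winX A p * A ^ n := by
  induction n with
  | zero => rw [pow_zero, pow_zero, Matrix.one_mul, Matrix.mul_one]
  | succ n ih =>
    rw [pow_succ, Matrix.mul_assoc, winEX, ← Matrix.mul_assoc, ih, Matrix.mul_assoc, ← pow_succ]

theorem winYX (hsur : ∀ i : Fin a, ∃ w : Win A p, tgt (w.1 (Fin.last p)) = i) :
    winY A p * winX A p = A ^ (p + 1) := by
  apply winX_cancel hsur
  rw [← Matrix.mul_assoc, winXY, winX_pow]

end Path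

section Line

variable {b : ℕ} (B : Matrix (Fin b) (Fin b) ℕ)

/-- the line graph -/
def lineF : Matrix (Edge B) (Edge B) ℕ := fun e e' => if tgt e = src e' then 1 else 0

/-- terminal vertices of edges -/
def lineT : Matrix (Edge B) (Fin b) ℕ := fun e j => if tgt e = j then 1 else 0

/-- initial vertices of edges -/
def lineS : Matrix (Fin b) (Edge B) ℕ := fun j e => if src e = j then 1 else 0

theorem lineTS : lineT B * lineS B = lineF B := by
  ext e e'
  rw [Matrix.mul_apply]
  simp only [lineT, lineS, lineF, ite_mul, one_mul, zero_mul]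
  rw [Finset.sum_ite_eq Finset.univ, if_pos (Finset.mem_univ _)]
  by_cases h : tgt e = src e'
  · rw [if_pos h, if_pos h.symm]
  · rw [if_neg h, if_neg (Ne.symm h)]

theorem lineST : lineS B * lineT B = B := by
  ext i j
  rw [Matrix.mul_apply]
  have h1 : ∀ e : Edge B, lineS B i e * lineT B e j =
      (fun s t => if s = i ∧ t = j then 1 else 0) (src e) (tgt e) := by
    intro e
    simp only [lineS, lineT]
    by_cases h1 : src e = i <;> by_cases h2 : tgt e = j <;> simp [h1, h2]
  rw [Finset.sum_congr rfl fun e _ => h1 e,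
    sum_edge (A := B) (fun s t => if s = i ∧ t = j then 1 else 0), Finset.sum_eq_single i,
    Finset.sum_eq_single j]
  · simp
  · intro k _ hk
    simp [hk]
  · intro h; exact absurd (Finset.mem_univ _) h
  · intro k _ hk
    apply Finset.sum_eq_zero
    intro l _
    simp [hk]
  · intro h; exact absurd (Finset.mem_univ _) h

theorem lineF_pow (n : ℕ) : lineF B ^ (n + 1) = lineT B * B ^ n * lineS B := by
  induction n with
  | zero => rw [pow_zero, Matrix.mul_one, zero_add, pow_one, lineTS]
  | succ n ih =>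
    rw [pow_succ (lineF B), ih, ← lineTS]
    simp only [Matrix.mul_assoc]
    rw [← Matrix.mul_assoc (lineS B) (lineT B) (lineS B), lineST, pow_succ B, Matrix.mul_assoc]

theorem lineF_apply (n : ℕ) (e e' : Edge B) :
    (lineF B ^ (n + 1)) e e' = (B ^ n) (tgt e) (src e') := by
  rw [lineF_pow, Matrix.mul_assoc, Matrix.mul_apply]
  simp only [lineT, ite_mul, one_mul, zero_mul]
  rw [Finset.sum_ite_eq Finset.univ, if_pos (Finset.mem_univ _), Matrix.mul_apply]
  simp only [lineS, mul_ite, mul_one, mul_zero]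
  rw [Finset.sum_ite_eq Finset.univ, if_pos (Finset.mem_univ _)]

end Line

end Pool.Agent.FT
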