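import Pool.Agent.FT.Count
import Pool.Agent.SSE.PF

/-! Perron data of a factor code between mixing shifts of equal entropy. -/

namespace Pool.Agent.FT

open Filter Topology Matrix

theorem cast_pow_entry {n : ℕ} (A : Matrix (Fin n) (Fin n) ℕ) (k : ℕ) (i j : Fin n) :
    (((A ^ k) i j : ℕ) : ℝ) = ((A.map (Nat.cast : ℕ → ℝ)) ^ k) i j := by
  have h : (A ^ k).map (Nat.cast : ℕ → ℝ) = (A.map (Nat.cast : ℕ → ℝ)) ^ k := by
    have := map_pow ((Nat.castRingHom ℝ).mapMatrix (m := Fin n)) A k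
    simpa [RingHom.mapMatrix_apply] using this
  rw [← h]
  rfl

theorem pow_mulVec_eig {n : ℕ} {M : Matrix (Fin n) (Fin n) ℝ} {r : Fin n → ℝ} {lam : ℝ}
    (h : M *ᵥ r = lam • r) (k : ℕ) : (M ^ k) *ᵥ r = lam ^ k • r := by
  induction k with
  | zero => simp
  | succ k ih =>
    rw [pow_succ, ← Matrix.mulVec_mulVec, h, Matrix.mulVec_smul, ih, smul_smul, pow_succ]
    congr 1
    ring

theorem perron_bounds {n : ℕ} {A : Matrix (Fin n) (Fin n) ℕ} (hA : IsPrimitive A) :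
    ∃ (lam C : ℝ) (r : Fin n → ℝ), 0 < lam ∧ 0 < C ∧ (∀ i, 0 < r i) ∧
      (A.map (Nat.cast : ℕ → ℝ)) *ᵥ r = lam • r ∧
      ∀ k : ℕ, lam ^ k ≤ ∑ i, ∑ j, (((A ^ k) i j : ℕ) : ℝ) ∧
        ∑ i, ∑ j, (((A ^ k) i j : ℕ) : ℝ) ≤ C * lam ^ k := by
  obtain ⟨hn, d, hd, hpos⟩ := hA
  haveI : Nonempty (Fin n) := ⟨⟨0, hn⟩⟩
  obtain ⟨lam, r, hlam, hr, heig⟩ := Pool.Agent.SSE.pf_right
    (A := A.map (Nat.cast : ℕ → ℝ)) (fun i j => by simp) hd
    (fun i j => by rw [← cast_pow_entry]; exact_mod_cast hpos i j)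
  have hR : 0 < ∑ i, r i := Finset.sum_pos (fun i _ => hr i) Finset.univ_nonempty
  have hS : 0 < ∑ i, (r i)⁻¹ :=
    Finset.sum_pos (fun i _ => inv_pos.2 (hr i)) Finset.univ_nonempty
  refine ⟨lam, (∑ i, r i) * ∑ i, (r i)⁻¹, r, hlam, mul_pos hR hS, hr, heig, ?_⟩
  intro k
  have hnn : ∀ i j, (0 : ℝ) ≤ ((A ^ k) i j : ℕ) := fun i j => Nat.cast_nonneg _
  have key : ∑ i, ∑ j, (((A ^ k) i j : ℕ) : ℝ) * r j = lam ^ k * ∑ i, r i := by
    have h := pow_mulVec_eig heig k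
    rw [Finset.mul_sum]
    apply Finset.sum_congr rfl
    intro i _
    have := congrFun h i
    simp only [Matrix.mulVec, dotProduct, Pi.smul_apply, smul_eq_mul] at this
    rw [← this]
    apply Finset.sum_congr rfl
    intro j _
    rw [cast_pow_entry]
  constructor
  · have h1 : ∑ i, ∑ j, (((A ^ k) i j : ℕ) : ℝ) * r j ≤
        (∑ i, ∑ j, (((A ^ k) i j : ℕ) : ℝ)) * ∑ i, r i := by
      rw [Finset.sum_mul]
      apply Finset.sum_le_sum
      intro i _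
      rw [Finset.sum_mul]
      apply Finset.sum_le_sum
      intro j _
      apply mul_le_mul_of_nonneg_left _ (hnn i j)
      exact Finset.single_le_sum (fun l _ => (hr l).le) (Finset.mem_univ j)
    rw [key] at h1
    exact le_of_mul_le_mul_right h1 hR
  · have h1 : (∑ i, ∑ j, (((A ^ k) i j : ℕ) : ℝ)) ≤
        (∑ i, ∑ j, (((A ^ k) i j : ℕ) : ℝ) * r j) * ∑ l, (r l)⁻¹ := by
      rw [Finset.sum_mul]
      apply Finset.sum_le_sum
      intro i _
      rw [Finset.sum_mul]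
      apply Finset.sum_le_sum
      intro j _
      have e : (r j)⁻¹ ≤ ∑ l, (r l)⁻¹ :=
        Finset.single_le_sum (fun l _ => (inv_pos.2 (hr l)).le) (Finset.mem_univ j)
      calc (((A ^ k) i j : ℕ) : ℝ) = (((A ^ k) i j : ℕ) : ℝ) * r j * (r j)⁻¹ := by
            rw [mul_assoc, mul_inv_cancel₀ (hr j).ne', mul_one]
        _ ≤ _ := mul_le_mul_of_nonneg_left e (mul_nonneg (hnn i j) (hr j).le)
    rw [key] at h1
    linarith [h1]

theorem hasEntropy_log {n : ℕ} {A : Matrix (Fin n) (Fin n) ℕ} (hA : IsPrimitive A) {lam C : ℝ}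
    (hlam : 0 < lam) (hC : 0 < C)
    (hb : ∀ k : ℕ, lam ^ k ≤ ∑ i, ∑ j, (((A ^ k) i j : ℕ) : ℝ) ∧
        ∑ i, ∑ j, (((A ^ k) i j : ℕ) : ℝ) ≤ C * lam ^ k) :
    HasEntropy (edgeShift A) (Real.log lam) := by
  unfold HasEntropy
  have hcount : ∀ k : ℕ, 0 < k → ((blockCount (edgeShift A) k : ℕ) : ℝ) =
      ∑ i, ∑ j, (((A ^ k) i j : ℕ) : ℝ) := by
    intro k hk
    rw [blockCount_edgeShift hA hk]
    push_cast
    rfl
  have hlim : Tendsto (fun k : ℕ => Real.log C / k + Real.log lam) atTop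
      (𝓝 (0 + Real.log lam)) := by
    apply Tendsto.add _ tendsto_const_nhds
    exact tendsto_const_div_atTop_nhds_zero_nat _
  rw [zero_add] at hlim
  refine tendsto_of_tendsto_of_tendsto_of_le_of_le' tendsto_const_nhds hlim ?_ ?_
  · filter_upwards [eventually_gt_atTop 0] with k hk
    have hk' : (0 : ℝ) < k := by exact_mod_cast hk
    rw [le_div_iff₀ hk', hcount k hk, mul_comm, ← Real.log_pow]
    exact Real.log_le_log (pow_pos hlam k) (hb k).1
  · filter_upwards [eventually_gt_atTop 0] with k hk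
    have hk' : (0 : ℝ) < k := by exact_mod_cast hk
    have h0 : 0 < ∑ i, ∑ j, (((A ^ k) i j : ℕ) : ℝ) := lt_of_lt_of_le (pow_pos hlam k) (hb k).1
    rw [hcount k hk, div_le_iff₀ hk']
    have h1 := Real.log_le_log h0 (hb k).2
    rw [Real.log_mul hC.ne' (pow_pos hlam k).ne', Real.log_pow] at h1
    have e : (Real.log C / k + Real.log lam) * k = Real.log C + k * Real.log lam := by
      field_simp
    rw [e]
    exact h1

/-- Perron data: a positive right eigenvector of `A`, and the growth of the powers of `B`. -/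
theorem perron_data {a b : ℕ} {A : Matrix (Fin a) (Fin a) ℕ} {B : Matrix (Fin b) (Fin b) ℕ}
    (hA : IsPrimitive A) (hB : IsPrimitive B)
    (hent : ∃ h, HasEntropy (edgeShift A) h ∧ HasEntropy (edgeShift B) h) :
    ∃ (lam c : ℝ) (r : Fin a → ℝ), 0 < lam ∧ 0 < c ∧ (∀ i, 0 < r i) ∧
      (A.map (Nat.cast : ℕ → ℝ)) *ᵥ r = lam • r ∧
      ∀ k : ℕ, c * lam ^ k ≤ ∑ i, ∑ j, (((B ^ k) i j : ℕ) : ℝ) := by
  obtain ⟨lam, C, r, hlam, hC, hr, heig, hbA⟩ := perron_bounds hA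
  obtain ⟨mu, C', s, hmu, hC', hs, heig', hbB⟩ := perron_bounds hB
  obtain ⟨h, h1, h2⟩ := hent
  have e1 : h = Real.log lam :=
    tendsto_nhds_unique h1 (hasEntropy_log hA hlam hC hbA)
  have e2 : h = Real.log mu :=
    tendsto_nhds_unique h2 (hasEntropy_log hB hmu hC' hbB)
  have e3 : lam = mu := Real.log_injOn_pos (Set.mem_Ioi.2 hlam) (Set.mem_Ioi.2 hmu)
    (by rw [← e1, ← e2])
  refine ⟨lam, 1, r, hlam, one_pos, hr, heig, ?_⟩
  intro k
  rw [one_mul, e3]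
  exact (hbB k).1

end Pool.Agent.FT
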