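import Pool.Agent.FT.CHL
import Pool.Agent.FT.Count
import Pool.Agent.FT.Perron
import Pool.Agent.FT.PathGraph
import Pool.Agent.FTO.Mod

/-! From a factor code to a graph map without diamonds. -/

namespace Pool.Agent.FT

open Matrix Pool.FTO

section Win

variable {a : ℕ} {A : Matrix (Fin a) (Fin a) ℕ} {p : ℕ}

/-- the windows of a point -/
def winOf (p : ℕ) (x : ℤ → Edge A) (hx : x ∈ edgeShift A) (i : ℤ) : Win A p :=
  ⟨fun k => x (i + ((k : ℕ) : ℤ)), fun k l hkl => by
    show tgt (x (i + ((k : ℕ) : ℤ))) = src (x (i + ((l : ℕ) : ℤ)))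
    rw [hx (i + ((k : ℕ) : ℤ))]
    congr 2
    omega⟩

theorem ov_winOf (x : ℤ → Edge A) (hx : x ∈ edgeShift A) (i : ℤ) :
    Ov 1 (winOf p x hx i) (winOf p x hx (i + 1)) := by
  refine ⟨fun k l hkl => ?_, fun k hk => ?_⟩
  · show x (i + 1 + ((k : ℕ) : ℤ)) = x (i + ((l : ℕ) : ℤ))
    congr 1
    omega
  · show tgt (x (i + (((Fin.last p : Fin (p + 1)) : ℕ) : ℤ))) = src (x (i + 1 + ((k : ℕ) : ℤ)))
    have h := hx (i + (((Fin.last p : Fin (p + 1)) : ℕ) : ℤ))
    rw [h]
    congr 2
    simp only [Fin.val_last]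
    omega

theorem exists_in (hA : IsPrimitive A) (j : Fin a) : ∃ e : Edge A, tgt e = j := by
  obtain ⟨ha, k, hk, hpos⟩ := hA
  obtain ⟨k, rfl⟩ := Nat.exists_eq_succ_of_ne_zero hk.ne'
  have h1 := hpos ⟨0, ha⟩ j
  rw [Nat.succ_eq_add_one, pow_succ, Matrix.mul_apply] at h1
  obtain ⟨i, _, hi⟩ := Finset.exists_ne_zero_of_sum_ne_zero h1.ne'
  exact ⟨⟨(i, j), ⟨0, Nat.pos_of_ne_zero (right_ne_zero_of_mul hi)⟩⟩, rfl⟩

theorem exists_out (hA : IsPrimitive A) (i : Fin a) : ∃ e : Edge A, src e = i := by
  obtain ⟨ha, k, hk, hpos⟩ := hA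
  obtain ⟨k, rfl⟩ := Nat.exists_eq_succ_of_ne_zero hk.ne'
  have h1 := hpos i ⟨0, ha⟩
  rw [Nat.succ_eq_add_one, pow_succ', Matrix.mul_apply] at h1
  obtain ⟨j, _, hj⟩ := Finset.exists_ne_zero_of_sum_ne_zero h1.ne'
  exact ⟨⟨(i, j), ⟨0, Nat.pos_of_ne_zero (left_ne_zero_of_mul hj)⟩⟩, rfl⟩

/-- every vertex ends a window -/
theorem win_sur (hA : IsPrimitive A) (i : Fin a) : ∃ w : Win A p, tgt (w.1 (Fin.last p)) = i := by
  obtain ⟨e, he⟩ := exists_in hA i
  obtain ⟨x, hx, hxe⟩ := exists_extend hA 1 (fun _ => e) (fun i h => by omega)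
  refine ⟨winOf p x hx (-(p : ℤ)), ?_⟩
  show tgt (x (-(p : ℤ) + (((Fin.last p : Fin (p + 1)) : ℕ) : ℤ))) = i
  rw [Fin.val_last, neg_add_cancel]
  have h := hxe 0
  simp only [Fin.val_zero, Nat.cast_zero] at h
  rw [h, he]

/-- two consecutive windows occur in a point -/
theorem exists_point (hA : IsPrimitive A) {w w' : Win A p} (h : Ov 1 w w') :
    ∃ (x : ℤ → Edge A) (hx : x ∈ edgeShift A), winOf p x hx 0 = w ∧ winOf p x hx 1 = w' := by
  obtain ⟨x, hx, hz⟩ := exists_extend hA (p + 2)
    (fun k => if hk : (k : ℕ) < p + 1 then w.1 ⟨k, hk⟩ else w'.1 (Fin.last p)) (by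
      intro i hi
      have h1 : i < p + 1 := by omega
      simp only [h1, dite_true]
      split_ifs with h2
      · exact w.2 _ _ rfl
      · rw [← h.2 (Fin.last p) (by simp only [Fin.val_last])]
        exact congrArg tgt (congrArg w.1 (Fin.ext (by simp only [Fin.val_last]; omega))))
  refine ⟨x, hx, ?_, ?_⟩
  · apply Subtype.ext
    funext k
    show x (0 + ((k : ℕ) : ℤ)) = w.1 k
    have h1 := hz ⟨k, by omega⟩
    simp only [k.2, dite_true] at h1
    rw [zero_add, h1]
  · apply Subtype.ext
    funext k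
    show x (1 + ((k : ℕ) : ℤ)) = w'.1 k
    have h1 := hz ⟨k + 1, by omega⟩
    simp only at h1
    rw [show (1 : ℤ) + ((k : ℕ) : ℤ) = ((k + 1 : ℕ) : ℤ) by push_cast; ring, h1]
    split_ifs with h2
    · exact (h.1 k ⟨k + 1, h2⟩ rfl).symm
    · exact congrArg w'.1 (Fin.ext (by simp only [Fin.val_last]; omega))

theorem winE_pow_apply (k : ℕ) (w w' : Win A p) :
    (winE A p ^ (k + (p + 1))) w w' = (A ^ k) (tgt (w.1 (Fin.last p))) (src (w'.1 0)) := by
  classical
  rw [pow_add, ← winXY, ← Matrix.mul_assoc, winX_pow, Matrix.mul_assoc, Matrix.mul_apply]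
  simp only [winX, ite_mul, one_mul, zero_mul]
  rw [Finset.sum_ite_eq Finset.univ, if_pos (Finset.mem_univ _), Matrix.mul_apply]
  simp only [winY, mul_ite, mul_one, mul_zero]
  rw [Finset.sum_ite_eq Finset.univ, if_pos (Finset.mem_univ _)]

end Win

theorem legal_of_pow {W : Type} [Fintype W] [DecidableEq W] (F : Matrix W W ℕ) (n : ℕ) (j k : W)
    (h : (F ^ n) j k ≠ 0) : ∃ l, Legal F j l ∧ l.getLastD j = k := by
  induction n generalizing j with
  | zero =>
    rw [pow_zero, Matrix.one_apply] at h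
    have hjk : j = k := by
      by_contra hn
      exact h (if_neg hn)
    exact ⟨[], trivial, hjk⟩
  | succ n ih =>
    rw [pow_succ', Matrix.mul_apply] at h
    obtain ⟨m, _, hm⟩ := Finset.exists_ne_zero_of_sum_ne_zero h
    obtain ⟨l, hl, hl2⟩ := ih m (right_ne_zero_of_mul hm)
    exact ⟨m :: l, ⟨left_ne_zero_of_mul hm, hl⟩, by rw [List.getLastD_cons]; exact hl2⟩

section Lift

variable {a b : ℕ} {A : Matrix (Fin a) (Fin a) ℕ} {B : Matrix (Fin b) (Fin b) ℕ} {p : ℕ}

theorem mat_winOf (π : Win A p → Edge B) (x : ℤ → Edge A) (hx : x ∈ edgeShift A)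
    (l : List (Edge B)) (e : Edge B) (i : ℤ)
    (h0 : π (winOf p x hx i) = e)
    (h : ∀ (k : ℕ) (hk : k < l.length), π (winOf p x hx (i + 1 + k)) = l[k]) :
    mat (winE A p) π e l (winOf p x hx i) (winOf p x hx (i + l.length)) ≠ 0 := by
  classical
  induction l generalizing e i with
  | nil =>
    rw [mat_nil, fibP, List.length_nil, Nat.cast_zero, add_zero, Matrix.diagonal_apply_eq,
      if_pos h0]
    exact one_ne_zero
  | cons k l ih =>
    rw [mat_cons_apply, if_pos h0]
    have h1 := ih k (i + 1) (by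
      have h7 := h 0 (by simp)
      rw [Nat.cast_zero, add_zero] at h7
      exact h7) (fun m hm => by
      have h2 := h (m + 1) (by simpa using hm)
      rw [List.getElem_cons_succ] at h2
      rw [← h2]
      congr 2
      push_cast
      ring)
    have h3 : i + 1 + (l.length : ℤ) = i + ((k :: l).length : ℤ) := by
      rw [List.length_cons]; push_cast; ring
    rw [h3] at h1
    have h4 : winE A p (winOf p x hx i) (winOf p x hx (i + 1)) = 1 :=
      if_pos (ov_winOf x hx i)
    intro h5
    have h6 := (Finset.sum_eq_zero_iff.mp h5) (winOf p x hx (i + 1)) (Finset.mem_univ _)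
    rw [h4, one_mul] at h6
    exact h1 h6

theorem legal_path {e : Edge B} {l : List (Edge B)} (hl : Legal (lineF B) e l) :
    ∀ (i : ℕ) (h : i + 1 < (e :: l).length), tgt ((e :: l)[i]) = src ((e :: l)[i + 1]) := by
  induction l generalizing e with
  | nil => intro i h; simp at h
  | cons k l ih =>
    intro i h
    cases i with
    | zero =>
      simp only [List.getElem_cons_zero, List.getElem_cons_succ]
      have h1 := hl.1
      by_contra hn
      exact h1 (if_neg hn)
    | succ i => exact ih hl.2 i (by simpa using h)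

end Lift

/-- a factor code gives a graph map without diamonds -/
theorem exists_gcover {a b : ℕ} {A : Matrix (Fin a) (Fin a) ℕ}
    {B : Matrix (Fin b) (Fin b) ℕ} (hA : IsPrimitive A) (hB : IsPrimitive B)
    (hent : ∃ h, HasEntropy (edgeShift A) h ∧ HasEntropy (edgeShift B) h)
    (φ : edgeShift A → edgeShift B) (hφ : IsFactorCode φ) :
    ∃ (p : ℕ) (π : Win A p → Edge B), GCover (winE A p) π (lineF B) := by
  classical
  obtain ⟨p, Φ, hp, himg, honto⟩ := exists_block_map φ hφ hB
  obtain ⟨p, rfl⟩ := Nat.exists_eq_succ_of_ne_zero hp.ne'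
  let π : Win A p → Edge B := fun w => Φ w.1
  have F01 : ∀ j k, lineF B j k ≤ 1 := fun j k => by
    rw [lineF]; split_ifs <;> omega
  have hom : ∀ u v, winE A p u v ≠ 0 → lineF B (π u) (π v) ≠ 0 := by
    intro u v huv
    have hov : Ov 1 u v := by
      by_contra hn
      exact huv (if_neg hn)
    obtain ⟨x, hx, h0, h1⟩ := exists_point hA hov
    have h2 := himg x hx 0
    have h3 : tgt (π u) = src (π v) := by
      rw [← h0, ← h1]
      exact h2
    rw [lineF, if_pos h3]
    exact one_ne_zero
  have surj : ∀ j l, Legal (lineF B) j l → mat (winE A p) π j l ≠ 0 := by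
    intro e l hl
    obtain ⟨y, hy, hyl⟩ := exists_extend hB (e :: l).length (fun k => (e :: l)[k])
      (fun i h => legal_path hl i h)
    obtain ⟨x, hx, hxy⟩ := honto y hy
    have h1 : ∀ i : ℤ, π (winOf p x hx i) = y i := fun i => (hxy i).symm
    have h2 := mat_winOf π x hx l e 0 (by
      rw [h1]
      have h3 := hyl ⟨0, by simp⟩
      simpa using h3) (fun k hk => by
      rw [h1]
      have h3 := hyl ⟨k + 1, by simpa using hk⟩
      simp only [Fin.getElem_fin, List.getElem_cons_succ] at h3
      rw [← h3]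
      congr 1
      push_cast
      ring)
    intro h3
    rw [h3] at h2
    exact h2 rfl
  obtain ⟨lam, c, r, hlam, hc, hr, hAr, hcnt⟩ := perron_data hA hB hent
  refine ⟨p, π, F01, hom, surj, ?_, ?_⟩
  · intro j l u v
    have : Nonempty (Win A p) := ⟨u⟩
    refine no_diamond (winE A p) π (lineF B) F01 surj (fun w => r (tgt (w.1 (Fin.last p)))) (fun w => hr _)
      lam hlam ?_ ?_ (min (c / lam) 1) (lt_min (div_pos hc hlam) one_pos) ?_ j l u v
    · intro u
      have h1 : ∀ v : Win A p, r (tgt (v.1 (Fin.last p))) = ∑ i, (winX A p v i : ℝ) * r i := by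
        intro v
        simp only [winX, Nat.cast_ite, Nat.cast_one, Nat.cast_zero, ite_mul, one_mul, zero_mul]
        rw [Finset.sum_ite_eq Finset.univ, if_pos (Finset.mem_univ _)]
      have h2 : ∀ i, ∑ v, (winE A p u v : ℝ) * (winX A p v i : ℝ) =
          (A (tgt (u.1 (Fin.last p))) i : ℝ) := by
        intro i
        have h3 := congrFun (congrFun (winEX (A := A) (p := p)) u) i
        rw [Matrix.mul_apply, Matrix.mul_apply] at h3
        simp only [winX, ite_mul, one_mul, zero_mul] at h3
        rw [Finset.sum_ite_eq Finset.univ, if_pos (Finset.mem_univ _)] at h3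
        rw [← h3]
        push_cast
        simp only [winX, Nat.cast_ite, Nat.cast_one, Nat.cast_zero]
      have h4 : ∑ v, (winE A p u v : ℝ) * r (tgt (v.1 (Fin.last p))) =
          ∑ i, (∑ v, (winE A p u v : ℝ) * (winX A p v i : ℝ)) * r i := by
        simp_rw [h1, Finset.mul_sum, Finset.sum_mul]
        rw [Finset.sum_comm]
        exact Finset.sum_congr rfl fun i _ => Finset.sum_congr rfl fun v _ => by ring
      rw [h4]
      simp_rw [h2]
      have h5 := congrFun hAr (tgt (u.1 (Fin.last p)))
      simp only [Matrix.mulVec, dotProduct, Matrix.map_apply, Pi.smul_apply, smul_eq_mul] at h5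
      exact h5
    · obtain ⟨_, k, _, hk⟩ := hA
      exact ⟨k + (p + 1), fun x y => by rw [winE_pow_apply]; exact hk _ _⟩
    · intro n
      cases n with
      | zero =>
        rw [pow_zero, mul_one, pow_zero]
        have h1 : ∑ j : Edge B, ∑ k : Edge B, (((1 : Matrix (Edge B) (Edge B) ℕ) j k : ℕ) : ℝ) =
            Fintype.card (Edge B) := by
          simp [Matrix.one_apply]
        rw [h1]
        have h2 : 0 < Fintype.card (Edge B) := Fintype.card_pos_iff.mpr ⟨π u⟩
        have h3 : (1 : ℝ) ≤ Fintype.card (Edge B) := by exact_mod_cast h2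
        exact (min_le_right _ _).trans h3
      | succ n =>
        choose ei hei using exists_in hB
        choose eo heo using exists_out hB
        have h1 : ∑ i, ∑ j, (((B ^ n) i j : ℕ) : ℝ) ≤
            ∑ e : Edge B, ∑ e' : Edge B, (((lineF B ^ (n + 1)) e e' : ℕ) : ℝ) := by
          simp_rw [lineF_apply]
          have hinj : Function.Injective ei := fun i j h => by rw [← hei i, ← hei j, h]
          have hinj' : Function.Injective eo := fun i j h => by rw [← heo i, ← heo j, h]
          calc ∑ i, ∑ j, (((B ^ n) i j : ℕ) : ℝ)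
              ≤ ∑ i, ∑ e' : Edge B, (((B ^ n) i (src e') : ℕ) : ℝ) := by
                refine Finset.sum_le_sum fun i _ => ?_
                have h2 : ∑ j, (((B ^ n) i j : ℕ) : ℝ) =
                    ∑ e' ∈ Finset.univ.map ⟨eo, hinj'⟩, (((B ^ n) i (src e') : ℕ) : ℝ) := by
                  rw [Finset.sum_map]
                  exact Finset.sum_congr rfl fun j _ => by
                    rw [Function.Embedding.coeFn_mk, heo]
                rw [h2]
                exact Finset.sum_le_sum_of_subset_of_nonneg (Finset.subset_univ _)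
                  fun _ _ _ => Nat.cast_nonneg _
            _ ≤ ∑ e : Edge B, ∑ e' : Edge B, (((B ^ n) (tgt e) (src e') : ℕ) : ℝ) := by
                have h2 : ∑ i, ∑ e' : Edge B, (((B ^ n) i (src e') : ℕ) : ℝ) =
                    ∑ e ∈ Finset.univ.map ⟨ei, hinj⟩, ∑ e' : Edge B,
                      (((B ^ n) (tgt e) (src e') : ℕ) : ℝ) := by
                  rw [Finset.sum_map]
                  exact Finset.sum_congr rfl fun j _ => by
                    rw [Function.Embedding.coeFn_mk, hei]
                rw [h2]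
                exact Finset.sum_le_sum_of_subset_of_nonneg (Finset.subset_univ _)
                  fun _ _ _ => Finset.sum_nonneg fun _ _ => Nat.cast_nonneg _
        have h3 := hcnt n
        have h4 : min (c / lam) 1 * lam ^ (n + 1) ≤ c * lam ^ n := by
          have h5 : min (c / lam) 1 * lam ^ (n + 1) ≤ c / lam * lam ^ (n + 1) :=
            mul_le_mul_of_nonneg_right (min_le_left _ _) (pow_nonneg hlam.le _)
          have h6 : c / lam * lam ^ (n + 1) = c * lam ^ n := by
            rw [pow_succ]; field_simp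
          linarith
        linarith
  · intro e e'
    obtain ⟨_, k, _, hk⟩ := hB
    apply legal_of_pow (lineF B) (k + 1) e e'
    rw [lineF_apply]
    exact (hk _ _).ne'

end Pool.Agent.FT
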