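import Pool.Agent.FT.Pos

/-! The explicit pair satisfies the dimension condition (project FT, helper88). -/

namespace Pool.Agent.FT

open Matrix

/-- the invariant hyperplane: kernel of the right eigenvector for the eigenvalue one -/
def exW : Submodule ℚ (Fin 5 → ℚ) where
  carrier := {v | ra1 v = 0}
  zero_mem' := by simp [ra1]
  add_mem' := by
    intro v w hv hw
    simp only [Set.mem_setOf_eq, ra1, Pi.add_apply] at *
    linarith
  smul_mem' := by
    intro c v hv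
    simp only [Set.mem_setOf_eq, ra1, Pi.smul_apply, smul_eq_mul] at *
    linear_combination c * hv

theorem mem_exW {v : Fin 5 → ℚ} : v ∈ exW ↔ ra1 v = 0 := Iff.rfl

/-- the map onto the dimension group of `exB` -/
def exPsi : (Fin 5 → ℚ) →ₗ[ℚ] (Fin 3 → ℚ) where
  toFun v := ![-7 * v 2 + v 3, v 2, v 0 + 7 * v 2 - v 3]
  map_add' := by
    intro v w
    ext i
    fin_cases i <;> simp <;> ring
  map_smul' := by
    intro c v
    ext i
    fin_cases i <;> simp <;> ring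

theorem exPsi_apply (v : Fin 5 → ℚ) : exPsi v = ![-7 * v 2 + v 3, v 2, v 0 + 7 * v 2 - v 3] := rfl

theorem exW_inv : ∀ w ∈ exW, w ᵥ* toQ exA ∈ exW := by
  intro w hw
  rw [mem_exW] at *
  rw [vecMul_exA]
  simp [ra1] at *
  linarith

theorem exPsi_int : ∀ w ∈ exW, exPsi (w ᵥ* toQ exA) = exPsi w ᵥ* toQ exB := by
  intro w hw
  rw [mem_exW] at hw
  rw [vecMul_exA, vecMul_exB]
  simp only [exPsi_apply]
  simp only [ra1] at hw
  ext i
  fin_cases i <;> simp <;> linarith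

theorem exPsi_pow (k : ℕ) : ∀ w ∈ exW, w ᵥ* toQ exA ^ k ∈ exW ∧
    exPsi (w ᵥ* toQ exA ^ k) = exPsi w ᵥ* toQ exB ^ k := by
  induction k with
  | zero => intro w hw; simpa using hw
  | succ k ih =>
    intro w hw
    obtain ⟨h1, h2⟩ := ih w hw
    rw [pow_succ, ← Matrix.vecMul_vecMul]
    refine ⟨exW_inv _ h1, ?_⟩
    rw [exPsi_int _ h1, h2, Matrix.vecMul_vecMul _ (toQ exB ^ k), ← pow_succ]

theorem exPsi_section (y : Fin 3 → ℚ) :
    (![y 0 + y 2, 3 * y 0 + 3 * y 2, y 1, y 0 + 7 * y 1, -y 0] : Fin 5 → ℚ) ∈ exW ∧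
      exPsi ![y 0 + y 2, 3 * y 0 + 3 * y 2, y 1, y 0 + 7 * y 1, -y 0] = y := by
  constructor
  · rw [mem_exW]
    simp [ra1]
    ring
  · rw [exPsi_apply]
    ext i
    fin_cases i <;> simp

theorem rb5_exPsi {w : Fin 5 → ℚ} (hw : w ∈ exW) : rb5 (exPsi w) = ra5 w / 4 := by
  rw [mem_exW] at hw
  rw [exPsi_apply]
  simp [rb5, ra5, ra1] at *
  linarith

theorem exDim (y : Fin 3 → ℚ) :
    y ∈ dimGroup exB ↔ ∃ w ∈ exW, w ∈ dimGroup exA ∧ exPsi w = y := by
  constructor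
  · rintro ⟨-, k, z, hz⟩
    obtain ⟨h1, h2⟩ := exPsi_section fun j => (z j : ℚ)
    obtain ⟨w, hw, hw2⟩ := sub_surj exA (fun v _ => evRange_exA v) exW_inv k h1
    refine ⟨w, hw, ⟨evRange_exA w, k,
      ![z 0 + z 2, 3 * z 0 + 3 * z 2, z 1, z 0 + 7 * z 1, -z 0], fun j => ?_⟩, ?_⟩
    · rw [hw2]
      fin_cases j <;> simp
    · refine evRange_eq exB (evRange_exB _) (evRange_exB _) k ?_
      rw [← (exPsi_pow k w hw).2, hw2, h2]
      exact (funext hz).symm
  · rintro ⟨w, hw, ⟨-, k, z, hz⟩, rfl⟩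
    refine ⟨evRange_exB _, k, ![-7 * z 2 + z 3, z 2, z 0 + 7 * z 2 - z 3], fun j => ?_⟩
    rw [← (exPsi_pow k w hw).2, exPsi_apply]
    simp only [hz]
    fin_cases j <;> simp

theorem dim_example : DimCondition exA exB := by
  refine ⟨exW, exPsi, exW_inv, fun v _ => evRange_exA v, exPsi_int, exDim, fun y => ?_⟩
  constructor
  · intro hy
    obtain ⟨h1, h2⟩ := (mem_posCone_exB y).1 hy
    obtain ⟨w, hw, hwA, hwy⟩ := (exDim y).1 h1
    rcases h2 with rfl | h2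
    · refine ⟨0, exW.zero_mem, (mem_posCone_exA 0).2 ⟨?_, Or.inl rfl⟩, map_zero _⟩
      exact int_mem_A 0 (by intro j; simp)
    · refine ⟨w, hw, (mem_posCone_exA w).2 ⟨hwA, Or.inr ?_⟩, hwy⟩
      rw [← hwy, rb5_exPsi hw] at h2
      linarith
  · rintro ⟨w, hw, hwp, rfl⟩
    obtain ⟨h1, h2⟩ := (mem_posCone_exA w).1 hwp
    refine (mem_posCone_exB _).2 ⟨(exDim _).2 ⟨w, hw, h1, rfl⟩, ?_⟩
    rcases h2 with rfl | h2
    · exact Or.inl (map_zero _)
    · refine Or.inr ?_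
      rw [rb5_exPsi hw]
      linarith

theorem prim_exA : IsPrimitive exA := by
  refine ⟨by norm_num, 3, by norm_num, ?_⟩
  decide

theorem prim_exB : IsPrimitive exB := by
  refine ⟨by norm_num, 2, by norm_num, ?_⟩
  decide

end Pool.Agent.FT
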