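import Pool.Agent.FT.Pos

/-! The transposes of the explicit pair satisfy the dimension condition, too
(project FT, helper88). -/

namespace Pool.Agent.FT

open Matrix

theorem vecMul_exAT (v : Fin 5 → ℚ) : v ᵥ* toQ exAᵀ =
    ![2 * v 1 + v 2 + v 3 + v 4, v 0 + 3 * v 3 + v 4, 3 * v 0 + v 3 + v 4, v 0 + 2 * v 1 + 2 * v 4,
      v 0 + v 1 + 3 * v 3] := by
  ext i
  fin_cases i <;>
    simp [Matrix.vecMul, dotProduct, toQ, exA, Fin.sum_univ_five, Matrix.transpose_apply] <;> ring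

theorem vecMul_exBT (v : Fin 3 → ℚ) : v ᵥ* toQ exBᵀ =
    ![v 1 + 3 * v 2, v 0 + 9 * v 2, 3 * v 0 + v 1] := by
  ext i
  fin_cases i <;>
    simp [Matrix.vecMul, dotProduct, toQ, exB, Fin.sum_univ_three, Matrix.transpose_apply] <;> ring

/-- eigenvectors of the transpose -/
def ta5 : Fin 5 → ℚ := ![1, 1, 1, 1, 1]
def tam2 : Fin 5 → ℚ := ![-6, 1, 8, 1, 1]
def tam3 : Fin 5 → ℚ := ![-1, 1, 1, -1, 1]
def tam1 : Fin 5 → ℚ := ![-5, -5, 7, 1, 7]
def ta1 : Fin 5 → ℚ := ![-3, 1, -7, 1, 1]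

/-- coordinates -/
def ca5 (v : Fin 5 → ℚ) : ℚ := 30 * v 0 + 41 * v 1 + 6 * v 2 + 54 * v 3 + 37 * v 4
def cam2 (v : Fin 5 → ℚ) : ℚ := 2 * v 0 - v 1 - v 2 - 2 * v 3 + 2 * v 4
def cam3 (v : Fin 5 → ℚ) : ℚ := v 1 - 2 * v 3 + v 4
def cam1 (v : Fin 5 → ℚ) : ℚ := -v 1 + v 4
def ca1 (v : Fin 5 → ℚ) : ℚ := -2 * v 0 + v 1 - 2 * v 2 + 2 * v 3 + v 4

theorem decompT (v : Fin 5 → ℚ) : v = (ca5 v / 168) • ta5 + (cam2 v / (-21)) • tam2 +
    (cam3 v / 4) • tam3 + (cam1 v / 12) • tam1 + (ca1 v / 24) • ta1 := by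
  ext i
  fin_cases i <;>
    simp [ta5, tam2, tam3, tam1, ta1, ca5, cam2, cam3, cam1, ca1] <;> ring

theorem ta5_A : ta5 ᵥ* toQ exAᵀ = (5 : ℚ) • ta5 := by
  rw [vecMul_exAT]; ext i; fin_cases i <;> simp [ta5] <;> norm_num
theorem tam2_A : tam2 ᵥ* toQ exAᵀ = (-2 : ℚ) • tam2 := by
  rw [vecMul_exAT]; ext i; fin_cases i <;> simp [tam2] <;> norm_num
theorem tam3_A : tam3 ᵥ* toQ exAᵀ = (-3 : ℚ) • tam3 := by
  rw [vecMul_exAT]; ext i; fin_cases i <;> simp [tam3] <;> norm_num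
theorem tam1_A : tam1 ᵥ* toQ exAᵀ = (-1 : ℚ) • tam1 := by
  rw [vecMul_exAT]; ext i; fin_cases i <;> simp [tam1] <;> norm_num
theorem ta1_A : ta1 ᵥ* toQ exAᵀ = (1 : ℚ) • ta1 := by
  rw [vecMul_exAT]; ext i; fin_cases i <;> simp [ta1] <;> norm_num

def tb5 : Fin 3 → ℚ := ![1, 2, 1]
def tbm2 : Fin 3 → ℚ := ![1, -5, 1]
def tbm3 : Fin 3 → ℚ := ![0, -3, 1]

def cb5 (v : Fin 3 → ℚ) : ℚ := 2 * v 0 + v 1 + 3 * v 2
def cbm2 (v : Fin 3 → ℚ) : ℚ := -5 * v 0 + v 1 + 3 * v 2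
def cbm3 (v : Fin 3 → ℚ) : ℚ := v 0 - v 2

theorem decompBT (v : Fin 3 → ℚ) : v = (cb5 v / 7) • tb5 + (cbm2 v / (-7)) • tbm2 +
    (cbm3 v / (-1)) • tbm3 := by
  ext i
  fin_cases i <;> simp [tb5, tbm2, tbm3, cb5, cbm2, cbm3] <;> ring

theorem tb5_B : tb5 ᵥ* toQ exBᵀ = (5 : ℚ) • tb5 := by
  rw [vecMul_exBT]; ext i; fin_cases i <;> simp [tb5] <;> norm_num
theorem tbm2_B : tbm2 ᵥ* toQ exBᵀ = (-2 : ℚ) • tbm2 := by
  rw [vecMul_exBT]; ext i; fin_cases i <;> simp [tbm2] <;> norm_num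
theorem tbm3_B : tbm3 ᵥ* toQ exBᵀ = (-3 : ℚ) • tbm3 := by
  rw [vecMul_exBT]; ext i; fin_cases i <;> simp [tbm3] <;> norm_num

theorem evRange_exAT (v : Fin 5 → ℚ) : v ∈ evRange exAᵀ := by
  rw [decompT v]
  exact (evRange exAᵀ).add_mem ((evRange exAᵀ).add_mem ((evRange exAᵀ).add_mem
    ((evRange exAᵀ).add_mem
      ((evRange exAᵀ).smul_mem _ (eigen_mem_evRange ta5_A (by norm_num)))
      ((evRange exAᵀ).smul_mem _ (eigen_mem_evRange tam2_A (by norm_num))))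
      ((evRange exAᵀ).smul_mem _ (eigen_mem_evRange tam3_A (by norm_num))))
      ((evRange exAᵀ).smul_mem _ (eigen_mem_evRange tam1_A (by norm_num))))
      ((evRange exAᵀ).smul_mem _ (eigen_mem_evRange ta1_A (by norm_num)))

theorem evRange_exBT (v : Fin 3 → ℚ) : v ∈ evRange exBᵀ := by
  rw [decompBT v]
  exact (evRange exBᵀ).add_mem ((evRange exBᵀ).add_mem
      ((evRange exBᵀ).smul_mem _ (eigen_mem_evRange tb5_B (by norm_num)))
      ((evRange exBᵀ).smul_mem _ (eigen_mem_evRange tbm2_B (by norm_num))))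
      ((evRange exBᵀ).smul_mem _ (eigen_mem_evRange tbm3_B (by norm_num)))

theorem cb5_pow (y : Fin 3 → ℚ) (k : ℕ) : cb5 (y ᵥ* toQ exBᵀ ^ k) = 5 ^ k * cb5 y := by
  induction k with
  | zero => simp
  | succ k ih =>
    rw [pow_succ, ← Matrix.vecMul_vecMul, vecMul_exBT]
    generalize y ᵥ* toQ exBᵀ ^ k = w at *
    have : cb5 ![w 1 + 3 * w 2, w 0 + 9 * w 2, 3 * w 0 + w 1] = 5 * cb5 w := by
      simp [cb5]
      ring
    rw [this, ih]
    ring

theorem ca5_pow (y : Fin 5 → ℚ) (k : ℕ) : ca5 (y ᵥ* toQ exAᵀ ^ k) = 5 ^ k * ca5 y := by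
  induction k with
  | zero => simp
  | succ k ih =>
    rw [pow_succ, ← Matrix.vecMul_vecMul, vecMul_exAT]
    generalize y ᵥ* toQ exAᵀ ^ k = w at *
    have : ca5 ![2 * w 1 + w 2 + w 3 + w 4, w 0 + 3 * w 3 + w 4, 3 * w 0 + w 3 + w 4,
        w 0 + 2 * w 1 + 2 * w 4, w 0 + w 1 + 3 * w 3] = 5 * ca5 w := by
      simp [ca5]
      ring
    rw [this, ih]
    ring

theorem mem_posCone_exAT (v : Fin 5 → ℚ) :
    v ∈ posCone exAᵀ ↔ v ∈ dimGroup exAᵀ ∧ (v = 0 ∨ 0 < ca5 v) := by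
  constructor
  · rintro ⟨hv, k, hk⟩
    refine ⟨hv, ?_⟩
    have h1 := ca5_pow v k
    rcases lt_trichotomy (ca5 v) 0 with h | h | h
    · exfalso
      have h2 : 0 ≤ ca5 (v ᵥ* toQ exAᵀ ^ k) := by
        simp only [ca5]
        linarith [hk 0, hk 1, hk 2, hk 3, hk 4]
      have h3 : (0 : ℚ) < 5 ^ k := by positivity
      nlinarith
    · left
      rw [h, mul_zero] at h1
      have h2 : v ᵥ* toQ exAᵀ ^ k = 0 := by
        simp only [ca5] at h1
        ext j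
        have := hk 0
        have := hk 1
        have := hk 2
        have := hk 3
        have := hk 4
        fin_cases j <;> simp <;> linarith
      exact evR_inj exAᵀ (evRange_exAT v) k h2
    · exact Or.inr h
  · rintro ⟨hv, rfl | h⟩
    · exact ⟨hv, 0, fun j => by simp⟩
    · refine ⟨hv, ?_⟩
      obtain ⟨k, hk⟩ := exists_dom (a := ca5 v / 168)
        (C := 8 * (|cam2 v / (-21)| + |cam3 v / 4| + |cam1 v / 12| + |ca1 v / 24|))
        (by positivity)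
      refine ⟨k, fun j => ?_⟩
      have e : v ᵥ* toQ exAᵀ ^ k = (5 ^ k * (ca5 v / 168)) • ta5 +
          ((-2) ^ k * (cam2 v / (-21))) • tam2 + ((-3) ^ k * (cam3 v / 4)) • tam3 +
          ((-1) ^ k * (cam1 v / 12)) • tam1 + (1 ^ k * (ca1 v / 24)) • ta1 := by
        conv_lhs => rw [decompT v]
        simp only [Matrix.add_vecMul, Matrix.smul_vecMul, vecMul_pow_eigen ta5_A,
          vecMul_pow_eigen tam2_A, vecMul_pow_eigen tam3_A, vecMul_pow_eigen tam1_A,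
          vecMul_pow_eigen ta1_A, smul_smul]
        simp only [mul_comm]
      have b2 := abs_le.1 (abs_pow_mul_le (μ := -2) (c := cam2 v / (-21)) (by norm_num) k)
      have b3 := abs_le.1 (abs_pow_mul_le (μ := -3) (c := cam3 v / 4) (by norm_num) k)
      have b1 := abs_le.1 (abs_pow_mul_le (μ := -1) (c := cam1 v / 12) (by norm_num) k)
      have b0 := abs_le.1 (abs_pow_mul_le (μ := 1) (c := ca1 v / 24) (by norm_num) k)
      have p : 0 < 5 ^ k * (ca5 v / 168) := by positivity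
      have q2 : 0 ≤ 3 ^ k * |cam2 v / (-21)| := by positivity
      have q3 : 0 ≤ 3 ^ k * |cam3 v / 4| := by positivity
      have q1 : 0 ≤ 3 ^ k * |cam1 v / 12| := by positivity
      have q0 : 0 ≤ 3 ^ k * |ca1 v / 24| := by positivity
      rw [e]
      obtain ⟨b21, b22⟩ := b2
      obtain ⟨b31, b32⟩ := b3
      obtain ⟨b11, b12⟩ := b1
      obtain ⟨b01, b02⟩ := b0
      fin_cases j <;> simp [ta5, tam2, tam3, tam1, ta1] <;>
        simp only [one_pow, one_mul] at * <;> linarith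

theorem mem_posCone_exBT (v : Fin 3 → ℚ) :
    v ∈ posCone exBᵀ ↔ v ∈ dimGroup exBᵀ ∧ (v = 0 ∨ 0 < cb5 v) := by
  constructor
  · rintro ⟨hv, k, hk⟩
    refine ⟨hv, ?_⟩
    have h1 := cb5_pow v k
    rcases lt_trichotomy (cb5 v) 0 with h | h | h
    · exfalso
      have h2 : 0 ≤ cb5 (v ᵥ* toQ exBᵀ ^ k) := by
        simp only [cb5]
        linarith [hk 0, hk 1, hk 2]
      have h3 : (0 : ℚ) < 5 ^ k := by positivity
      nlinarith
    · left
      rw [h, mul_zero] at h1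
      have h2 : v ᵥ* toQ exBᵀ ^ k = 0 := by
        simp only [cb5] at h1
        ext j
        have := hk 0
        have := hk 1
        have := hk 2
        fin_cases j <;> simp <;> linarith
      exact evR_inj exBᵀ (evRange_exBT v) k h2
    · exact Or.inr h
  · rintro ⟨hv, rfl | h⟩
    · exact ⟨hv, 0, fun j => by simp⟩
    · refine ⟨hv, ?_⟩
      obtain ⟨k, hk⟩ := exists_dom (a := cb5 v / 7)
        (C := 5 * (|cbm2 v / (-7)| + |cbm3 v / (-1)|)) (by positivity)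
      refine ⟨k, fun j => ?_⟩
      have e : v ᵥ* toQ exBᵀ ^ k = (5 ^ k * (cb5 v / 7)) • tb5 +
          ((-2) ^ k * (cbm2 v / (-7))) • tbm2 + ((-3) ^ k * (cbm3 v / (-1))) • tbm3 := by
        conv_lhs => rw [decompBT v]
        simp only [Matrix.add_vecMul, Matrix.smul_vecMul, vecMul_pow_eigen tb5_B,
          vecMul_pow_eigen tbm2_B, vecMul_pow_eigen tbm3_B, smul_smul]
        simp only [mul_comm]
      have b2 := abs_le.1 (abs_pow_mul_le (μ := -2) (c := cbm2 v / (-7)) (by norm_num) k)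
      have b3 := abs_le.1 (abs_pow_mul_le (μ := -3) (c := cbm3 v / (-1)) (by norm_num) k)
      have p : 0 < 5 ^ k * (cb5 v / 7) := by positivity
      have q2 : 0 ≤ 3 ^ k * |cbm2 v / (-7)| := by positivity
      have q3 : 0 ≤ 3 ^ k * |cbm3 v / (-1)| := by positivity
      rw [e]
      obtain ⟨b21, b22⟩ := b2
      obtain ⟨b31, b32⟩ := b3
      fin_cases j <;> simp only [tb5, tbm2, tbm3, Fin.isValue, Fin.zero_eta, Fin.mk_one,
        Fin.reduceFinMk, Pi.add_apply, Pi.smul_apply, Matrix.cons_val_zero, Matrix.cons_val_one,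
        Matrix.cons_val, smul_eq_mul] <;> linarith

/-- the invariant hyperplane -/
def exWT : Submodule ℚ (Fin 5 → ℚ) where
  carrier := {v | v 4 = v 1}
  zero_mem' := by simp
  add_mem' := by
    intro v w hv hw
    simp only [Set.mem_setOf_eq, Pi.add_apply] at *
    linarith
  smul_mem' := by
    intro c v hv
    simp only [Set.mem_setOf_eq, Pi.smul_apply, smul_eq_mul] at *
    rw [hv]

theorem mem_exWT {v : Fin 5 → ℚ} : v ∈ exWT ↔ v 4 = v 1 := Iff.rfl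

/-- the map onto the dimension group of the transpose of `exB` -/
def exPsiT : (Fin 5 → ℚ) →ₗ[ℚ] (Fin 3 → ℚ) where
  toFun v := ![v 0 + 3 * v 1 + v 3 - v 4, v 2 + 7 * v 3, v 0 + 3 * v 1]
  map_add' := by
    intro v w
    ext i
    fin_cases i <;> simp <;> ring
  map_smul' := by
    intro c v
    ext i
    fin_cases i <;> simp <;> ring

theorem exPsiT_apply (v : Fin 5 → ℚ) :
    exPsiT v = ![v 0 + 3 * v 1 + v 3 - v 4, v 2 + 7 * v 3, v 0 + 3 * v 1] := rfl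

theorem exWT_inv : ∀ w ∈ exWT, w ᵥ* toQ exAᵀ ∈ exWT := by
  intro w hw
  rw [mem_exWT] at *
  rw [vecMul_exAT]
  simp
  linarith

theorem exPsiT_int : ∀ w ∈ exWT, exPsiT (w ᵥ* toQ exAᵀ) = exPsiT w ᵥ* toQ exBᵀ := by
  intro w hw
  rw [mem_exWT] at hw
  rw [vecMul_exAT, vecMul_exBT]
  simp only [exPsiT_apply]
  ext i
  fin_cases i <;> simp <;> linarith

theorem exPsiT_pow (k : ℕ) : ∀ w ∈ exWT, w ᵥ* toQ exAᵀ ^ k ∈ exWT ∧
    exPsiT (w ᵥ* toQ exAᵀ ^ k) = exPsiT w ᵥ* toQ exBᵀ ^ k := by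
  induction k with
  | zero => intro w hw; simpa using hw
  | succ k ih =>
    intro w hw
    obtain ⟨h1, h2⟩ := ih w hw
    rw [pow_succ, ← Matrix.vecMul_vecMul]
    refine ⟨exWT_inv _ h1, ?_⟩
    rw [exPsiT_int _ h1, h2, Matrix.vecMul_vecMul _ (toQ exBᵀ ^ k), ← pow_succ]

theorem exPsiT_section (y : Fin 3 → ℚ) :
    (![y 2, 0, -7 * y 0 + y 1 + 7 * y 2, y 0 - y 2, 0] : Fin 5 → ℚ) ∈ exWT ∧
      exPsiT ![y 2, 0, -7 * y 0 + y 1 + 7 * y 2, y 0 - y 2, 0] = y := by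
  constructor
  · rw [mem_exWT]
    simp
  · rw [exPsiT_apply]
    ext i
    fin_cases i <;> simp
    ring

theorem cb5_exPsiT {w : Fin 5 → ℚ} (hw : w ∈ exWT) : cb5 (exPsiT w) = ca5 w / 6 := by
  rw [mem_exWT] at hw
  rw [exPsiT_apply]
  simp [cb5, ca5] at *
  linarith

theorem exDimT (y : Fin 3 → ℚ) :
    y ∈ dimGroup exBᵀ ↔ ∃ w ∈ exWT, w ∈ dimGroup exAᵀ ∧ exPsiT w = y := by
  constructor
  · rintro ⟨-, k, z, hz⟩
    obtain ⟨h1, h2⟩ := exPsiT_section fun j => (z j : ℚ)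
    obtain ⟨w, hw, hw2⟩ := sub_surj exAᵀ (fun v _ => evRange_exAT v) exWT_inv k h1
    refine ⟨w, hw, ⟨evRange_exAT w, k,
      ![z 2, 0, -7 * z 0 + z 1 + 7 * z 2, z 0 - z 2, 0], fun j => ?_⟩, ?_⟩
    · rw [hw2]
      fin_cases j <;> simp
    · refine evRange_eq exBᵀ (evRange_exBT _) (evRange_exBT _) k ?_
      rw [← (exPsiT_pow k w hw).2, hw2, h2]
      exact (funext hz).symm
  · rintro ⟨w, hw, ⟨-, k, z, hz⟩, rfl⟩
    refine ⟨evRange_exBT _, k, ![z 0 + 3 * z 1 + z 3 - z 4, z 2 + 7 * z 3, z 0 + 3 * z 1],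
      fun j => ?_⟩
    rw [← (exPsiT_pow k w hw).2, exPsiT_apply]
    simp only [hz]
    fin_cases j <;> simp

theorem dim_exampleT : DimCondition exAᵀ exBᵀ := by
  refine ⟨exWT, exPsiT, exWT_inv, fun v _ => evRange_exAT v, exPsiT_int, exDimT, fun y => ?_⟩
  constructor
  · intro hy
    obtain ⟨h1, h2⟩ := (mem_posCone_exBT y).1 hy
    obtain ⟨w, hw, hwA, hwy⟩ := (exDimT y).1 h1
    rcases h2 with rfl | h2
    · refine ⟨0, exWT.zero_mem, (mem_posCone_exAT 0).2 ⟨?_, Or.inl rfl⟩, map_zero _⟩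
      exact ⟨evRange_exAT 0, 0, 0, fun j => by simp⟩
    · refine ⟨w, hw, (mem_posCone_exAT w).2 ⟨hwA, Or.inr ?_⟩, hwy⟩
      rw [← hwy, cb5_exPsiT hw] at h2
      linarith
  · rintro ⟨w, hw, hwp, rfl⟩
    obtain ⟨h1, h2⟩ := (mem_posCone_exAT w).1 hwp
    refine (mem_posCone_exBT _).2 ⟨(exDimT _).2 ⟨w, hw, h1, rfl⟩, ?_⟩
    rcases h2 with rfl | h2
    · exact Or.inl (map_zero _)
    · refine Or.inr ?_
      rw [cb5_exPsiT hw]
      linarith

end Pool.Agent.FT
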