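import Pool.Agent.FT.Perron

/-! Entropy of an edge shift from a positive integer eigenvector. -/

namespace Pool.Agent.FT

open Filter Topology Matrix

theorem bounds_of_eig {n : ℕ} {A : Matrix (Fin n) (Fin n) ℕ} (hn : 0 < n)
    {lam : ℝ} {r : Fin n → ℝ} (hr : ∀ i, 0 < r i)
    (heig : (A.map (Nat.cast : ℕ → ℝ)) *ᵥ r = lam • r) :
    ∃ C : ℝ, 0 < C ∧ ∀ k : ℕ, lam ^ k ≤ ∑ i, ∑ j, (((A ^ k) i j : ℕ) : ℝ) ∧
        ∑ i, ∑ j, (((A ^ k) i j : ℕ) : ℝ) ≤ C * lam ^ k := by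
  haveI : Nonempty (Fin n) := ⟨⟨0, hn⟩⟩
  have hR : 0 < ∑ i, r i := Finset.sum_pos (fun i _ => hr i) Finset.univ_nonempty
  have hS : 0 < ∑ i, (r i)⁻¹ :=
    Finset.sum_pos (fun i _ => inv_pos.2 (hr i)) Finset.univ_nonempty
  refine ⟨(∑ i, r i) * ∑ i, (r i)⁻¹, mul_pos hR hS, ?_⟩
  intro k
  have hnn : ∀ i j, (0 : ℝ) ≤ ((A ^ k) i j : ℕ) := fun i j => Nat.cast_nonneg _
  have key : ∑ i, ∑ j, (((A ^ k) i j : ℕ) : ℝ) * r j = lam ^ k * ∑ i, r i := by
    have h := pow_mulVec_eig heig k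
    rw [Finset.mul_sum]
    apply Finset.sum_congr rfl
    intro i _
    have := congrFun h i
    simp only [Matrix.mulVec, dotProduct, Pi.smul_apply, smul_eq_mul] at this
    rw [← this]
    apply Finset.sum_congr rfl
    intro j _
    rw [cast_pow_entry]
  constructor
  · have h1 : ∑ i, ∑ j, (((A ^ k) i j : ℕ) : ℝ) * r j ≤
        (∑ i, ∑ j, (((A ^ k) i j : ℕ) : ℝ)) * ∑ i, r i := by
      rw [Finset.sum_mul]
      apply Finset.sum_le_sum
      intro i _
      rw [Finset.sum_mul]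
      apply Finset.sum_le_sum
      intro j _
      apply mul_le_mul_of_nonneg_left _ (hnn i j)
      exact Finset.single_le_sum (fun l _ => (hr l).le) (Finset.mem_univ j)
    rw [key] at h1
    exact le_of_mul_le_mul_right h1 hR
  · have h1 : (∑ i, ∑ j, (((A ^ k) i j : ℕ) : ℝ)) ≤
        (∑ i, ∑ j, (((A ^ k) i j : ℕ) : ℝ) * r j) * ∑ l, (r l)⁻¹ := by
      rw [Finset.sum_mul]
      apply Finset.sum_le_sum
      intro i _
      rw [Finset.sum_mul]
      apply Finset.sum_le_sum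
      intro j _
      have e : (r j)⁻¹ ≤ ∑ l, (r l)⁻¹ :=
        Finset.single_le_sum (fun l _ => (inv_pos.2 (hr l)).le) (Finset.mem_univ j)
      calc (((A ^ k) i j : ℕ) : ℝ) = (((A ^ k) i j : ℕ) : ℝ) * r j * (r j)⁻¹ := by
            rw [mul_assoc, mul_inv_cancel₀ (hr j).ne', mul_one]
        _ ≤ _ := mul_le_mul_of_nonneg_left e (mul_nonneg (hnn i j) (hr j).le)
    rw [key] at h1
    linarith [h1]

/-- A primitive matrix with a positive integer right eigenvector for `lam` has entropy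
`log lam`. -/
theorem hasEntropy_of_eigenvector {n : ℕ} {A : Matrix (Fin n) (Fin n) ℕ} (hA : IsPrimitive A)
    (v : Fin n → ℕ) (hv : ∀ i, 0 < v i) (lam : ℕ) (hl : 0 < lam)
    (h : A.mulVec v = fun i => lam * v i) :
    HasEntropy (edgeShift A) (Real.log lam) := by
  have heig : (A.map (Nat.cast : ℕ → ℝ)) *ᵥ (fun i => (v i : ℝ)) =
      (lam : ℝ) • (fun i => (v i : ℝ)) := by
    funext i
    have := congrFun h i
    simp only [Matrix.mulVec, dotProduct] at this
    simp only [Matrix.mulVec, dotProduct, Matrix.map_apply, Pi.smul_apply, smul_eq_mul]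
    exact_mod_cast this
  obtain ⟨C, hC, hb⟩ := bounds_of_eig hA.1 (r := fun i => (v i : ℝ))
    (fun i => by exact_mod_cast hv i) heig
  exact hasEntropy_log hA (by exact_mod_cast hl) hC hb

end Pool.Agent.FT
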