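import Pool.Agent.FT.Defs

/-! Elementary facts about `toQ`, `evRange`, `dimGroup` (project FT, helper88). -/

namespace Pool.Agent.FT

open Matrix

theorem qmul {l m n : Type} [Fintype m] (M : Matrix l m ℕ) (N : Matrix m n ℕ) :
    toQ (M * N) = toQ M * toQ N := by
  ext i j
  simp [toQ, Matrix.mul_apply]

theorem qone {n : Type} [DecidableEq n] : toQ (1 : Matrix n n ℕ) = 1 := by
  ext i j
  by_cases h : i = j <;> simp [toQ, Matrix.one_apply, h]

theorem qpow {n : Type} [Fintype n] [DecidableEq n] (M : Matrix n n ℕ) (k : ℕ) :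
    toQ (M ^ k) = toQ M ^ k := by
  induction k with
  | zero => simp [qone]
  | succ k ih => rw [pow_succ, qmul, ih, pow_succ]

section
variable {n : ℕ} (A : Matrix (Fin n) (Fin n) ℕ)

theorem vml_pow (k : ℕ) (v : Fin n → ℚ) :
    (((toQ A).vecMulLinear) ^ k) v = v ᵥ* (toQ A) ^ k := by
  induction k generalizing v with
  | zero => simp
  | succ k ih => 
    rw [pow_succ, Module.End.mul_apply, ih, pow_succ', Matrix.vecMulLinear_apply,
      Matrix.vecMul_vecMul]

theorem mem_evRange_of_le {k : ℕ} (hk : n ≤ k) (v : Fin n → ℚ) :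
    v ᵥ* (toQ A) ^ k ∈ evRange A := by
  refine ⟨v ᵥ* (toQ A) ^ (k - n), ?_⟩
  rw [Matrix.vecMulLinear_apply, Matrix.vecMul_vecMul, ← pow_add, Nat.sub_add_cancel hk]

theorem evR_inv {v : Fin n → ℚ} (hv : v ∈ evRange A) : v ᵥ* toQ A ∈ evRange A := by
  obtain ⟨u, rfl⟩ := hv
  refine ⟨u ᵥ* toQ A, ?_⟩
  simp only [Matrix.vecMulLinear_apply, Matrix.vecMul_vecMul]
  rw [← pow_succ, ← pow_succ']

theorem evRange_pow {v : Fin n → ℚ} (hv : v ∈ evRange A) (k : ℕ) :
    v ᵥ* (toQ A) ^ k ∈ evRange A := by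
  induction k with
  | zero => simpa using hv
  | succ k ih =>
    rw [pow_succ, ← Matrix.vecMul_vecMul]
    exact evR_inv A ih

theorem evR_inj {v : Fin n → ℚ} (hv : v ∈ evRange A) (k : ℕ)
    (h : v ᵥ* (toQ A) ^ k = 0) : v = 0 := by
  obtain ⟨u, rfl⟩ := hv
  rw [Matrix.vecMulLinear_apply, Matrix.vecMul_vecMul, ← pow_add] at h
  have h1 : u ∈ LinearMap.ker ((toQ A).vecMulLinear ^ (n + k)) := by
    rw [LinearMap.mem_ker, vml_pow, h]
  rw [Module.End.ker_pow_eq_ker_pow_finrank_of_le (by simp)] at h1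
  simp only [Module.finrank_fintype_fun_eq_card, Fintype.card_fin, LinearMap.mem_ker] at h1
  rw [vml_pow] at h1
  rw [Matrix.vecMulLinear_apply, h1]

theorem evRange_eq {v w : Fin n → ℚ} (hv : v ∈ evRange A) (hw : w ∈ evRange A) (k : ℕ)
    (h : v ᵥ* (toQ A) ^ k = w ᵥ* (toQ A) ^ k) : v = w := by
  have := evR_inj A ((evRange A).sub_mem hv hw) k (by rw [Matrix.sub_vecMul, h, sub_self])
  exact sub_eq_zero.1 this

theorem sub_surj {E : Submodule ℚ (Fin n → ℚ)} (hE : E ≤ evRange A)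
    (hinv : ∀ v ∈ E, v ᵥ* toQ A ∈ E) (k : ℕ) {w : Fin n → ℚ} (hw : w ∈ E) :
    ∃ v ∈ E, v ᵥ* (toQ A) ^ k = w := by
  have hinj : Function.Injective (restr A E hinv) := by
    intro x y hxy
    apply Subtype.ext
    have h1 : ((x : Fin n → ℚ)) ᵥ* toQ A = (y : Fin n → ℚ) ᵥ* toQ A := congrArg Subtype.val hxy
    exact evRange_eq A (hE x.2) (hE y.2) 1 (by simpa using h1)
  have hsurj : Function.Surjective (restr A E hinv) :=
    LinearMap.injective_iff_surjective.1 hinj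
  induction k generalizing w with
  | zero => exact ⟨w, hw, by simp⟩
  | succ k ih =>
    obtain ⟨v, hv⟩ := hsurj ⟨w, hw⟩
    obtain ⟨u, hu, hu2⟩ := ih v.2
    refine ⟨u, hu, ?_⟩
    rw [pow_succ, ← Matrix.vecMul_vecMul, hu2]
    exact congrArg Subtype.val hv

theorem restr_pow_val (E : Submodule ℚ (Fin n → ℚ)) (hinv : ∀ v ∈ E, v ᵥ* toQ A ∈ E) (k : ℕ)
    (x : E) : (((restr A E hinv) ^ k) x : Fin n → ℚ) = (x : Fin n → ℚ) ᵥ* (toQ A) ^ k := by
  induction k generalizing x with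
  | zero => simp
  | succ k ih =>
    rw [pow_succ, Module.End.mul_apply, ih, pow_succ', ← Matrix.vecMul_vecMul]
    rfl

end

end Pool.Agent.FT
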