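import Pool.Agent.FT.Cond

/-! The explicit pair of matrices: failure of the dimension condition with traces
(project FT, helper88). -/

namespace Pool.Agent.FT

open Matrix

/-- The 5 x 5 example. -/
def exA : Matrix (Fin 5) (Fin 5) ℕ :=
  !![0, 2, 1, 1, 1; 1, 0, 0, 3, 1; 3, 0, 0, 1, 1; 1, 2, 0, 0, 2; 1, 1, 0, 3, 0]

/-- The 3 x 3 example. -/
def exB : Matrix (Fin 3) (Fin 3) ℕ := !![0, 1, 3; 1, 0, 9; 3, 1, 0]

theorem vecMul_exA (v : Fin 5 → ℚ) : v ᵥ* toQ exA =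
    ![v 1 + 3 * v 2 + v 3 + v 4, 2 * v 0 + 2 * v 3 + v 4, v 0, v 0 + 3 * v 1 + v 2 + 3 * v 4,
      v 0 + v 1 + v 2 + 2 * v 3] := by
  ext i
  fin_cases i <;>
    simp [Matrix.vecMul, dotProduct, toQ, exA, Fin.sum_univ_five] <;> ring

theorem vecMul_exB (v : Fin 3 → ℚ) : v ᵥ* toQ exB =
    ![v 1 + 3 * v 2, v 0 + v 2, 3 * v 0 + 9 * v 1] := by
  ext i
  fin_cases i <;>
    simp [Matrix.vecMul, dotProduct, toQ, exB, Fin.sum_univ_three] <;> ring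

/-- left eigenvectors of `exA` -/
def la5 : Fin 5 → ℚ := ![30, 41, 6, 54, 37]
def lam2 : Fin 5 → ℚ := ![2, -1, -1, -2, 2]
def lam3 : Fin 5 → ℚ := ![0, 1, 0, -2, 1]
def lam1 : Fin 5 → ℚ := ![0, -1, 0, 0, 1]
def la1 : Fin 5 → ℚ := ![-2, 1, -2, 2, 1]

/-- coordinates along the eigenvectors (values of the right eigenvectors) -/
def ra5 (v : Fin 5 → ℚ) : ℚ := v 0 + v 1 + v 2 + v 3 + v 4
def ram2 (v : Fin 5 → ℚ) : ℚ := -6 * v 0 + v 1 + 8 * v 2 + v 3 + v 4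
def ram3 (v : Fin 5 → ℚ) : ℚ := -v 0 + v 1 + v 2 - v 3 + v 4
def ram1 (v : Fin 5 → ℚ) : ℚ := -5 * v 0 - 5 * v 1 + 7 * v 2 + v 3 + 7 * v 4
def ra1 (v : Fin 5 → ℚ) : ℚ := -3 * v 0 + v 1 - 7 * v 2 + v 3 + v 4

theorem decomp (v : Fin 5 → ℚ) : v = (ra5 v / 168) • la5 + (ram2 v / (-21)) • lam2 +
    (ram3 v / 4) • lam3 + (ram1 v / 12) • lam1 + (ra1 v / 24) • la1 := by
  ext i
  fin_cases i <;>
    simp [la5, lam2, lam3, lam1, la1, ra5, ram2, ram3, ram1, ra1] <;> ring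

theorem la5_A : la5 ᵥ* toQ exA = (5 : ℚ) • la5 := by
  rw [vecMul_exA]; ext i; fin_cases i <;> simp [la5] <;> norm_num
theorem lam2_A : lam2 ᵥ* toQ exA = (-2 : ℚ) • lam2 := by
  rw [vecMul_exA]; ext i; fin_cases i <;> simp [lam2] <;> norm_num
theorem lam3_A : lam3 ᵥ* toQ exA = (-3 : ℚ) • lam3 := by
  rw [vecMul_exA]; ext i; fin_cases i <;> simp [lam3] <;> norm_num
theorem lam1_A : lam1 ᵥ* toQ exA = (-1 : ℚ) • lam1 := by
  rw [vecMul_exA]; ext i; fin_cases i <;> simp [lam1]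
theorem la1_A : la1 ᵥ* toQ exA = (1 : ℚ) • la1 := by
  rw [vecMul_exA]; ext i; fin_cases i <;> simp [la1] <;> norm_num

/-- polynomial expression of degree four in `A` applied to `v` -/
def polyA (c3 c2 c1 c0 : ℚ) (v : Fin 5 → ℚ) : Fin 5 → ℚ :=
  v ᵥ* toQ exA ᵥ* toQ exA ᵥ* toQ exA ᵥ* toQ exA + c3 • (v ᵥ* toQ exA ᵥ* toQ exA ᵥ* toQ exA) +
      c2 • (v ᵥ* toQ exA ᵥ* toQ exA) + c1 • (v ᵥ* toQ exA) + c0 • v

/-- polynomial expression of degree four in `B` applied to `y` -/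
def polyB (c3 c2 c1 c0 : ℚ) (v : Fin 3 → ℚ) : Fin 3 → ℚ :=
  v ᵥ* toQ exB ᵥ* toQ exB ᵥ* toQ exB ᵥ* toQ exB + c3 • (v ᵥ* toQ exB ᵥ* toQ exB ᵥ* toQ exB) +
      c2 • (v ᵥ* toQ exB ᵥ* toQ exB) + c1 • (v ᵥ* toQ exB) + c0 • v

theorem polyA_mem {E : Submodule ℚ (Fin 5 → ℚ)} (hE : ∀ w ∈ E, w ᵥ* toQ exA ∈ E)
    {v : Fin 5 → ℚ} (hv : v ∈ E) (c3 c2 c1 c0 : ℚ) : polyA c3 c2 c1 c0 v ∈ E := by
  have h1 := hE _ hv
  have h2 := hE _ h1
  have h3 := hE _ h2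
  have h4 := hE _ h3
  exact E.add_mem (E.add_mem (E.add_mem (E.add_mem h4 (E.smul_mem _ h3)) (E.smul_mem _ h2))
    (E.smul_mem _ h1)) (E.smul_mem _ hv)

theorem polyA_psi {E : Submodule ℚ (Fin 5 → ℚ)} (hE : ∀ w ∈ E, w ᵥ* toQ exA ∈ E)
    {ψ : (Fin 5 → ℚ) →ₗ[ℚ] (Fin 3 → ℚ)} (hψ : ∀ w ∈ E, ψ (w ᵥ* toQ exA) = ψ w ᵥ* toQ exB)
    {v : Fin 5 → ℚ} (hv : v ∈ E) (c3 c2 c1 c0 : ℚ) :
    ψ (polyA c3 c2 c1 c0 v) = polyB c3 c2 c1 c0 (ψ v) := by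
  have h1 := hE _ hv
  have h2 := hE _ h1
  have h3 := hE _ h2
  simp only [polyA, polyB, map_add, map_smul]
  rw [hψ _ h3, hψ _ h2, hψ _ h1, hψ _ hv]

theorem polyA_5 (v : Fin 5 → ℚ) : polyA 5 5 (-5) (-6) v = (8 * ra5 v) • la5 := by
  simp only [polyA, vecMul_exA]
  ext i
  fin_cases i <;> simp [la5, ra5] <;> ring

theorem polyA_m2 (v : Fin 5 → ℚ) : polyA (-2) (-16) 2 15 v = (ram2 v) • lam2 := by
  simp only [polyA, vecMul_exA]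
  ext i
  fin_cases i <;> simp [lam2, ram2] <;> ring

theorem polyA_m3 (v : Fin 5 → ℚ) : polyA (-3) (-11) 3 10 v = (16 * ram3 v) • lam3 := by
  simp only [polyA, vecMul_exA]
  ext i
  fin_cases i <;> simp [lam3, ram3] <;> ring

theorem polyA_m1 (v : Fin 5 → ℚ) : polyA (-1) (-19) (-11) 30 v = (2 * ram1 v) • lam1 := by
  simp only [polyA, vecMul_exA]
  ext i
  fin_cases i <;> simp [lam1, ram1] <;> ring

theorem polyA_1 (v : Fin 5 → ℚ) : polyA 1 (-19) (-49) (-30) v = (-4 * ra1 v) • la1 := by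
  simp only [polyA, vecMul_exA]
  ext i
  fin_cases i <;> simp [la1, ra1] <;> ring

/-- left eigenvectors of `exB` -/
def lb5 : Fin 3 → ℚ := ![2, 1, 3]
def lbm2 : Fin 3 → ℚ := ![-5, 1, 3]
def lbm3 : Fin 3 → ℚ := ![1, 0, -1]

def rb5 (v : Fin 3 → ℚ) : ℚ := v 0 + 2 * v 1 + v 2
def rbm2 (v : Fin 3 → ℚ) : ℚ := v 0 - 5 * v 1 + v 2
def rbm3 (v : Fin 3 → ℚ) : ℚ := -3 * v 1 + v 2

theorem decompB (v : Fin 3 → ℚ) : v = (rb5 v / 7) • lb5 + (rbm2 v / (-7)) • lbm2 +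
    (rbm3 v / (-1)) • lbm3 := by
  ext i
  fin_cases i <;> simp [lb5, lbm2, lbm3, rb5, rbm2, rbm3] <;> ring

theorem lb5_B : lb5 ᵥ* toQ exB = (5 : ℚ) • lb5 := by
  rw [vecMul_exB]; ext i; fin_cases i <;> simp [lb5] <;> norm_num
theorem lbm2_B : lbm2 ᵥ* toQ exB = (-2 : ℚ) • lbm2 := by
  rw [vecMul_exB]; ext i; fin_cases i <;> simp [lbm2] <;> norm_num
theorem lbm3_B : lbm3 ᵥ* toQ exB = (-3 : ℚ) • lbm3 := by
  rw [vecMul_exB]; ext i; fin_cases i <;> simp [lbm3]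

theorem polyB_5 (v : Fin 3 → ℚ) : polyB 5 5 (-5) (-6) v = (192 * rb5 v) • lb5 := by
  simp only [polyB, vecMul_exB]
  ext i
  fin_cases i <;> simp [lb5, rb5] <;> ring

theorem polyB_m2 (v : Fin 3 → ℚ) : polyB (-2) (-16) 2 15 v = (3 * rbm2 v) • lbm2 := by
  simp only [polyB, vecMul_exB]
  ext i
  fin_cases i <;> simp [lbm2, rbm2] <;> ring

theorem polyB_m3 (v : Fin 3 → ℚ) : polyB (-3) (-11) 3 10 v = (-64 * rbm3 v) • lbm3 := by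
  simp only [polyB, vecMul_exB]
  ext i
  fin_cases i <;> simp [lbm3, rbm3] <;> ring

theorem polyB_m1 (v : Fin 3 → ℚ) : polyB (-1) (-19) (-11) 30 v = 0 := by
  simp only [polyB, vecMul_exB]
  ext i
  fin_cases i <;> simp <;> ring

theorem polyB_1 (v : Fin 3 → ℚ) : polyB 1 (-19) (-49) (-30) v = 0 := by
  simp only [polyB, vecMul_exB]
  ext i
  fin_cases i <;> simp <;> ring

section
variable {E : Submodule ℚ (Fin 5 → ℚ)} (hE : ∀ w ∈ E, w ᵥ* toQ exA ∈ E) {v : Fin 5 → ℚ}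
  (hv : v ∈ E)
include hE hv

theorem comp5 : (ra5 v) • la5 ∈ E := by
  have h2 := polyA_mem hE hv 5 5 (-5) (-6)
  rw [polyA_5] at h2
  have h3 := E.smul_mem (1 / 8 : ℚ) h2
  rwa [smul_smul, ← mul_assoc, one_div, inv_mul_cancel₀ (by norm_num), one_mul] at h3

theorem compm2 : (ram2 v) • lam2 ∈ E := by
  have h2 := polyA_mem hE hv (-2) (-16) 2 15
  rwa [polyA_m2] at h2

theorem compm3 : (ram3 v) • lam3 ∈ E := by
  have h2 := polyA_mem hE hv (-3) (-11) 3 10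
  rw [polyA_m3] at h2
  have h3 := E.smul_mem (1 / 16 : ℚ) h2
  rwa [smul_smul, ← mul_assoc, one_div, inv_mul_cancel₀ (by norm_num), one_mul] at h3

theorem compm1 : (ram1 v) • lam1 ∈ E := by
  have h2 := polyA_mem hE hv (-1) (-19) (-11) 30
  rw [polyA_m1] at h2
  have h3 := E.smul_mem (1 / 2 : ℚ) h2
  rwa [smul_smul, ← mul_assoc, one_div, inv_mul_cancel₀ (by norm_num), one_mul] at h3

theorem comp1 : (ra1 v) • la1 ∈ E := by
  have h2 := polyA_mem hE hv 1 (-19) (-49) (-30)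
  rw [polyA_1] at h2
  have h3 := E.smul_mem (-1 / 4 : ℚ) h2
  rwa [smul_smul, ← mul_assoc, show (-1 / 4 : ℚ) * -4 = 1 by norm_num, one_mul] at h3

variable {ψ : (Fin 5 → ℚ) →ₗ[ℚ] (Fin 3 → ℚ)}
  (hψ : ∀ w ∈ E, ψ (w ᵥ* toQ exA) = ψ w ᵥ* toQ exB)
include hψ

theorem psi5 : ra5 v • ψ la5 = (24 * rb5 (ψ v)) • lb5 := by
  have h := polyA_psi hE hψ hv 5 5 (-5) (-6)
  rw [polyA_5, polyB_5, map_smul] at h
  have h3 := congrArg (fun x => (1 / 8 : ℚ) • x) h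
  simp only [smul_smul] at h3
  convert h3 using 2 <;> ring

theorem psim2 : ram2 v • ψ lam2 = (3 * rbm2 (ψ v)) • lbm2 := by
  have h := polyA_psi hE hψ hv (-2) (-16) 2 15
  rwa [polyA_m2, polyB_m2, map_smul] at h

theorem psim3 : ram3 v • ψ lam3 = (-4 * rbm3 (ψ v)) • lbm3 := by
  have h := polyA_psi hE hψ hv (-3) (-11) 3 10
  rw [polyA_m3, polyB_m3, map_smul] at h
  have h3 := congrArg (fun x => (1 / 16 : ℚ) • x) h
  simp only [smul_smul] at h3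
  convert h3 using 2 <;> ring

theorem psim1 : ψ (ram1 v • lam1) = 0 := by
  have h := polyA_psi hE hψ hv (-1) (-19) (-11) 30
  rw [polyA_m1, polyB_m1, mul_smul, map_smul] at h
  exact (smul_eq_zero.1 h).resolve_left (by norm_num)

theorem psi1 : ψ (ra1 v • la1) = 0 := by
  have h := polyA_psi hE hψ hv 1 (-19) (-49) (-30)
  rw [polyA_1, polyB_1, mul_smul, map_smul] at h
  exact (smul_eq_zero.1 h).resolve_left (by norm_num)

end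

end Pool.Agent.FT
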