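import Mathlib

/-! Traces of endomorphisms of graded subspaces. -/

namespace Pool.Agent.FT

open Matrix

/-- the trace of a restricted endomorphism of a graded subspace vanishes when the matrix has no
entries inside the fibres -/
theorem trace_graded {V J : Type} [Fintype V] [DecidableEq V] [Fintype J] [DecidableEq J]
    (π : V → J) (C : Matrix V V ℚ) (hC : ∀ u v, π u = π v → C u v = 0)
    (M : Submodule ℚ (V → ℚ)) (hM : ∀ f ∈ M, f ᵥ* C ∈ M)
    (grad : ∀ j, ∀ f ∈ M, (fun v => if π v = j then f v else 0) ∈ M) :
    LinearMap.trace ℚ M (C.vecMulLinear.restrict hM) = 0 := by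
  let P : J → Module.End ℚ (V → ℚ) := fun j =>
    { toFun := fun f v => if π v = j then f v else 0
      map_add' := fun f g => by
        funext v
        by_cases h : π v = j <;> simp [h]
      map_smul' := fun c f => by
        funext v
        by_cases h : π v = j <;> simp [h] }
  let p : J → Module.End ℚ M := fun j => (P j).restrict (grad j)
  let T : Module.End ℚ M := C.vecMulLinear.restrict hM
  have hp : ∑ j, p j = 1 := by
    apply LinearMap.ext
    intro f
    apply Subtype.ext
    rw [LinearMap.sum_apply, Submodule.coe_sum]
    funext v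
    rw [Finset.sum_apply]
    have h1 : ∀ j, ((p j f : M) : V → ℚ) v = if π v = j then (f : V → ℚ) v else 0 := fun j => rfl
    simp_rw [h1]
    rw [Finset.sum_ite_eq Finset.univ, if_pos (Finset.mem_univ _)]
    rfl
  have hpp : ∀ j, p j * p j = p j := by
    intro j
    apply LinearMap.ext
    intro f
    apply Subtype.ext
    funext v
    show (if π v = j then (if π v = j then (f : V → ℚ) v else 0) else 0) =
      if π v = j then (f : V → ℚ) v else 0
    split_ifs <;> rfl
  have hz : ∀ j, p j * T * p j = 0 := by
    intro j
    apply LinearMap.ext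
    intro f
    apply Subtype.ext
    funext v
    show (if π v = j then ((fun u => if π u = j then (f : V → ℚ) u else 0) ᵥ* C) v else 0) = 0
    split_ifs with hv
    · rw [Matrix.vecMul, dotProduct]
      apply Finset.sum_eq_zero
      intro u _
      by_cases hu : π u = j
      · rw [hC u v (hu.trans hv.symm), mul_zero]
      · rw [if_neg hu, zero_mul]
    · rfl
  have h1 : T = ∑ j, p j * T := by
    rw [← Finset.sum_mul, hp, one_mul]
  show LinearMap.trace ℚ M T = 0
  rw [h1, map_sum]
  apply Finset.sum_eq_zero
  intro j _
  have h2 : p j * T = p j * (p j * T) := by rw [← mul_assoc, hpp]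
  rw [h2, LinearMap.trace_mul_comm, hz, map_zero]

end Pool.Agent.FT
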