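import Pool.Agent.FT.Cover
import Pool.Agent.FT.Trace

/-! The algebraic data of a factor code between mixing shifts of equal entropy. -/

namespace Pool.Agent.FT

open Matrix Pool.FTO

/-- cast of an integral matrix to the rationals -/
def zQ {m n : Type} (R : Matrix m n ℤ) : Matrix m n ℚ := R.map (Int.cast : ℤ → ℚ)

theorem toQ_mul {l m n : Type} [Fintype m] (M : Matrix l m ℕ) (N : Matrix m n ℕ) :
    FT.toQ (M * N) = FT.toQ M * FT.toQ N := by
  ext i j
  simp only [FT.toQ, Matrix.map_apply, Matrix.mul_apply]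
  push_cast
  rfl

theorem toQ_pow {m : Type} [Fintype m] [DecidableEq m] (M : Matrix m m ℕ) (k : ℕ) :
    FT.toQ (M ^ k) = FT.toQ M ^ k := by
  induction k with
  | zero =>
    ext i j
    simp only [FT.toQ, Matrix.map_apply, pow_zero, Matrix.one_apply]
    split_ifs <;> simp
  | succ k ih => rw [pow_succ, toQ_mul, ih, pow_succ]

/-- powers of the restriction -/
theorem restrict_pow {V : Type} [Fintype V] [DecidableEq V] (C : Matrix V V ℚ)
    (M : Submodule ℚ (V → ℚ)) (hM : ∀ f ∈ M, f ᵥ* C ∈ M) (k : ℕ)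
    (hMk : ∀ f ∈ M, f ᵥ* C ^ k ∈ M) :
    (C.vecMulLinear.restrict hM : Module.End ℚ M) ^ k = (C ^ k).vecMulLinear.restrict hMk := by
  induction k with
  | zero =>
    apply LinearMap.ext
    intro f
    apply Subtype.ext
    show (f : V → ℚ) = (f : V → ℚ) ᵥ* C ^ 0
    rw [pow_zero, Matrix.vecMul_one]
  | succ k ih =>
    have hk : ∀ f ∈ M, f ᵥ* C ^ k ∈ M := by
      clear hMk ih
      intro f hf
      induction k with
      | zero => rwa [pow_zero, Matrix.vecMul_one]
      | succ k ih =>
        rw [pow_succ, ← Matrix.vecMul_vecMul]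
        exact hM _ ih
    rw [pow_succ', ih hk]
    apply LinearMap.ext
    intro f
    apply Subtype.ext
    show ((f : V → ℚ) ᵥ* C ^ k) ᵥ* C = (f : V → ℚ) ᵥ* C ^ (k + 1)
    rw [Matrix.vecMul_vecMul, ← pow_succ]

/-- the output of the coding part -/
theorem exists_data {a b : ℕ} {A : Matrix (Fin a) (Fin a) ℕ}
    {B : Matrix (Fin b) (Fin b) ℕ} (hA : IsPrimitive A) (hB : IsPrimitive B)
    (hent : ∃ h, HasEntropy (edgeShift A) h ∧ HasEntropy (edgeShift B) h)
    (φ : edgeShift A → edgeShift B) (hφ : IsFactorCode φ) :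
    ∃ (V : Type) (_ : Fintype V) (_ : DecidableEq V) (p : ℕ) (E : Matrix V V ℕ)
      (X : Matrix V (Fin a) ℕ) (Y : Matrix (Fin a) V ℕ) (M N : Submodule ℚ (V → ℚ))
      (hM : ∀ f ∈ M, f ᵥ* FT.toQ E ∈ M) (hN : ∀ f ∈ N, f ᵥ* FT.toQ E ∈ N)
      (m : Matrix (Fin b) V ℤ) (R : Matrix V (Fin b) ℤ),
      E * X = X * A ∧ Y * E = A * Y ∧ Y * X = A ^ p ∧ X * Y = E ^ p ∧
      (∀ f, f ∈ N ↔ f ∈ M ∧ f ᵥ* zQ R = 0) ∧
      (∀ j, (zQ m) j ∈ M) ∧ m * R = 1 ∧
      (∀ f ∈ M, f ᵥ* FT.toQ E ᵥ* zQ R = f ᵥ* zQ R ᵥ* FT.toQ B) ∧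
      (∀ k : ℕ, 0 < k → (B ^ k).trace = 0 →
        LinearMap.trace ℚ M (((FT.toQ E).vecMulLinear.restrict hM) ^ k) = 0 ∧
        LinearMap.trace ℚ N (((FT.toQ E).vecMulLinear.restrict hN) ^ k) = 0) := by
  classical
  obtain ⟨p, π, hG⟩ := exists_gcover hA hB hent φ hφ
  obtain ⟨e0, _⟩ := exists_in hB ⟨0, hB.1⟩
  have : Nonempty (Edge B) := ⟨e0⟩
  obtain ⟨M, R, hD⟩ := hG.modData
  choose ei hei using exists_in hB
  have honto := fun e : Edge B => hD.onto (Pi.single e 1)
  choose fe hfeM hfeR using honto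
  let T : Matrix (Edge B) (Fin b) ℤ := (lineT B).map (Nat.cast : ℕ → ℤ)
  let R2 : Matrix (Win A p) (Fin b) ℤ := R * T
  have hzR2 : zQ R2 = zQ R * FT.toQ (lineT B) := by
    ext v j
    simp only [zQ, R2, T, FT.toQ, Matrix.map_apply, Matrix.mul_apply]
    push_cast
    rfl
  let N : Submodule ℚ (Win A p → ℚ) := M ⊓ LinearMap.ker (zQ R2).vecMulLinear
  have hN1 : ∀ f, f ∈ N ↔ f ∈ M ∧ f ᵥ* zQ R2 = 0 := by
    intro f
    rw [Submodule.mem_inf, LinearMap.mem_ker]
    rfl
  have hM : ∀ f ∈ M, f ᵥ* FT.toQ (winE A p) ∈ M := fun f hf => hD.inv f hf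
  have heqv : ∀ f ∈ M, f ᵥ* FT.toQ (winE A p) ᵥ* zQ R2 = f ᵥ* zQ R2 ᵥ* FT.toQ B := by
    intro f hf
    have h1 : f ᵥ* FT.toQ (winE A p) ᵥ* zQ R = f ᵥ* zQ R ᵥ* FT.toQ (lineF B) := hD.eqv f hf
    rw [hzR2, ← Matrix.vecMul_vecMul, h1, ← lineTS, toQ_mul, ← Matrix.vecMul_vecMul,
      ← Matrix.vecMul_vecMul, Matrix.vecMul_vecMul _ (FT.toQ (lineS B)), ← toQ_mul, lineST]
  have hN : ∀ f ∈ N, f ᵥ* FT.toQ (winE A p) ∈ N := by
    intro f hf
    rw [hN1] at hf ⊢
    refine ⟨hM f hf.1, ?_⟩
    rw [heqv f hf.1, hf.2, Matrix.zero_vecMul]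
  refine ⟨Win A p, inferInstance, inferInstance, p + 1, winE A p, winX A p, winY A p, M, N,
    hM, hN, Matrix.of fun j v => fe (ei j) v, R2, winEX, winYE (win_sur hA), winYX (win_sur hA), winXY, hN1,
    fun j => hfeM (ei j), ?_, heqv, ?_⟩
  · -- m R = 1
    ext i j
    have h1 : ∀ e : Edge B, ∑ v, fe (ei i) v * R v e = if e = ei i then 1 else 0 := by
      intro e
      have h2 := congrFun (hfeR (ei i)) e
      simp only [Matrix.vecMul, dotProduct, Matrix.map_apply, Pi.single_apply] at h2
      have h3 : ((∑ v, fe (ei i) v * R v e : ℤ) : ℚ) = (((if e = ei i then 1 else 0 : ℤ)) : ℚ) := by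
        push_cast
        rw [h2]
        push_cast
        rfl
      exact_mod_cast h3
    rw [Matrix.mul_apply]
    simp only [R2, Matrix.mul_apply, Finset.mul_sum, Matrix.of_apply]
    rw [Finset.sum_comm]
    have h4 : ∀ e : Edge B, ∑ v, fe (ei i) v * (R v e * T e j) =
        (if e = ei i then 1 else 0) * T e j := by
      intro e
      rw [← h1, Finset.sum_mul]
      exact Finset.sum_congr rfl fun v _ => by ring
    rw [Finset.sum_congr rfl fun e _ => h4 e]
    simp only [ite_mul, one_mul, zero_mul]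
    rw [Finset.sum_ite_eq' Finset.univ, if_pos (Finset.mem_univ _), Matrix.one_apply]
    simp only [T, lineT, Matrix.map_apply, hei, Nat.cast_ite, Nat.cast_one, Nat.cast_zero]
  · -- traces
    intro k hk htr
    have hdiag : ∀ j, (B ^ k) j j = 0 := by
      intro j
      have h1 : ∑ j, (B ^ k) j j = 0 := htr
      exact Finset.sum_eq_zero_iff.mp h1 j (Finset.mem_univ _)
    have hzero : ∀ u v : Win A p, tgt (π u) = tgt (π v) →
        (FT.toQ (winE A p) ^ k) u v = 0 := by
      intro u v huv
      rw [← toQ_pow]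
      simp only [FT.toQ, Matrix.map_apply]
      by_contra hne
      have h1 : (winE A p ^ k) u v ≠ 0 := fun h => hne (by rw [h]; norm_num)
      -- the image path
      have h2 : ∀ (n : ℕ) (u : Win A p), (winE A p ^ n) u v ≠ 0 →
          (lineF B ^ n) (π u) (π v) ≠ 0 := by
        intro n
        induction n with
        | zero =>
          intro u h
          rw [pow_zero, Matrix.one_apply] at h ⊢
          have h3 : u = v := by
            by_contra hn
            exact h (if_neg hn)
          rw [h3, if_pos rfl]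
          exact one_ne_zero
        | succ n ih =>
          intro u h
          rw [pow_succ', Matrix.mul_apply] at h ⊢
          obtain ⟨w, _, hw⟩ := Finset.exists_ne_zero_of_sum_ne_zero h
          have h3 := ih w (right_ne_zero_of_mul hw)
          have h4 := hG.hom u w (left_ne_zero_of_mul hw)
          intro h5
          have h6 := Finset.sum_eq_zero_iff.mp h5 (π w) (Finset.mem_univ _)
          exact mul_ne_zero h4 h3 h6
      have h3 := h2 k u h1
      obtain ⟨n, rfl⟩ := Nat.exists_eq_succ_of_ne_zero hk.ne'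
      rw [Nat.succ_eq_add_one, lineF_apply] at h3
      have h4 := hdiag (tgt (π v))
      rw [Nat.succ_eq_add_one, pow_succ, Matrix.mul_apply] at h4
      have h5 := Finset.sum_eq_zero_iff.mp h4 (src (π v)) (Finset.mem_univ _)
      rw [huv] at h3
      have h6 : B (src (π v)) (tgt (π v)) ≠ 0 := by
        have h7 := (π v).2
        intro h8
        have h9 : (π v).2.1 < B (src (π v)) (tgt (π v)) := (π v).2.2
        omega
      exact mul_ne_zero h3 h6 h5
    have hgradM : ∀ j : Fin b, ∀ f ∈ M, (fun v => if tgt (π v) = j then f v else 0) ∈ M := by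
      intro j f hf
      have h1 : (fun v => if tgt (π v) = j then f v else 0) =
          ∑ e : Edge B, if tgt e = j then (fun v => if π v = e then f v else 0) else 0 := by
        funext v
        rw [Finset.sum_apply]
        have h2 : ∀ e : Edge B, (if tgt e = j then (fun v => if π v = e then f v else 0) else
            (0 : Win A p → ℚ)) v = if e = π v then (if tgt e = j then f v else 0) else 0 := by
          intro e
          by_cases h3 : tgt e = j
          · rw [if_pos h3]
            by_cases h4 : π v = e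
            · simp [h4, h3]
            · simp [h4, Ne.symm h4]
          · rw [if_neg h3]
            simp [h3]
        simp_rw [h2]
        rw [Finset.sum_ite_eq' Finset.univ, if_pos (Finset.mem_univ _)]
      rw [h1]
      apply Submodule.sum_mem
      intro e _
      split_ifs
      · exact hD.grad e f hf
      · exact M.zero_mem
    have hgradN : ∀ j : Fin b, ∀ f ∈ N, (fun v => if tgt (π v) = j then f v else 0) ∈ N := by
      intro j f hf
      rw [hN1] at hf ⊢
      refine ⟨hgradM j f hf.1, ?_⟩
      have hsup : ∀ (v : Win A p) (i : Fin b), tgt (π v) ≠ i → R2 v i = 0 := by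
        intro v i hvi
        simp only [R2, Matrix.mul_apply]
        apply Finset.sum_eq_zero
        intro e _
        by_cases he : π v = e
        · have h1 : T e i = 0 := by
            simp only [T, lineT, Matrix.map_apply]
            rw [if_neg (by rw [← he]; exact hvi), Nat.cast_zero]
          rw [h1, mul_zero]
        · rw [hD.supp v e he, zero_mul]
      funext i
      by_cases hij : i = j
      · have h1 := congrFun hf.2 i
        rw [← h1]
        simp only [Matrix.vecMul, dotProduct]
        refine Finset.sum_congr rfl fun v _ => ?_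
        by_cases hv : tgt (π v) = j
        · rw [if_pos hv]
        · rw [if_neg hv]
          simp only [zQ, Matrix.map_apply]
          rw [hsup v i (by rw [hij]; exact hv), Int.cast_zero, mul_zero, mul_zero]
      · simp only [Matrix.vecMul, dotProduct, Pi.zero_apply]
        apply Finset.sum_eq_zero
        intro v _
        by_cases hv : tgt (π v) = j
        · simp only [zQ, Matrix.map_apply]
          rw [hsup v i (by rw [hv]; exact Ne.symm hij), Int.cast_zero, mul_zero]
        · rw [if_neg hv, zero_mul]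
    have hMk : ∀ f ∈ M, f ᵥ* FT.toQ (winE A p) ^ k ∈ M := by
      intro f hf
      clear htr hdiag hzero hk
      induction k with
      | zero => rwa [pow_zero, Matrix.vecMul_one]
      | succ k ih =>
        rw [pow_succ, ← Matrix.vecMul_vecMul]
        exact hM _ ih
    have hNk : ∀ f ∈ N, f ᵥ* FT.toQ (winE A p) ^ k ∈ N := by
      intro f hf
      clear htr hdiag hzero hk hMk
      induction k with
      | zero => rwa [pow_zero, Matrix.vecMul_one]
      | succ k ih =>
        rw [pow_succ, ← Matrix.vecMul_vecMul]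
        exact hN _ ih
    constructor
    · rw [restrict_pow _ M hM k hMk]
      exact trace_graded (fun v => tgt (π v)) _ hzero M hMk hgradM
    · rw [restrict_pow _ N hN k hNk]
      exact trace_graded (fun v => tgt (π v)) _ hzero N hNk hgradN

end Pool.Agent.FT
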