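import Pool.Agent.FT.Example
import Pool.Agent.FT.EvRange

/-! The explicit pair violates the dimension condition with traces (project FT, helper88). -/

namespace Pool.Agent.FT

open Matrix

theorem vecMul_pow_eigen {n : ℕ} {A : Matrix (Fin n) (Fin n) ℕ} {v : Fin n → ℚ} {μ : ℚ}
    (h : v ᵥ* toQ A = μ • v) (k : ℕ) : v ᵥ* toQ A ^ k = μ ^ k • v := by
  induction k with
  | zero => simp
  | succ k ih =>
    rw [pow_succ, ← Matrix.vecMul_vecMul, ih, Matrix.smul_vecMul, h, smul_smul, ← pow_succ]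

theorem eigen_mem_evRange {n : ℕ} {A : Matrix (Fin n) (Fin n) ℕ} {v : Fin n → ℚ} {μ : ℚ}
    (h : v ᵥ* toQ A = μ • v) (hμ : μ ≠ 0) : v ∈ evRange A := by
  refine ⟨(μ ^ n)⁻¹ • v, ?_⟩
  rw [Matrix.vecMulLinear_apply, Matrix.smul_vecMul, vecMul_pow_eigen h, smul_smul,
    inv_mul_cancel₀ (pow_ne_zero _ hμ), one_smul]

theorem evRange_exA (v : Fin 5 → ℚ) : v ∈ evRange exA := by
  rw [decomp v]
  exact (evRange exA).add_mem ((evRange exA).add_mem ((evRange exA).add_mem
    ((evRange exA).add_mem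
      ((evRange exA).smul_mem _ (eigen_mem_evRange la5_A (by norm_num)))
      ((evRange exA).smul_mem _ (eigen_mem_evRange lam2_A (by norm_num))))
      ((evRange exA).smul_mem _ (eigen_mem_evRange lam3_A (by norm_num))))
      ((evRange exA).smul_mem _ (eigen_mem_evRange lam1_A (by norm_num))))
      ((evRange exA).smul_mem _ (eigen_mem_evRange la1_A (by norm_num)))

theorem evRange_exB (v : Fin 3 → ℚ) : v ∈ evRange exB := by
  rw [decompB v]
  exact (evRange exB).add_mem ((evRange exB).add_mem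
      ((evRange exB).smul_mem _ (eigen_mem_evRange lb5_B (by norm_num)))
      ((evRange exB).smul_mem _ (eigen_mem_evRange lbm2_B (by norm_num))))
      ((evRange exB).smul_mem _ (eigen_mem_evRange lbm3_B (by norm_num)))

theorem int_mem_A (z : Fin 5 → ℤ) {v : Fin 5 → ℚ} (h : ∀ j, v j = z j) : v ∈ dimGroup exA :=
  ⟨evRange_exA v, 0, z, fun j => by simpa using h j⟩

theorem int_mem_B (z : Fin 3 → ℤ) {v : Fin 3 → ℚ} (h : ∀ j, v j = z j) : v ∈ dimGroup exB :=
  ⟨evRange_exB v, 0, z, fun j => by simpa using h j⟩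

theorem trace_exB : (exB ^ 1).trace = 0 := by
  simp [exB, Matrix.trace, Fin.sum_univ_three]

theorem trace_ne {U : Submodule ℚ (Fin 5 → ℚ)} (hU : ∀ w ∈ U, w ᵥ* toQ exA ∈ U) {μ : ℚ}
    (hμ : μ ≠ 0) (h : ∀ u ∈ U, u ᵥ* toQ exA = μ • u) {l : Fin 5 → ℚ} (hl : l ∈ U) (hl0 : l ≠ 0) :
    LinearMap.trace ℚ U ((restr exA U hU) ^ 1) ≠ 0 := by
  have h1 : (restr exA U hU) ^ 1 = μ • (1 : Module.End ℚ U) := by
    rw [pow_one]
    apply LinearMap.ext
    intro x
    apply Subtype.ext
    change (x : Fin 5 → ℚ) ᵥ* toQ exA = μ • (x : Fin 5 → ℚ)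
    exact h x x.2
  rw [h1, map_smul, LinearMap.trace_one, smul_eq_mul]
  refine mul_ne_zero hμ ?_
  have : Nontrivial U := ⟨⟨l, hl⟩, 0, fun h => hl0 (congrArg Subtype.val h)⟩
  exact_mod_cast (Module.finrank_pos (R := ℚ) (M := U)).ne'

theorem rb5_pow (y : Fin 3 → ℚ) (k : ℕ) : rb5 (y ᵥ* toQ exB ^ k) = 5 ^ k * rb5 y := by
  induction k with
  | zero => simp
  | succ k ih =>
    rw [pow_succ, ← Matrix.vecMul_vecMul, vecMul_exB]
    have : rb5 ![(y ᵥ* toQ exB ^ k) 1 + 3 * (y ᵥ* toQ exB ^ k) 2,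
        (y ᵥ* toQ exB ^ k) 0 + (y ᵥ* toQ exB ^ k) 2,
        3 * (y ᵥ* toQ exB ^ k) 0 + 9 * (y ᵥ* toQ exB ^ k) 1] = 5 * rb5 (y ᵥ* toQ exB ^ k) := by
      simp [rb5]
      ring
    rw [this, ih]
    ring

theorem ra5_pow (y : Fin 5 → ℚ) (k : ℕ) : ra5 (y ᵥ* toQ exA ^ k) = 5 ^ k * ra5 y := by
  induction k with
  | zero => simp
  | succ k ih =>
    rw [pow_succ, ← Matrix.vecMul_vecMul, vecMul_exA]
    generalize y ᵥ* toQ exA ^ k = w at *
    have : ra5 ![w 1 + 3 * w 2 + w 3 + w 4, 2 * w 0 + 2 * w 3 + w 4, w 0,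
        w 0 + 3 * w 1 + w 2 + 3 * w 4, w 0 + w 1 + w 2 + 2 * w 3] = 5 * ra5 w := by
      simp [ra5]
      ring
    rw [this, ih]
    ring

theorem ram3_pow (y : Fin 5 → ℚ) (k : ℕ) : ram3 (y ᵥ* toQ exA ^ k) = (-3) ^ k * ram3 y := by
  induction k with
  | zero => simp
  | succ k ih =>
    rw [pow_succ, ← Matrix.vecMul_vecMul, vecMul_exA]
    generalize y ᵥ* toQ exA ^ k = w at *
    have : ram3 ![w 1 + 3 * w 2 + w 3 + w 4, 2 * w 0 + 2 * w 3 + w 4, w 0,
        w 0 + 3 * w 1 + w 2 + 3 * w 4, w 0 + w 1 + w 2 + 2 * w 3] = -3 * ram3 w := by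
      simp [ram3]
      ring
    rw [this, ih]
    ring

theorem odd_int_pow5 (k : ℕ) : ¬ (2 : ℤ) ∣ 5 ^ k := by
  intro h
  have := (Int.prime_two.dvd_of_dvd_pow h)
  norm_num at this

theorem odd_int_pow3 (k : ℕ) : ¬ (2 : ℤ) ∣ (-3) ^ k := by
  intro h
  have := (Int.prime_two.dvd_of_dvd_pow h)
  norm_num at this

theorem not_traceDim : ¬ TraceDimCondition exA exB := by
  rintro ⟨W, U, hW, hU, ψ, hUW, -, hint, hker, hdim, htr⟩
  obtain ⟨-, htU⟩ := htr 1 one_pos trace_exB
  -- values on the eigenvectors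
  have hb : ∀ y : Fin 3 → ℚ, y ∈ dimGroup exB → ∃ w ∈ W, w ∈ dimGroup exA ∧ ψ w = y :=
    fun y hy => (hdim y).1 hy
  have hb5 : lb5 ∈ dimGroup exB := int_mem_B ![2, 1, 3] (by intro j; fin_cases j <;> simp [lb5])
  have hbm2 : lbm2 ∈ dimGroup exB :=
    int_mem_B ![-5, 1, 3] (by intro j; fin_cases j <;> simp [lbm2])
  have hbm3 : lbm3 ∈ dimGroup exB :=
    int_mem_B ![1, 0, -1] (by intro j; fin_cases j <;> simp [lbm3])
  have nb5 : lb5 ≠ 0 := fun h => by have := congrFun h 1; simp [lb5] at this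
  have nbm2 : lbm2 ≠ 0 := fun h => by have := congrFun h 1; simp [lbm2] at this
  have nbm3 : lbm3 ≠ 0 := fun h => by have := congrFun h 0; simp [lbm3] at this
  -- la5
  obtain ⟨w5, hw5, -, hw5'⟩ := hb _ hb5
  have e5 := psi5 hW hw5 hint
  rw [hw5'] at e5
  have v5 : rb5 lb5 = 7 := by simp [rb5, lb5]; norm_num
  have hc5 : ra5 w5 ≠ 0 := by
    intro h
    rw [h, zero_smul, v5] at e5
    exact nb5 ((smul_eq_zero.1 e5.symm).resolve_left (by norm_num))
  have m5 : la5 ∈ W := by
    have := W.smul_mem (ra5 w5)⁻¹ (comp5 hW hw5)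
    rwa [smul_smul, inv_mul_cancel₀ hc5, one_smul] at this
  have n5 : ψ la5 ≠ 0 := by
    intro h
    rw [h, smul_zero, v5] at e5
    exact nb5 ((smul_eq_zero.1 e5.symm).resolve_left (by norm_num))
  -- lam2
  obtain ⟨w2, hw2, -, hw2'⟩ := hb _ hbm2
  have e2 := psim2 hW hw2 hint
  rw [hw2'] at e2
  have v2 : rbm2 lbm2 = -7 := by simp [rbm2, lbm2]; norm_num
  have hc2 : ram2 w2 ≠ 0 := by
    intro h
    rw [h, zero_smul, v2] at e2
    exact nbm2 ((smul_eq_zero.1 e2.symm).resolve_left (by norm_num))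
  have m2 : lam2 ∈ W := by
    have := W.smul_mem (ram2 w2)⁻¹ (compm2 hW hw2)
    rwa [smul_smul, inv_mul_cancel₀ hc2, one_smul] at this
  have n2 : ψ lam2 ≠ 0 := by
    intro h
    rw [h, smul_zero, v2] at e2
    exact nbm2 ((smul_eq_zero.1 e2.symm).resolve_left (by norm_num))
  -- lam3
  obtain ⟨w3, hw3, hw3A, hw3'⟩ := hb _ hbm3
  have e3 := psim3 hW hw3 hint
  rw [hw3'] at e3
  have v3 : rbm3 lbm3 = -1 := by simp [rbm3, lbm3]
  have hc3 : ram3 w3 ≠ 0 := by
    intro h
    rw [h, zero_smul, v3] at e3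
    exact nbm3 ((smul_eq_zero.1 e3.symm).resolve_left (by norm_num))
  have m3 : lam3 ∈ W := by
    have := W.smul_mem (ram3 w3)⁻¹ (compm3 hW hw3)
    rwa [smul_smul, inv_mul_cancel₀ hc3, one_smul] at this
  have n3 : ψ lam3 ≠ 0 := by
    intro h
    rw [h, smul_zero, v3] at e3
    exact nbm3 ((smul_eq_zero.1 e3.symm).resolve_left (by norm_num))
  -- elements killed by ψ
  have k5 : ∀ v ∈ W, rb5 (ψ v) = 0 → ra5 v = 0 := by
    intro v hv h
    have := psi5 hW hv hint
    rw [h, mul_zero, zero_smul] at this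
    exact (smul_eq_zero.1 this).resolve_right n5
  have k2 : ∀ v ∈ W, rbm2 (ψ v) = 0 → ram2 v = 0 := by
    intro v hv h
    have := psim2 hW hv hint
    rw [h, mul_zero, zero_smul] at this
    exact (smul_eq_zero.1 this).resolve_right n2
  have k3 : ∀ v ∈ W, rbm3 (ψ v) = 0 → ram3 v = 0 := by
    intro v hv h
    have := psim3 hW hv hint
    rw [h, mul_zero, zero_smul] at this
    exact (smul_eq_zero.1 this).resolve_right n3
  have km1 : ∀ v ∈ W, lam1 ∉ U → ram1 v = 0 := by
    intro v hv hn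
    by_contra hne
    have h1 : ram1 v • lam1 ∈ U := (hker _ (compm1 hW hv)).1 (psim1 hW hv hint)
    have := U.smul_mem (ram1 v)⁻¹ h1
    rw [smul_smul, inv_mul_cancel₀ hne, one_smul] at this
    exact hn this
  have k1 : ∀ v ∈ W, la1 ∉ U → ra1 v = 0 := by
    intro v hv hn
    by_contra hne
    have h1 : ra1 v • la1 ∈ U := (hker _ (comp1 hW hv)).1 (psi1 hW hv hint)
    have := U.smul_mem (ra1 v)⁻¹ h1
    rw [smul_smul, inv_mul_cancel₀ hne, one_smul] at this
    exact hn this
  have hU0 : ∀ u ∈ U, ra5 u = 0 ∧ ram2 u = 0 ∧ ram3 u = 0 := by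
    intro u hu
    have h0 : ψ u = 0 := (hker u (hUW hu)).2 hu
    exact ⟨k5 u (hUW hu) (by rw [h0]; simp [rb5]), k2 u (hUW hu) (by rw [h0]; simp [rbm2]),
      k3 u (hUW hu) (by rw [h0]; simp [rbm3])⟩
  by_cases h1 : lam1 ∈ U
  · by_cases h2 : la1 ∈ U
    · -- U contains both: W is everything
      have hWtop : ∀ v, v ∈ W := by
        intro v
        rw [decomp v]
        exact W.add_mem (W.add_mem (W.add_mem (W.add_mem (W.smul_mem _ m5) (W.smul_mem _ m2))
          (W.smul_mem _ m3)) (W.smul_mem _ (hUW h1))) (W.smul_mem _ (hUW h2))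
      set s : ℚ := rb5 (ψ la5) / 7 with hs
      have hs5 : ψ la5 = s • lb5 := by
        have := psi5 hW m5 hint
        have r5 : ra5 la5 = 168 := by simp [ra5, la5]; norm_num
        rw [r5] at this
        have h3 := congrArg (fun x => (1 / 168 : ℚ) • x) this
        simp only [smul_smul] at h3
        rw [show (1 / 168 : ℚ) * 168 = 1 by norm_num, one_smul] at h3
        rw [h3, hs]
        congr 1
        ring
      have hfun : ∀ v, rb5 (ψ v) = s / 24 * ra5 v := by
        intro v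
        have := psi5 hW (hWtop v) hint
        rw [hs5, smul_smul] at this
        have h3 := congrFun this 1
        simp only [Pi.smul_apply, smul_eq_mul] at h3
        have : lb5 1 = 1 := by simp [lb5]
        rw [this] at h3
        linarith
      -- first unit
      have he1 : (![1, 0, 0, 0, 0] : Fin 5 → ℚ) ∈ dimGroup exA :=
        int_mem_A ![1, 0, 0, 0, 0] (by intro j; fin_cases j <;> simp)
      obtain ⟨-, k, z, hz⟩ := (hdim _).2 ⟨_, hWtop _, he1, rfl⟩
      have hz' : ψ ![1, 0, 0, 0, 0] ᵥ* toQ exB ^ k = fun j => (z j : ℚ) := funext hz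
      have hC : ((z 0 + 2 * z 1 + z 2 : ℤ) : ℚ) = 5 ^ k * (s / 24) := by
        have h3 := rb5_pow (ψ ![1, 0, 0, 0, 0]) k
        rw [hz', hfun] at h3
        have h4 : ra5 ![1, 0, 0, 0, 0] = 1 := by simp [ra5]
        rw [h4, mul_one] at h3
        rw [← h3]
        simp [rb5]
      -- the vector over (1,0,0)
      have hy : (![1, 0, 0] : Fin 3 → ℚ) ∈ dimGroup exB :=
        int_mem_B ![1, 0, 0] (by intro j; fin_cases j <;> simp)
      obtain ⟨w, hw, ⟨-, l, q, hq⟩, hwy⟩ := hb _ hy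
      have hr3 : ram3 w = 0 := k3 w hw (by rw [hwy]; simp [rbm3])
      have hr5 : s / 24 * ra5 w = 1 := by
        rw [← hfun, hwy]
        simp [rb5]
      have hq' : w ᵥ* toQ exA ^ l = fun j => (q j : ℚ) := funext hq
      have h5 := ra5_pow w l
      have h3 := ram3_pow w l
      rw [hq'] at h5 h3
      rw [hr3, mul_zero] at h3
      have hD : 5 ^ l * ra5 w = ((2 * (q 0 + q 3) : ℤ) : ℚ) := by
        rw [← h5]
        have : ra5 (fun j => (q j : ℚ)) - ram3 (fun j => (q j : ℚ)) = 2 * (q 0 + q 3) := by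
          simp only [ra5, ram3]
          ring
        rw [h3, sub_zero] at this
        rw [this]
        push_cast
        ring
      have hfin : ((z 0 + 2 * z 1 + z 2) * (2 * (q 0 + q 3)) : ℤ) = 5 ^ (k + l) := by
        have : (((z 0 + 2 * z 1 + z 2) * (2 * (q 0 + q 3)) : ℤ) : ℚ) = ((5 ^ (k + l) : ℤ) : ℚ) := by
          rw [Int.cast_mul, hC, ← hD]
          push_cast
          rw [pow_add]
          calc (5 : ℚ) ^ k * (s / 24) * (5 ^ l * ra5 w)
              = 5 ^ k * 5 ^ l * (s / 24 * ra5 w) := by ring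
            _ = 5 ^ k * 5 ^ l := by rw [hr5, mul_one]
        exact_mod_cast this
      exact odd_int_pow5 (k + l) ⟨(z 0 + 2 * z 1 + z 2) * (q 0 + q 3), by rw [← hfin]; ring⟩
    · refine trace_ne hU (μ := -1) (by norm_num) (fun u hu => ?_) h1 ?_ htU
      · obtain ⟨a1, a2, a3⟩ := hU0 u hu
        have a4 := k1 u (hUW hu) h2
        have := decomp u
        rw [a1, a2, a3, a4] at this
        simp only [zero_div, zero_smul, zero_add, add_zero] at this
        rw [this, Matrix.smul_vecMul, lam1_A, smul_comm]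
      · intro h
        have := congrFun h 1
        simp [lam1] at this
  · by_cases h2 : la1 ∈ U
    · refine trace_ne hU (μ := 1) (by norm_num) (fun u hu => ?_) h2 ?_ htU
      · obtain ⟨a1, a2, a3⟩ := hU0 u hu
        have a4 := km1 u (hUW hu) h1
        have := decomp u
        rw [a1, a2, a3, a4] at this
        simp only [zero_div, zero_smul, zero_add, add_zero] at this
        rw [this, Matrix.smul_vecMul, la1_A, smul_comm]
      · intro h
        have := congrFun h 1
        simp [la1] at this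
    · -- U = 0
      set s : ℚ := rb5 (ψ la5) / 7 with hs
      have hs5 : ψ la5 = s • lb5 := by
        have := psi5 hW m5 hint
        have r5 : ra5 la5 = 168 := by simp [ra5, la5]; norm_num
        rw [r5] at this
        have h3 := congrArg (fun x => (1 / 168 : ℚ) • x) this
        simp only [smul_smul] at h3
        rw [show (1 / 168 : ℚ) * 168 = 1 by norm_num, one_smul] at h3
        rw [h3, hs]
        congr 1
        ring
      set t : ℚ := -rbm3 (ψ lam3) with ht
      have ht3 : ψ lam3 = t • lbm3 := by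
        have := psim3 hW m3 hint
        have r5 : ram3 lam3 = 4 := by simp [ram3, lam3]; norm_num
        rw [r5] at this
        have h3 := congrArg (fun x => (1 / 4 : ℚ) • x) this
        simp only [smul_smul] at h3
        rw [show (1 / 4 : ℚ) * 4 = 1 by norm_num, one_smul] at h3
        rw [h3, ht]
        congr 1
        ring
      -- integrality of s
      have hla5 : la5 ∈ dimGroup exA :=
        int_mem_A ![30, 41, 6, 54, 37] (by intro j; fin_cases j <;> simp [la5])
      have hlam3 : lam3 ∈ dimGroup exA :=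
        int_mem_A ![0, 1, 0, -2, 1] (by intro j; fin_cases j <;> simp [lam3])
      obtain ⟨-, k, S, hS⟩ := (hdim _).2 ⟨_, m5, hla5, rfl⟩
      rw [hs5] at hS
      have hS1 : (S 1 : ℚ) = s * 5 ^ k := by
        rw [← hS 1, Matrix.smul_vecMul, vecMul_pow_eigen lb5_B]
        simp [lb5]
      obtain ⟨-, l, T, hT⟩ := (hdim _).2 ⟨_, m3, hlam3, rfl⟩
      rw [ht3] at hT
      have hT0 : (T 0 : ℚ) = t * (-3) ^ l := by
        rw [← hT 0, Matrix.smul_vecMul, vecMul_pow_eigen lbm3_B]
        simp [lbm3]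
      -- the inverse of t
      have hw3d : w3 = (ram3 w3 / 4) • lam3 := by
        have a1 := k5 w3 hw3 (by rw [hw3']; simp [rb5, lbm3])
        have a2 := k2 w3 hw3 (by rw [hw3']; simp [rbm2, lbm3])
        have a3 := km1 w3 hw3 h1
        have a4 := k1 w3 hw3 h2
        have := decomp w3
        rw [a1, a2, a3, a4] at this
        simpa only [zero_div, zero_smul, zero_add, add_zero] using this
      set c : ℚ := ram3 w3 / 4 with hc
      have hct : c * t = 1 := by
        rw [hw3d, map_smul, ht3, smul_smul] at hw3'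
        have := congrFun hw3' 0
        simpa [lbm3] using this
      obtain ⟨-, n, C, hC⟩ := hw3A
      rw [hw3d] at hC
      have hC1 : (C 1 : ℚ) = c * (-3) ^ n := by
        rw [← hC 1, Matrix.smul_vecMul, vecMul_pow_eigen lam3_A]
        simp [lam3]
      have hTodd : ¬ (2 : ℤ) ∣ T 0 := by
        intro hd
        have : (T 0 * C 1 : ℤ) = (-3) ^ (l + n) := by
          have : ((T 0 * C 1 : ℤ) : ℚ) = (((-3) ^ (l + n) : ℤ) : ℚ) := by
            rw [Int.cast_mul, hT0, hC1]
            push_cast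
            rw [pow_add]
            calc t * (-3) ^ l * (c * (-3) ^ n) = (c * t) * ((-3) ^ l * (-3) ^ n) := by ring
              _ = _ := by rw [hct, one_mul]
          exact_mod_cast this
        apply odd_int_pow3 (l + n)
        rw [← this]
        exact hd.mul_right _
      -- the half difference
      have hv0W : (![15, 20, 3, 28, 18] : Fin 5 → ℚ) = (1 / 2 : ℚ) • (la5 - lam3) := by
        ext i
        fin_cases i <;> simp [la5, lam3] <;> norm_num
      have hv0A : (![15, 20, 3, 28, 18] : Fin 5 → ℚ) ∈ dimGroup exA :=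
        int_mem_A ![15, 20, 3, 28, 18] (by intro j; fin_cases j <;> simp)
      have hv0 : (![15, 20, 3, 28, 18] : Fin 5 → ℚ) ∈ W := by
        rw [hv0W]
        exact W.smul_mem _ (W.sub_mem m5 m3)
      obtain ⟨-, e, z, hz⟩ := (hdim _).2 ⟨_, hv0, hv0A, rfl⟩
      have hz0 := hz 0
      rw [hv0W, map_smul, map_sub, hs5, ht3, Matrix.smul_vecMul, Matrix.sub_vecMul,
        Matrix.smul_vecMul, Matrix.smul_vecMul, vecMul_pow_eigen lb5_B,
        vecMul_pow_eigen lbm3_B] at hz0
      simp only [Pi.smul_apply, Pi.sub_apply, smul_eq_mul] at hz0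
      have q1 : lb5 0 = 2 := by simp [lb5]
      have q2 : lbm3 0 = 1 := by simp [lbm3]
      rw [q1, q2] at hz0
      -- 2 s 5^e - t (-3)^e = 2 z0
      have hfin : (T 0 * ((-3) ^ e * 5 ^ k) : ℤ) =
          2 * (S 1 * 5 ^ e * (-3) ^ l - z 0 * 5 ^ k * (-3) ^ l) := by
        have : ((T 0 * ((-3) ^ e * 5 ^ k) : ℤ) : ℚ) =
            ((2 * (S 1 * 5 ^ e * (-3) ^ l - z 0 * 5 ^ k * (-3) ^ l) : ℤ) : ℚ) := by
          push_cast
          rw [hT0, hS1, ← hz0]
          ring
        exact_mod_cast this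
      have hdvd : (2 : ℤ) ∣ T 0 * ((-3) ^ e * 5 ^ k) := ⟨_, hfin⟩
      rcases Int.prime_two.dvd_or_dvd hdvd with h | h
      · exact hTodd h
      · rcases Int.prime_two.dvd_or_dvd h with h | h
        · exact odd_int_pow3 e h
        · exact odd_int_pow5 k h

end Pool.Agent.FT
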