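import Pool.Agent.FT.Example
import Pool.Agent.FT.Count

/-! Periodic point condition of the explicit pair (project FT). -/

namespace Pool.Agent.FT

theorem exA_no_fixed : ¬ ∃ x ∈ edgeShift exA, ∀ i : ℤ, x (i + (1 : ℕ)) = x i := by
  rintro ⟨x, hx, hp⟩
  have h1 : tgt (x 0) = src (x (0 + 1)) := hx 0
  have h2 : x (0 + 1) = x 0 := by
    have := hp 0
    rwa [Nat.cast_one] at this
  rw [h2] at h1
  generalize x 0 = e at h1
  obtain ⟨⟨a, b⟩, k⟩ := e
  have h3 : b = a := h1
  subst h3
  have h4 : exA b b = 0 := by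
    fin_cases b <;> rfl
  have h5 := k.2
  have h6 : (k : ℕ) < exA b b := h5
  omega

theorem exB_pos (a b : Fin 3) (h : a ≠ b) : 0 < exB a b := by
  fin_cases a <;> fin_cases b <;> first | exact absurd rfl h | decide

/-- the first edge from `a` to `b` -/
def mkE (a b : Fin 3) (h : a ≠ b) : Edge exB := ⟨(a, b), ⟨0, exB_pos a b h⟩⟩

theorem mkE_congr {a b a' b' : Fin 3} (ha : a = a') (hb : b = b') (h : a ≠ b) (h' : a' ≠ b') :
    mkE a b h = mkE a' b' h' := by
  subst ha
  subst hb
  rfl

/-- vertices of a closed walk of length `n` -/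
def cw (n k : ℕ) : Fin 3 :=
  if k + 1 = n then (if n % 2 = 0 then 1 else 2) else (if k % 2 = 0 then 0 else 1)

theorem cw_succ {n k : ℕ} (hn : 2 ≤ n) (hk : k + 1 < n) : cw n k ≠ cw n (k + 1) := by
  unfold cw
  rw [if_neg (by omega : ¬ k + 1 = n)]
  by_cases h : k + 1 + 1 = n
  · rw [if_pos h]
    rcases Nat.mod_two_eq_zero_or_one k with h1 | h1
    · rw [if_pos h1, if_pos (by omega : n % 2 = 0)]
      decide
    · rw [if_neg (by omega), if_neg (by omega)]
      decide
  · rw [if_neg h]
    rcases Nat.mod_two_eq_zero_or_one k with h1 | h1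
    · rw [if_pos h1, if_neg (by omega : ¬ (k + 1) % 2 = 0)]
      decide
    · rw [if_neg (by omega), if_pos (by omega)]
      decide

theorem cw_last {n : ℕ} (hn : 2 ≤ n) : cw n (n - 1) ≠ cw n 0 := by
  have h1 : cw n 0 = 0 := by
    unfold cw
    rw [if_neg (by omega), if_pos (by rfl)]
  have h2 : cw n (n - 1) = if n % 2 = 0 then 1 else 2 := by
    unfold cw
    rw [if_pos (by omega)]
  rw [h1, h2]
  split_ifs <;> decide

theorem exB_periodic (n : ℕ) (hn : 2 ≤ n) : ∃ y ∈ edgeShift exB, ∀ i : ℤ, y (i + n) = y i := by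
  have hn0 : (n : ℤ) ≠ 0 := by omega
  have hnp : (0 : ℤ) < n := by omega
  set w : ℤ → Fin 3 := fun i => cw n (i % n).toNat with hw
  have hne : ∀ i, w i ≠ w (i + 1) := by
    intro i
    have h0 := Int.emod_nonneg i hn0
    have h1 := Int.emod_lt_of_pos i hnp
    simp only [hw]
    by_cases h : i % n + 1 < n
    · have h2 : (i + 1) % n = i % n + 1 := by
        rw [Int.add_emod]
        have h3 : (1 : ℤ) % n = 1 := Int.emod_eq_of_lt (by norm_num) (by omega)
        rw [h3]
        exact Int.emod_eq_of_lt (by omega) h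
      rw [h2]
      have h4 : (i % n + 1).toNat = (i % n).toNat + 1 := by omega
      rw [h4]
      exact cw_succ hn (by omega)
    · have h2 : (i + 1) % n = 0 := by
        rw [Int.add_emod]
        have h3 : (1 : ℤ) % n = 1 := Int.emod_eq_of_lt (by norm_num) (by omega)
        rw [h3]
        have h4 : i % n + 1 = n := by omega
        rw [h4]
        exact Int.emod_self
      rw [h2]
      have h4 : (i % n).toNat = n - 1 := by omega
      rw [h4]
      exact cw_last hn
  have hper : ∀ i, w (i + n) = w i := by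
    intro i
    simp only [hw]
    rw [Int.add_emod_right]
  refine ⟨fun i => mkE (w i) (w (i + 1)) (hne i), fun i => rfl, fun i => ?_⟩
  exact mkE_congr (hper i) (by rw [show i + n + 1 = (i + 1) + n by ring]; exact hper (i + 1)) _ _

theorem period_example : PeriodCondition (edgeShift exA) (edgeShift exB) := by
  intro n hn h
  rcases Nat.lt_or_ge n 2 with h1 | h1
  · have : n = 1 := by omega
    subst this
    exact absurd h exA_no_fixed
  · exact exB_periodic n h1

end Pool.Agent.FT
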