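import Pool.Agent.FT.Nonexist

/-! Positive cones of the explicit pair (project FT, helper88). -/

namespace Pool.Agent.FT

open Matrix

theorem abs_pow_mul_le {μ c : ℚ} (hμ : |μ| ≤ 3) (k : ℕ) : |μ ^ k * c| ≤ 3 ^ k * |c| := by
  rw [abs_mul, abs_pow]
  exact mul_le_mul_of_nonneg_right (pow_le_pow_left₀ (abs_nonneg _) hμ k) (abs_nonneg _)

theorem exists_dom {a C : ℚ} (ha : 0 < a) : ∃ k : ℕ, 3 ^ k * C ≤ 5 ^ k * a := by
  obtain ⟨k, hk⟩ := pow_unbounded_of_one_lt (C / a) (show (1 : ℚ) < 5 / 3 by norm_num)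
  refine ⟨k, ?_⟩
  rw [div_lt_iff₀ ha, div_pow] at hk
  have h3 : (0 : ℚ) < 3 ^ k := by positivity
  have : 3 ^ k * C ≤ 3 ^ k * (5 ^ k / 3 ^ k * a) := mul_le_mul_of_nonneg_left hk.le h3.le
  calc 3 ^ k * C ≤ 3 ^ k * (5 ^ k / 3 ^ k * a) := this
    _ = 5 ^ k * a := by field_simp

theorem mem_posCone_exA (v : Fin 5 → ℚ) :
    v ∈ posCone exA ↔ v ∈ dimGroup exA ∧ (v = 0 ∨ 0 < ra5 v) := by
  constructor
  · rintro ⟨hv, k, hk⟩
    refine ⟨hv, ?_⟩
    have h1 := ra5_pow v k
    rcases lt_trichotomy (ra5 v) 0 with h | h | h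
    · exfalso
      have h2 : 0 ≤ ra5 (v ᵥ* toQ exA ^ k) := by
        simp only [ra5]
        linarith [hk 0, hk 1, hk 2, hk 3, hk 4]
      have h3 : (0 : ℚ) < 5 ^ k := by positivity
      nlinarith
    · left
      rw [h, mul_zero] at h1
      have h2 : v ᵥ* toQ exA ^ k = 0 := by
        simp only [ra5] at h1
        ext j
        have := hk 0
        have := hk 1
        have := hk 2
        have := hk 3
        have := hk 4
        fin_cases j <;> simp <;> linarith
      exact evR_inj exA (evRange_exA v) k h2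
    · exact Or.inr h
  · rintro ⟨hv, rfl | h⟩
    · exact ⟨hv, 0, fun j => by simp⟩
    · refine ⟨hv, ?_⟩
      obtain ⟨k, hk⟩ := exists_dom (a := 6 * (ra5 v / 168))
        (C := 2 * (|ram2 v / (-21)| + |ram3 v / 4| + |ram1 v / 12| + |ra1 v / 24|))
        (by positivity)
      refine ⟨k, fun j => ?_⟩
      have e : v ᵥ* toQ exA ^ k = (5 ^ k * (ra5 v / 168)) • la5 +
          ((-2) ^ k * (ram2 v / (-21))) • lam2 + ((-3) ^ k * (ram3 v / 4)) • lam3 +
          ((-1) ^ k * (ram1 v / 12)) • lam1 + (1 ^ k * (ra1 v / 24)) • la1 := by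
        conv_lhs => rw [decomp v]
        simp only [Matrix.add_vecMul, Matrix.smul_vecMul, vecMul_pow_eigen la5_A,
          vecMul_pow_eigen lam2_A, vecMul_pow_eigen lam3_A, vecMul_pow_eigen lam1_A,
          vecMul_pow_eigen la1_A, smul_smul]
        simp only [mul_comm]
      have b2 := abs_le.1 (abs_pow_mul_le (μ := -2) (c := ram2 v / (-21)) (by norm_num) k)
      have b3 := abs_le.1 (abs_pow_mul_le (μ := -3) (c := ram3 v / 4) (by norm_num) k)
      have b1 := abs_le.1 (abs_pow_mul_le (μ := -1) (c := ram1 v / 12) (by norm_num) k)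
      have b0 := abs_le.1 (abs_pow_mul_le (μ := 1) (c := ra1 v / 24) (by norm_num) k)
      have p : 0 < 5 ^ k * (ra5 v / 168) := by positivity
      have q2 : 0 ≤ 3 ^ k * |ram2 v / (-21)| := by positivity
      have q3 : 0 ≤ 3 ^ k * |ram3 v / 4| := by positivity
      have q1 : 0 ≤ 3 ^ k * |ram1 v / 12| := by positivity
      have q0 : 0 ≤ 3 ^ k * |ra1 v / 24| := by positivity
      rw [e]
      obtain ⟨b21, b22⟩ := b2
      obtain ⟨b31, b32⟩ := b3
      obtain ⟨b11, b12⟩ := b1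
      obtain ⟨b01, b02⟩ := b0
      fin_cases j <;> simp [la5, lam2, lam3, lam1, la1] <;>
        simp only [one_pow, one_mul] at * <;> linarith

theorem mem_posCone_exB (v : Fin 3 → ℚ) :
    v ∈ posCone exB ↔ v ∈ dimGroup exB ∧ (v = 0 ∨ 0 < rb5 v) := by
  constructor
  · rintro ⟨hv, k, hk⟩
    refine ⟨hv, ?_⟩
    have h1 := rb5_pow v k
    rcases lt_trichotomy (rb5 v) 0 with h | h | h
    · exfalso
      have h2 : 0 ≤ rb5 (v ᵥ* toQ exB ^ k) := by
        simp only [rb5]
        linarith [hk 0, hk 1, hk 2]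
      have h3 : (0 : ℚ) < 5 ^ k := by positivity
      nlinarith
    · left
      rw [h, mul_zero] at h1
      have h2 : v ᵥ* toQ exB ^ k = 0 := by
        simp only [rb5] at h1
        ext j
        have := hk 0
        have := hk 1
        have := hk 2
        fin_cases j <;> simp <;> linarith
      exact evR_inj exB (evRange_exB v) k h2
    · exact Or.inr h
  · rintro ⟨hv, rfl | h⟩
    · exact ⟨hv, 0, fun j => by simp⟩
    · refine ⟨hv, ?_⟩
      obtain ⟨k, hk⟩ := exists_dom (a := rb5 v / 7)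
        (C := 5 * (|rbm2 v / (-7)| + |rbm3 v / (-1)|)) (by positivity)
      refine ⟨k, fun j => ?_⟩
      have e : v ᵥ* toQ exB ^ k = (5 ^ k * (rb5 v / 7)) • lb5 +
          ((-2) ^ k * (rbm2 v / (-7))) • lbm2 + ((-3) ^ k * (rbm3 v / (-1))) • lbm3 := by
        conv_lhs => rw [decompB v]
        simp only [Matrix.add_vecMul, Matrix.smul_vecMul, vecMul_pow_eigen lb5_B,
          vecMul_pow_eigen lbm2_B, vecMul_pow_eigen lbm3_B, smul_smul]
        simp only [mul_comm]
      have b2 := abs_le.1 (abs_pow_mul_le (μ := -2) (c := rbm2 v / (-7)) (by norm_num) k)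
      have b3 := abs_le.1 (abs_pow_mul_le (μ := -3) (c := rbm3 v / (-1)) (by norm_num) k)
      have p : 0 < 5 ^ k * (rb5 v / 7) := by positivity
      have q2 : 0 ≤ 3 ^ k * |rbm2 v / (-7)| := by positivity
      have q3 : 0 ≤ 3 ^ k * |rbm3 v / (-1)| := by positivity
      rw [e]
      obtain ⟨b21, b22⟩ := b2
      obtain ⟨b31, b32⟩ := b3
      fin_cases j <;> simp only [lb5, lbm2, lbm3, Fin.isValue, Fin.zero_eta, Fin.mk_one,
        Fin.reduceFinMk, Pi.add_apply, Pi.smul_apply, Matrix.cons_val_zero, Matrix.cons_val_one,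
        Matrix.cons_val, smul_eq_mul] <;> linarith

end Pool.Agent.FT
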