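import Pool.Agent.FT.Graph
import Pool.Agent.FT.Cond

/-! Transport to the dimension groups. -/

namespace Pool.Agent.FT

open Matrix

/-- traces of positive powers do not see a nilpotent quotient -/
theorem trace_pow_eq {M W : Type} [AddCommGroup M] [Module ℚ M] [FiniteDimensional ℚ M]
    [AddCommGroup W] [Module ℚ W] [FiniteDimensional ℚ W]
    (T : Module.End ℚ M) (S : Module.End ℚ W) (i : W →ₗ[ℚ] M) (hi : Function.Injective i)
    (hTi : ∀ w, T (i w) = i (S w)) (q : ℕ) (hq : ∀ f, ∃ w, i w = (T ^ q) f) (n : ℕ)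
    (hn : 0 < n) : LinearMap.trace ℚ M (T ^ n) = LinearMap.trace ℚ W (S ^ n) := by
  obtain ⟨r, hr⟩ := i.exists_leftInverse_of_injective (LinearMap.ker_eq_bot.mpr hi)
  have hr' : ∀ w, r (i w) = w := fun w => LinearMap.congr_fun hr w
  have hTn : ∀ n w, (T ^ n) (i w) = i ((S ^ n) w) := by
    intro n
    induction n with
    | zero => intro w; rfl
    | succ n ih => intro w; rw [pow_succ', pow_succ', Module.End.mul_apply, ih, hTi]; rfl
  let P : Module.End ℚ M := 1 - i ∘ₗ r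
  have hPi : ∀ w, P (i w) = 0 := by
    intro w
    show i w - i (r (i w)) = 0
    rw [hr', sub_self]
  have hPP : P * P = P := by
    apply LinearMap.ext
    intro f
    show P (P f) = P f
    have h1 : P f = f - i (r f) := rfl
    rw [h1, map_sub, hPi, sub_zero, h1]
  let D : Module.End ℚ M := P * T
  have hDk : ∀ k, D ^ (k + 1) = P * T ^ (k + 1) := by
    intro k
    induction k with
    | zero => rw [zero_add, pow_one, pow_one]
    | succ k ih =>
      rw [pow_succ D, pow_succ T, ih]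
      apply LinearMap.ext
      intro f
      show P ((T ^ (k + 1)) (P (T f))) = P ((T ^ (k + 1)) (T f))
      have h1 : P (T f) = T f - i (r (T f)) := rfl
      rw [h1, map_sub, hTn, map_sub, hPi, sub_zero]
  have hDnil : D ^ (q + 1) = 0 := by
    rw [hDk, pow_succ]
    apply LinearMap.ext
    intro f
    show P ((T ^ q) (T f)) = 0
    obtain ⟨w, hw⟩ := hq (T f)
    rw [← hw, hPi]
  have h1 : T ^ n = T ^ n * (i ∘ₗ r) + T ^ n * P := by
    rw [← mul_add]
    show T ^ n = T ^ n * (i ∘ₗ r + (1 - i ∘ₗ r))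
    rw [add_sub_cancel, mul_one]
  obtain ⟨k, rfl⟩ := Nat.exists_eq_succ_of_ne_zero hn.ne'
  rw [h1, map_add]
  have h2 : LinearMap.trace ℚ M (T ^ (k + 1) * P) = 0 := by
    rw [LinearMap.trace_mul_comm, ← hDk]
    have h3 : IsNilpotent (D ^ (k + 1)) := ⟨q + 1, by
      rw [← pow_mul, mul_comm, pow_mul, hDnil, zero_pow (by omega)]⟩
    exact (LinearMap.isNilpotent_trace_of_isNilpotent h3).eq_zero
  have h4 : LinearMap.trace ℚ M (T ^ (k + 1) * (i ∘ₗ r)) = LinearMap.trace ℚ W (S ^ (k + 1)) := by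
    have h5 : T ^ (k + 1) * (i ∘ₗ r) = (i ∘ₗ S ^ (k + 1)) ∘ₗ r := by
      apply LinearMap.ext
      intro f
      exact hTn (k + 1) (r f)
    rw [h5, LinearMap.trace_comp_comm']
    congr 1
    apply LinearMap.ext
    intro w
    exact hr' _
  rw [Nat.succ_eq_add_one, h2, h4, add_zero]

section Ev

variable {n : ℕ}

theorem vecMulLinear_pow (C : Matrix (Fin n) (Fin n) ℚ) (k : ℕ) :
    (C.vecMulLinear ^ k : Module.End ℚ (Fin n → ℚ)) = (C ^ k).vecMulLinear := by
  induction k with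
  | zero =>
    apply LinearMap.ext
    intro f
    show f = f ᵥ* C ^ 0
    rw [pow_zero, Matrix.vecMul_one]
  | succ k ih =>
    apply LinearMap.ext
    intro f
    rw [pow_succ', ih]
    show f ᵥ* C ^ k ᵥ* C = f ᵥ* C ^ (k + 1)
    rw [Matrix.vecMul_vecMul, ← pow_succ]

variable (A : Matrix (Fin n) (Fin n) ℕ)

theorem mem_evRange {w : Fin n → ℚ} : w ∈ evRange A ↔ ∃ v, v ᵥ* toQ A ^ n = w := Iff.rfl

theorem evRange_inv {w : Fin n → ℚ} (hw : w ∈ evRange A) : w ᵥ* toQ A ∈ evRange A := by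
  obtain ⟨v, rfl⟩ := (mem_evRange A).mp hw
  refine (mem_evRange A).mpr ⟨v ᵥ* toQ A, ?_⟩
  rw [Matrix.vecMul_vecMul, Matrix.vecMul_vecMul, ← pow_succ, ← pow_succ']

theorem pow_mem_evRange {k : ℕ} (hk : n ≤ k) (v : Fin n → ℚ) : v ᵥ* toQ A ^ k ∈ evRange A := by
  refine (mem_evRange A).mpr ⟨v ᵥ* toQ A ^ (k - n), ?_⟩
  rw [Matrix.vecMul_vecMul, ← pow_add, Nat.sub_add_cancel hk]

theorem evRange_inj {w : Fin n → ℚ} (hw : w ∈ evRange A) {k : ℕ} (h : w ᵥ* toQ A ^ k = 0) :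
    w = 0 := by
  obtain ⟨v, rfl⟩ := (mem_evRange A).mp hw
  rw [Matrix.vecMul_vecMul, ← pow_add] at h
  let f : Module.End ℚ (Fin n → ℚ) := (toQ A).vecMulLinear
  have h1 : v ∈ LinearMap.ker (f ^ (n + k)) := by
    rw [LinearMap.mem_ker, vecMulLinear_pow]
    exact h
  have hfin : Module.finrank ℚ (Fin n → ℚ) = n := Module.finrank_fin_fun ℚ
  rw [Module.End.ker_pow_eq_ker_pow_finrank_of_le (by rw [hfin]; omega), hfin,
    LinearMap.mem_ker, vecMulLinear_pow] at h1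
  exact h1

theorem inv_pow_mem {W : Submodule ℚ (Fin n → ℚ)} (hW : ∀ w ∈ W, w ᵥ* toQ A ∈ W) (k : ℕ)
    {w : Fin n → ℚ} (hw : w ∈ W) : w ᵥ* toQ A ^ k ∈ W := by
  induction k with
  | zero => rwa [pow_zero, Matrix.vecMul_one]
  | succ k ih =>
    rw [pow_succ, ← Matrix.vecMul_vecMul]
    exact hW _ ih

theorem exists_root {W : Submodule ℚ (Fin n → ℚ)} (hW : ∀ w ∈ W, w ᵥ* toQ A ∈ W)
    (hWe : W ≤ evRange A) (k : ℕ) {w : Fin n → ℚ} (hw : w ∈ W) :
    ∃ w' ∈ W, w' ᵥ* toQ A ^ k = w := by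
  let f : Module.End ℚ W := (toQ A ^ k).vecMulLinear.restrict (fun w hw => inv_pow_mem A hW k hw)
  have hf : Function.Injective f := by
    rw [injective_iff_map_eq_zero]
    intro v hv
    apply Subtype.ext
    have h1 : (v : Fin n → ℚ) ᵥ* toQ A ^ k = 0 := congrArg Subtype.val hv
    exact evRange_inj A (hWe v.2) h1
  obtain ⟨v, hv⟩ := (LinearMap.injective_iff_surjective.mp hf) ⟨w, hw⟩
  exact ⟨v, v.2, congrArg Subtype.val hv⟩

end Ev

theorem pow_intertwine {V W : Type} [Fintype V] [DecidableEq V] [Fintype W] [DecidableEq W]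
    {C : Matrix V V ℚ} {D : Matrix W W ℚ} {X : Matrix V W ℚ} (h : C * X = X * D) (k : ℕ) :
    C ^ k * X = X * D ^ k := by
  induction k with
  | zero => rw [pow_zero, pow_zero, Matrix.one_mul, Matrix.mul_one]
  | succ k ih =>
    rw [pow_succ, Matrix.mul_assoc, h, ← Matrix.mul_assoc, ih, Matrix.mul_assoc, ← pow_succ]

/-- the necessary condition -/
theorem trace_condition {a b : ℕ} (A : Matrix (Fin a) (Fin a) ℕ)
    (B : Matrix (Fin b) (Fin b) ℕ) (hA : IsPrimitive A) (hB : IsPrimitive B)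
    (hent : ∃ h, HasEntropy (edgeShift A) h ∧ HasEntropy (edgeShift B) h)
    (hex : ∃ φ : edgeShift A → edgeShift B, IsFactorCode φ) :
    TraceDimCondition A B := by
  obtain ⟨φ, hφ⟩ := hex
  obtain ⟨V, _, _, p, E, X, Y, M, N, hM, hN, m, R, hEX, hYE, hYX, hXY, hN1, hm, hmR, heqv, htr⟩ :=
    exists_data hA hB hent φ hφ
  have hEX' : toQ E * toQ X = toQ X * toQ A := by rw [← toQ_mul, hEX, toQ_mul]
  have hYE' : toQ Y * toQ E = toQ A * toQ Y := by rw [← toQ_mul, hYE, toQ_mul]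
  have hYX' : toQ Y * toQ X = toQ A ^ p := by rw [← toQ_mul, hYX, toQ_pow]
  have hXY' : toQ X * toQ Y = toQ E ^ p := by rw [← toQ_mul, hXY, toQ_pow]
  have hYA : ∀ (k : ℕ) (w : Fin a → ℚ), w ᵥ* toQ A ^ k ᵥ* toQ Y = w ᵥ* toQ Y ᵥ* toQ E ^ k := by
    intro k w
    rw [Matrix.vecMul_vecMul, Matrix.vecMul_vecMul, ← pow_intertwine hYE'.symm k]
  have hMk : ∀ (k : ℕ) (f : V → ℚ), f ∈ M → f ᵥ* toQ E ^ k ∈ M := by
    intro k f hf
    induction k with
    | zero => rwa [pow_zero, Matrix.vecMul_one]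
    | succ k ih =>
      rw [pow_succ, ← Matrix.vecMul_vecMul]
      exact hM _ ih
  have heqvk : ∀ (k : ℕ) (f : V → ℚ), f ∈ M →
      f ᵥ* toQ E ^ k ᵥ* zQ R = f ᵥ* zQ R ᵥ* toQ B ^ k := by
    intro k f hf
    induction k with
    | zero => rw [pow_zero, pow_zero, Matrix.vecMul_one, Matrix.vecMul_one]
    | succ k ih =>
      rw [pow_succ, pow_succ, ← Matrix.vecMul_vecMul, ← Matrix.vecMul_vecMul,
        heqv _ (hMk k f hf), ih]
  let ψ : (Fin a → ℚ) →ₗ[ℚ] (Fin b → ℚ) := (toQ Y * zQ R).vecMulLinear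
  have hψ : ∀ w, ψ w = w ᵥ* toQ Y ᵥ* zQ R := fun w => by
    show w ᵥ* (toQ Y * zQ R) = _
    rw [Matrix.vecMul_vecMul]
  let W : Submodule ℚ (Fin a → ℚ) := evRange A ⊓ M.comap (toQ Y).vecMulLinear
  have hWmem : ∀ w, w ∈ W ↔ w ∈ evRange A ∧ w ᵥ* toQ Y ∈ M := fun w => Iff.rfl
  have hW : ∀ w ∈ W, w ᵥ* toQ A ∈ W := by
    intro w hw
    rw [hWmem] at hw ⊢
    refine ⟨evRange_inv A hw.1, ?_⟩
    have h1 := hYA 1 w
    rw [pow_one, pow_one] at h1
    rw [h1]
    exact hM _ hw.2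
  let U : Submodule ℚ (Fin a → ℚ) := W ⊓ LinearMap.ker ψ
  have hUmem : ∀ w, w ∈ U ↔ w ∈ W ∧ ψ w = 0 := fun w => Iff.rfl
  have hψA : ∀ (k : ℕ), ∀ w ∈ W, ψ (w ᵥ* toQ A ^ k) = ψ w ᵥ* toQ B ^ k := by
    intro k w hw
    rw [hψ, hψ, hYA, heqvk k _ ((hWmem w).mp hw).2]
  have hψ1 : ∀ w ∈ W, ψ (w ᵥ* toQ A) = ψ w ᵥ* toQ B := by
    intro w hw
    have h1 := hψA 1 w hw
    rwa [pow_one, pow_one] at h1
  have hU : ∀ w ∈ U, w ᵥ* toQ A ∈ U := by
    intro w hw
    rw [hUmem] at hw ⊢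
    refine ⟨hW w hw.1, ?_⟩
    rw [hψ1 w hw.1, hw.2, Matrix.zero_vecMul]
  have hWe : W ≤ evRange A := inf_le_left
  have hψev : ∀ w ∈ W, ψ w ∈ evRange B := by
    intro w hw
    obtain ⟨w', hw', rfl⟩ := exists_root A hW hWe b hw
    rw [hψA b w' hw']
    exact pow_mem_evRange B le_rfl _
  -- a lift of a power
  have hlift : ∀ f ∈ M, f ᵥ* toQ X ᵥ* toQ A ^ a ∈ W ∧
      (f ᵥ* toQ X ᵥ* toQ A ^ a) ᵥ* toQ Y = f ᵥ* toQ E ^ (p + a) := by
    intro f hf
    have h1 : (f ᵥ* toQ X ᵥ* toQ A ^ a) ᵥ* toQ Y = f ᵥ* toQ E ^ (p + a) := by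
      rw [hYA, Matrix.vecMul_vecMul f, hXY', Matrix.vecMul_vecMul, ← pow_add]
    refine ⟨(hWmem _).mpr ⟨pow_mem_evRange A le_rfl _, ?_⟩, h1⟩
    rw [h1]
    exact hMk _ f hf
  have hYinj : ∀ w ∈ evRange A, w ᵥ* toQ Y = 0 → w = 0 := by
    intro w hw h
    apply evRange_inj A hw (k := p)
    rw [← hYX', ← Matrix.vecMul_vecMul, h, Matrix.zero_vecMul]
  refine ⟨W, U, hW, hU, ψ, inf_le_left, hWe, hψ1, ?_, ?_, ?_⟩
  · intro w hw
    rw [hUmem]
    exact ⟨fun h => ⟨hw, h⟩, fun h => h.2⟩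
  · intro y
    constructor
    · rintro ⟨hy, k, z, hz⟩
      have hz' : y ᵥ* toQ B ^ k = fun j => (z j : ℚ) := funext hz
      -- an integral lift of z
      let f : V → ℚ := fun v => ((z ᵥ* m) v : ℚ)
      have hf1 : f = (fun j => (z j : ℚ)) ᵥ* zQ m := by
        funext v
        simp only [f, Matrix.vecMul, dotProduct, zQ, Matrix.map_apply]
        push_cast
        rfl
      have hfM : f ∈ M := by
        rw [hf1]
        have h1 : (fun j => (z j : ℚ)) ᵥ* zQ m = ∑ j, (z j : ℚ) • (zQ m) j := by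
          funext v
          rw [Finset.sum_apply]
          rfl
        rw [h1]
        exact Submodule.sum_mem _ fun j _ => M.smul_mem _ (hm j)
      have hfR : f ᵥ* zQ R = fun j => (z j : ℚ) := by
        have h1 : zQ m * zQ R = 1 := by
          ext i j
          have h2 := congrFun (congrFun hmR i) j
          rw [Matrix.mul_apply] at h2 ⊢
          simp only [zQ, Matrix.map_apply]
          rw [Matrix.one_apply] at h2 ⊢
          have h3 : ((∑ v, m i v * R v j : ℤ) : ℚ) = ((if i = j then 1 else 0 : ℤ) : ℚ) := by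
            rw [h2]
          push_cast at h3
          exact h3
        rw [hf1, Matrix.vecMul_vecMul, h1, Matrix.vecMul_one]
      obtain ⟨hwW, hwY⟩ := hlift f hfM
      obtain ⟨w', hw', hww'⟩ := exists_root A hW hWe (k + p + a) hwW
      refine ⟨w', hw', ⟨hWe hw', k + p + a, z ᵥ* m ᵥ* X.map (Nat.cast : ℕ → ℤ) ᵥ*
        (A ^ a).map (Nat.cast : ℕ → ℤ), fun j => ?_⟩, ?_⟩
      · rw [hww']
        have h1 : f ᵥ* toQ X = fun i => ((z ᵥ* m ᵥ* X.map (Nat.cast : ℕ → ℤ)) i : ℚ) := by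
          funext i
          simp only [f, Matrix.vecMul, dotProduct, toQ, Matrix.map_apply]
          push_cast
          rfl
        rw [h1, ← toQ_pow]
        simp only [Matrix.vecMul, dotProduct, toQ, Matrix.map_apply]
        push_cast
        rfl
      · have h1 : ψ w' ᵥ* toQ B ^ (k + p + a) = y ᵥ* toQ B ^ (k + p + a) := by
          rw [← hψA _ w' hw', hww', hψ, hwY, heqvk _ f hfM, hfR, ← hz', Matrix.vecMul_vecMul,
            ← pow_add, add_assoc]
        have h2 : (ψ w' - y) ᵥ* toQ B ^ (k + p + a) = 0 := by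
          rw [Matrix.sub_vecMul, h1, sub_self]
        exact sub_eq_zero.mp (evRange_inj B (Submodule.sub_mem _ (hψev w' hw') hy) h2)
    · rintro ⟨w, hw, ⟨_, k, z, hz⟩, rfl⟩
      refine ⟨hψev w hw, k, z ᵥ* Y.map (Nat.cast : ℕ → ℤ) ᵥ* R, fun j => ?_⟩
      have hz' : w ᵥ* toQ A ^ k = fun j => (z j : ℚ) := funext hz
      rw [← hψA k w hw, hψ, hz']
      simp only [Matrix.vecMul, dotProduct, toQ, zQ, Matrix.map_apply]
      push_cast
      rfl
  · intro n hn htr0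
    obtain ⟨h1, h2⟩ := htr n hn htr0
    constructor
    · rw [← h1]
      symm
      apply trace_pow_eq (M := M) (W := W) _ _ ((toQ Y).vecMulLinear.restrict
        (fun w hw => ((hWmem w).mp hw).2)) _ _ (p + a) _ n hn
      · rw [injective_iff_map_eq_zero]
        intro w hw
        apply Subtype.ext
        exact hYinj _ (hWe w.2) (congrArg Subtype.val hw)
      · intro w
        apply Subtype.ext
        show (w : Fin a → ℚ) ᵥ* toQ Y ᵥ* toQ E = (w : Fin a → ℚ) ᵥ* toQ A ᵥ* toQ Y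
        rw [Matrix.vecMul_vecMul, Matrix.vecMul_vecMul, hYE']
      · intro f
        obtain ⟨h3, h4⟩ := hlift f f.2
        refine ⟨⟨_, h3⟩, ?_⟩
        apply Subtype.ext
        rw [restrict_pow _ M hM (p + a) (hMk (p + a))]
        exact h4
    · have hNk : ∀ (k : ℕ) (f : V → ℚ), f ∈ N → f ᵥ* toQ E ^ k ∈ N := by
        intro k f hf
        induction k with
        | zero => rwa [pow_zero, Matrix.vecMul_one]
        | succ k ih =>
          rw [pow_succ, ← Matrix.vecMul_vecMul]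
          exact hN _ ih
      rw [← h2]
      symm
      apply trace_pow_eq (M := N) (W := U) _ _ ((toQ Y).vecMulLinear.restrict
        (fun w hw => (hN1 _).mpr ⟨((hWmem w).mp ((hUmem w).mp hw).1).2, by
          have h5 := ((hUmem w).mp hw).2
          rw [hψ] at h5
          exact h5⟩)) _ _ (p + a) _ n hn
      · rw [injective_iff_map_eq_zero]
        intro w hw
        apply Subtype.ext
        exact hYinj _ (hWe ((hUmem w).mp w.2).1) (congrArg Subtype.val hw)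
      · intro w
        apply Subtype.ext
        show (w : Fin a → ℚ) ᵥ* toQ Y ᵥ* toQ E = (w : Fin a → ℚ) ᵥ* toQ A ᵥ* toQ Y
        rw [Matrix.vecMul_vecMul, Matrix.vecMul_vecMul, hYE']
      · intro f
        have hf := (hN1 _).mp f.2
        obtain ⟨h3, h4⟩ := hlift f hf.1
        refine ⟨⟨_, (hUmem _).mpr ⟨h3, ?_⟩⟩, ?_⟩
        · rw [hψ, h4, heqvk _ _ hf.1, hf.2, Matrix.zero_vecMul]
        · apply Subtype.ext
          rw [restrict_pow _ N hN (p + a) (hNk (p + a))]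
          exact h4

end Pool.Agent.FT
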